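import Mathlib

set_option autoImplicit false

namespace Pool.Agent.Lib.MP_af4f85_ag

open MvPowerSeries

section

variable {σ τ : Type*} [Finite σ] [Finite τ] {k : Type*} [Field k]

variable (σ k) in
/-- the maximal ideal of the power series ring -/
noncomputable def mm : Ideal (MvPowerSeries σ k) := Ideal.span (Set.range X)

theorem X_mem_mm (i : σ) : (X i : MvPowerSeries σ k) ∈ mm σ k := Ideal.subset_span ⟨i, rfl⟩

theorem coeff_of_mem_mm_pow {N : ℕ} : ∀ {b : MvPowerSeries σ k}, b ∈ mm σ k ^ N →
    ∀ γ : σ →₀ ℕ, γ.degree < N → coeff γ b = 0 := by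
  classical
  have := Fintype.ofFinite σ
  induction N with
  | zero => intro b _ γ h; omega
  | succ N ih =>
    intro b hb γ hγ
    rw [pow_succ] at hb
    induction hb using Submodule.mul_induction_on' with
    | mem_mul_mem x hx y hy =>
      rw [coeff_mul]
      refine Finset.sum_eq_zero fun p hp => ?_
      rw [Finset.HasAntidiagonal.mem_antidiagonal] at hp
      have hdeg : p.1.degree + p.2.degree = γ.degree := by rw [← hp, map_add]
      by_cases h1 : p.1.degree < N
      · rw [ih hx _ h1, zero_mul]
      · have h2 : p.2.degree = 0 := by omega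
        have h3 : p.2 = 0 := (Finsupp.degree_eq_zero_iff _).mp h2
        have h4 : coeff (0 : σ →₀ ℕ) y = 0 := by
          unfold mm at hy
          rw [coeff_zero_eq_constantCoeff_apply]
          have : Ideal.span (Set.range (X : σ → MvPowerSeries σ k)) ≤
              RingHom.ker (constantCoeff (σ := σ) (R := k)) := by
            rw [Ideal.span_le]
            rintro _ ⟨i, rfl⟩
            exact constantCoeff_X i
          exact this hy
        rw [h3, h4, mul_zero]
    | add x _ y _ hx hy => rw [map_add, hx, hy, add_zero]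

theorem mem_mm_pow_of_coeff (N : ℕ) : ∀ b : MvPowerSeries σ k,
    (∀ γ : σ →₀ ℕ, γ.degree < N → coeff γ b = 0) → b ∈ mm σ k ^ N := by
  classical
  have := Fintype.ofFinite σ
  induction N with
  | zero => intro b _; simp
  | succ N ih =>
    intro b hb
    have hc : ∀ γ : σ →₀ ℕ, γ ≠ 0 → ∃ i, γ i ≠ 0 := by
      intro γ h
      by_contra h'
      push Not at h'
      exact h (Finsupp.ext h')
    let c : (σ →₀ ℕ) → Option σ := fun γ => if h : γ ≠ 0 then some (hc γ h).choose else none
    have hc1 : ∀ γ i, c γ = some i → γ i ≠ 0 := by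
      intro γ i h
      simp only [c] at h
      split_ifs at h with h'
      · have := (hc γ h').choose_spec
        rw [Option.some_inj] at h
        rwa [h] at this
    have hc2 : ∀ γ, γ ≠ 0 → ∃ i, c γ = some i := by
      intro γ h
      exact ⟨_, dif_pos h⟩
    let b' : σ → MvPowerSeries σ k := fun i δ =>
      if c (δ + Finsupp.single i 1) = some i then coeff (δ + Finsupp.single i 1) b else 0
    have hb' : ∀ i δ, coeff δ (b' i) =
        if c (δ + Finsupp.single i 1) = some i then coeff (δ + Finsupp.single i 1) b else 0 :=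
      fun i δ => rfl
    have hsum : b = ∑ i, X i * b' i := by
      ext γ
      rw [map_sum]
      have h1 : ∀ i, coeff γ (X i * b' i) = if c γ = some i then coeff γ b else 0 := by
        intro i
        rw [X, coeff_monomial_mul, one_mul]
        by_cases h : Finsupp.single i 1 ≤ γ
        · rw [if_pos h, hb', tsub_add_cancel_of_le h]
        · rw [if_neg h, if_neg]
          intro h'
          have := hc1 _ _ h'
          rw [Finsupp.single_le_iff] at h
          omega
      simp_rw [h1]
      by_cases h0 : γ = 0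
      · subst h0
        rw [hb 0 (by simp)]
        simp
      · obtain ⟨i, hi⟩ := hc2 γ h0
        rw [hi, Finset.sum_eq_single i]
        · rw [if_pos rfl]
        · intro j _ hj
          rw [if_neg]
          intro h
          exact hj (Option.some_inj.mp h).symm
        · intro h
          exact absurd (Finset.mem_univ i) h
    rw [hsum]
    refine Ideal.sum_mem _ fun i _ => ?_
    rw [pow_succ']
    refine Ideal.mul_mem_mul (X_mem_mm i) (ih _ fun γ hγ => ?_)
    rw [hb']
    split_ifs
    · exact hb _ (by rw [map_add, Finsupp.degree_single]; omega)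
    · rfl

theorem mem_mm_pow_iff {N : ℕ} {b : MvPowerSeries σ k} :
    b ∈ mm σ k ^ N ↔ ∀ γ : σ →₀ ℕ, γ.degree < N → coeff γ b = 0 :=
  ⟨fun h => coeff_of_mem_mm_pow h, mem_mm_pow_of_coeff N b⟩

theorem mem_mm_iff {b : MvPowerSeries σ k} : b ∈ mm σ k ↔ constantCoeff b = 0 := by
  have := mem_mm_pow_iff (N := 1) (b := b)
  rw [pow_one] at this
  rw [this]
  constructor
  · intro h
    rw [← coeff_zero_eq_constantCoeff_apply]
    exact h 0 (by simp)
  · intro h γ hγ
    have : γ = 0 := (Finsupp.degree_eq_zero_iff _).mp (by omega)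
    rw [this, coeff_zero_eq_constantCoeff_apply, h]

theorem mm_eq_maximalIdeal : mm σ k = IsLocalRing.maximalIdeal (MvPowerSeries σ k) := by
  ext b
  rw [mem_mm_iff, IsLocalRing.mem_maximalIdeal, mem_nonunits_iff, isUnit_iff_constantCoeff,
    isUnit_iff_ne_zero, not_not]

instance mm_isMaximal : (mm σ k).IsMaximal := by
  rw [mm_eq_maximalIdeal]; infer_instance

theorem sub_truncTotal_mem (N : ℕ) (b : MvPowerSeries σ k) :
    b - (truncTotal N b : MvPolynomial σ k) ∈ mm σ k ^ N := by
  rw [mem_mm_pow_iff]
  intro γ hγ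
  rw [map_sub, MvPolynomial.coeff_coe, coeff_truncTotal _ hγ, sub_self]

/-- Two ring homs out of a power series ring killing a power of the maximal ideal agree if they
agree on constants and variables. -/
theorem ringHom_ext_of_pow {T : Type*} [CommRing T] (F G : MvPowerSeries σ k →+* T)
    (hC : ∀ c, F (C c) = G (C c)) (hX : ∀ i, F (X i) = G (X i)) (N : ℕ)
    (hF : ∀ b ∈ mm σ k ^ N, F b = 0) (hG : ∀ b ∈ mm σ k ^ N, G b = 0) : F = G := by
  ext b
  have hp : ∀ p : MvPolynomial σ k, F (p : MvPowerSeries σ k) = G (p : MvPowerSeries σ k) := by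
    intro p
    induction p using MvPolynomial.induction_on with
    | C a => simpa using hC a
    | add p q hp hq => rw [MvPolynomial.coe_add, map_add, map_add, hp, hq]
    | mul_X p i hp => rw [MvPolynomial.coe_mul, map_mul, map_mul, hp, MvPolynomial.coe_X, hX]
  have h := sub_truncTotal_mem N b
  have h1 := hF _ h
  have h2 := hG _ h
  rw [map_sub, sub_eq_zero] at h1 h2
  rw [h1, h2, hp]

theorem krull_closed (I : Ideal (MvPowerSeries σ k)) {b : MvPowerSeries σ k}
    (h : ∀ N, b ∈ I ⊔ mm σ k ^ N) : b ∈ I := by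
  by_cases hI : I = ⊤
  · rw [hI]; trivial
  have : Nontrivial (MvPowerSeries σ k ⧸ I) := Ideal.Quotient.nontrivial_iff.mpr hI
  have : IsLocalRing (MvPowerSeries σ k ⧸ I) :=
    IsLocalRing.of_surjective' (Ideal.Quotient.mk I) Ideal.Quotient.mk_surjective
  have h1 : Ideal.Quotient.mk I b ∈
      ⨅ N : ℕ, (IsLocalRing.maximalIdeal (MvPowerSeries σ k ⧸ I)) ^ N := by
    rw [Ideal.mem_iInf]
    intro N
    obtain ⟨x, hx, y, hy, hxy⟩ := Submodule.mem_sup.mp (h N)
    rw [← hxy, map_add, Ideal.Quotient.eq_zero_iff_mem.mpr hx, zero_add]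
    have h2 : Ideal.map (Ideal.Quotient.mk I) (mm σ k) ≤
        IsLocalRing.maximalIdeal (MvPowerSeries σ k ⧸ I) := by
      refine IsLocalRing.le_maximalIdeal fun htop => ?_
      have h4 : Ideal.comap (Ideal.Quotient.mk I) (Ideal.map (Ideal.Quotient.mk I) (mm σ k)) =
          ⊤ := by rw [htop, Ideal.comap_top]
      rw [Ideal.comap_map_of_surjective _ Ideal.Quotient.mk_surjective, ← RingHom.ker_eq_comap_bot,
        Ideal.mk_ker, mm_eq_maximalIdeal, sup_eq_left.mpr (IsLocalRing.le_maximalIdeal hI)] at h4
      exact (IsLocalRing.maximalIdeal.isMaximal _).ne_top h4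
    have h3 := Ideal.mem_map_of_mem (Ideal.Quotient.mk I) hy
    rw [Ideal.map_pow] at h3
    exact Ideal.pow_right_mono h2 N h3
  rw [Ideal.iInf_pow_eq_bot_of_isLocalRing _ (IsLocalRing.maximalIdeal.isMaximal _).ne_top] at h1
  exact Ideal.Quotient.eq_zero_iff_mem.mp h1

end

end Pool.Agent.Lib.MP_af4f85_ag
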