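import Pool.Agent.Lib.MP_af4f85_ag.Limit

set_option autoImplicit false

namespace Pool.Agent.Lib.MP_af4f85_ag

open MvPowerSeries

section Pi

variable {A : Type*} [CommRing A] {ι : Type*} [Fintype ι] [DecidableEq ι]

theorem mem_smul_top_pi (I : Ideal A) (x : ι → A) :
    x ∈ (I • ⊤ : Submodule A (ι → A)) ↔ ∀ i, x i ∈ I := by
  constructor
  · intro h i
    have h2 : (I • ⊤ : Submodule A (ι → A)) ≤
        Submodule.comap (LinearMap.proj (R := A) (φ := fun _ : ι => A) i) I := by
      rw [Submodule.smul_le]
      intro r hr n _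
      rw [Submodule.mem_comap, map_smul, smul_eq_mul]
      exact Ideal.mul_mem_right _ _ hr
    exact h2 h
  · intro h
    have h1 : x = ∑ i, x i • (Pi.single i 1 : ι → A) := by
      funext j
      simp [Finset.sum_apply, Pi.single_apply]
    rw [h1]
    exact Submodule.sum_mem _ fun i _ => Submodule.smul_mem_smul (h i) Submodule.mem_top

theorem isPrecomplete_pi (I : Ideal A) [IsPrecomplete I A] : IsPrecomplete I (ι → A) := by
  constructor
  intro f hf
  have h1 : ∀ i, ∃ L : A, ∀ n, f n i ≡ L [SMOD (I ^ n • ⊤ : Submodule A A)] := by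
    intro i
    refine IsPrecomplete.prec inferInstance (f := fun n => f n i) ?_
    intro m n hmn
    have := hf hmn
    rw [SModEq.sub_mem, mem_smul_top_pi] at this
    rw [SModEq.sub_mem, smul_eq_mul, Ideal.mul_top]
    exact this i
  choose L hL using h1
  refine ⟨L, fun n => ?_⟩
  rw [SModEq.sub_mem, mem_smul_top_pi]
  intro i
  have := hL i n
  rwa [SModEq.sub_mem, smul_eq_mul, Ideal.mul_top] at this

end Pi

section

variable {σ τ : Type*} [Finite σ] [Finite τ] {k : Type*} [Field k]

instance instDomPS : IsDomain (MvPowerSeries τ k) := NoZeroDivisors.to_isDomain _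

/-- The target ring as an algebra through substitution. -/
def SubA {σ τ : Type*} [Finite σ] {k : Type*} [Field k] (f : σ → MvPowerSeries τ k)
    (_ : ∀ i, constantCoeff (f i) = 0) : Type _ := MvPowerSeries τ k

variable (f : σ → MvPowerSeries τ k) (h : ∀ i, constantCoeff (f i) = 0)

noncomputable instance : CommRing (SubA f h) := inferInstanceAs (CommRing (MvPowerSeries τ k))

instance : IsDomain (SubA f h) := inferInstanceAs (IsDomain (MvPowerSeries τ k))

instance : IsLocalRing (SubA f h) := inferInstanceAs (IsLocalRing (MvPowerSeries τ k))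

instance : IsNoetherianRing (SubA f h) := inferInstanceAs (IsNoetherianRing (MvPowerSeries τ k))

noncomputable instance : Algebra (MvPowerSeries σ k) (SubA f h) := (sh f h).toAlgebra

/-- the identity -/
noncomputable def toSub : MvPowerSeries τ k ≃+* SubA f h := RingEquiv.refl _

theorem algebraMap_subA (a : MvPowerSeries σ k) :
    algebraMap (MvPowerSeries σ k) (SubA f h) a = toSub f h (sh f h a) := rfl

theorem map_algebraMap_subA (I : Ideal (MvPowerSeries σ k)) :
    I.map (algebraMap (MvPowerSeries σ k) (SubA f h)) = (I.map (sh f h) : Ideal (MvPowerSeries τ k))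
    := rfl

/-- The system `f` generates an ideal primary to the maximal ideal. -/
def Prim (f : σ → MvPowerSeries τ k) : Prop := ∃ K : ℕ, mm τ k ^ K ≤ Ideal.span (Set.range f)

theorem finite_of_prim (hf : Prim f) : Module.Finite (MvPowerSeries σ k) (SubA f h) := by
  classical
  obtain ⟨K, hK⟩ := hf
  have hspan : Ideal.span (Set.range f) ≤ mm τ k := by
    rw [Ideal.span_le]
    rintro _ ⟨i, rfl⟩
    exact mem_mm_iff.mpr (h i)
  let s : Finset (τ →₀ ℕ) := (Finsupp.finite_of_degree_lt K).toFinset
  have hprec : IsPrecomplete (mm σ k) (s → MvPowerSeries σ k) := by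
    have : IsPrecomplete (mm σ k) (MvPowerSeries σ k) := by
      unfold mm
      infer_instance
    exact isPrecomplete_pi _
  have hhaus : IsHausdorff (mm σ k) (SubA f h) := by
    constructor
    intro x hx
    have h1 : x ∈ (⊥ : Ideal (MvPowerSeries τ k)) := by
      apply krull_closed
      intro N
      refine Submodule.mem_sup_right ?_
      have h2 := hx N
      rw [SModEq.sub_mem, sub_zero, Ideal.smul_top_eq_map] at h2
      have h3 : x ∈ (Ideal.map (sh f h) (mm σ k ^ N) : Ideal (MvPowerSeries τ k)) := h2
      rw [Ideal.map_pow, map_sh_mm] at h3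
      exact Ideal.pow_right_mono hspan N h3
    exact h1
  let F : (s → MvPowerSeries σ k) →ₗ[MvPowerSeries σ k] SubA f h :=
    Fintype.linearCombination (MvPowerSeries σ k)
      (fun γ : s => toSub f h (monomial γ.1 (1 : k)))
  have hF : Function.Surjective F := by
    apply surjective_of_mkQ_comp_surjective (I := mm σ k)
    intro y
    obtain ⟨b, rfl⟩ := Submodule.mkQ_surjective _ y
    obtain ⟨b, rfl⟩ := (toSub f h).surjective b
    refine ⟨fun γ => C (coeff γ.1 b), ?_⟩
    rw [LinearMap.comp_apply, ← sub_eq_zero, ← map_sub, ← LinearMap.mem_ker, Submodule.ker_mkQ,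
      Ideal.smul_top_eq_map]
    have h1 : F (fun γ => C (coeff γ.1 b)) =
        toSub f h ((truncTotal K b : MvPolynomial τ k) : MvPowerSeries τ k) := by
      rw [Fintype.linearCombination_apply]
      have h2 : ∀ γ : s, (C (coeff γ.1 b) : MvPowerSeries σ k) •
          (toSub f h (monomial γ.1 (1 : k))) = toSub f h (monomial γ.1 (coeff γ.1 b)) := by
        intro γ
        rw [Algebra.smul_def, algebraMap_subA, sh_C, ← map_mul, ← smul_eq_C_mul, ← map_smul,
          smul_eq_mul, mul_one]
      simp_rw [h2]
      rw [← map_sum]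
      congr 1
      rw [Finset.sum_coe_sort s (fun γ => monomial γ (coeff γ b))]
      ext δ
      rw [map_sum, MvPolynomial.coeff_coe, coeff_truncTotal_eq_ite]
      simp_rw [coeff_monomial]
      rw [Finset.sum_ite_eq]
      simp [s]
    rw [h1, ← map_sub]
    have h4 : (truncTotal K b : MvPolynomial τ k) - b ∈
        (Ideal.map (sh f h) (mm σ k) : Ideal (MvPowerSeries τ k)) := by
      rw [map_sh_mm]
      apply hK
      have := sub_truncTotal_mem K b
      have h3 := (neg_mem_iff (H := mm τ k ^ K)).mpr this
      rwa [neg_sub] at h3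
    exact h4
  exact Module.Finite.of_surjective F hF

end

section

variable {σ : Type*} [Fintype σ] [DecidableEq σ] {k : Type*} [Field k] [CharZero k]

instance : CharZero (MvPowerSeries σ k) :=
  charZero_of_injective_algebraMap (algebraMap k (MvPowerSeries σ k)).injective

theorem T1 (f : σ → MvPowerSeries σ k) (h : ∀ i, constantCoeff (f i) = 0) (hf : Prim f) :
    Module.Finite (MvPowerSeries σ k) (SubA f h) ∧ Module.Free (MvPowerSeries σ k) (SubA f h) ∧
      ResPkg (MvPowerSeries σ k) (SubA f h) (toSub f h (jac f)) := by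
  have hfin := finite_of_prim f h hf
  refine ⟨hfin, ?_⟩
  obtain ⟨K, hK⟩ := hf
  have hspan : Ideal.span (Set.range f) ≤ mm σ k := by
    rw [Ideal.span_le]
    rintro _ ⟨i, rfl⟩
    exact mem_mm_iff.mpr (h i)
  refine resPkg_of_levels ?_ ?_
  · rw [map_algebraMap_subA, ← mm_eq_maximalIdeal, map_sh_mm]
    change Ideal.span (Set.range f) ≤ IsLocalRing.maximalIdeal (MvPowerSeries σ k)
    rw [← mm_eq_maximalIdeal]
    exact hspan
  · intro j hj
    rw [← mm_eq_maximalIdeal]
    refine level f h j (K * j) ?_
    rw [pow_mul]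
    exact Ideal.pow_right_mono hK j

end

end Pool.Agent.Lib.MP_af4f85_ag
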