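import Pool.Agent.Lib.MP_af4f85_ag.KL

set_option autoImplicit false
set_option linter.style.haveILetI false

namespace Pool.Agent.Lib.MP_af4f85_ag

open Module IsLocalRing

section FiniteLocal

variable {D R : Type*} [CommRing D] [IsLocalRing D] [CommRing R] [IsLocalRing R] [Algebra D R]
  [Module.Finite D R]

theorem exists_pow_le :
    ∃ N, maximalIdeal R ^ N ≤ (maximalIdeal D).map (algebraMap D R) := by
  letI : Field (D ⧸ maximalIdeal D) := Ideal.Quotient.field _
  have h1 : IsScalarTower D (D ⧸ maximalIdeal D) (R ⧸ (maximalIdeal D).map (algebraMap D R)) :=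
    inferInstance
  have h2 : Module.Finite (D ⧸ maximalIdeal D) (R ⧸ (maximalIdeal D).map (algebraMap D R)) :=
    Module.Finite.of_restrictScalars_finite D _ _
  have : IsArtinianRing (R ⧸ (maximalIdeal D).map (algebraMap D R)) :=
    IsArtinianRing.of_finite (D ⧸ maximalIdeal D) _
  exact exists_maximalIdeal_pow_le_of_isArtinianRing_quotient _

theorem exists_socle (hres : ∀ x : R, ∃ a : D, x - algebraMap D R a ∈ maximalIdeal R)
    (hns : ¬ Function.Surjective (algebraMap D R)) :
    ∃ s ∈ maximalIdeal R, s ∉ (maximalIdeal D).map (algebraMap D R) ∧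
      ∀ y ∈ maximalIdeal R, y * s ∈ (maximalIdeal D).map (algebraMap D R) := by
  classical
  set I := (maximalIdeal D).map (algebraMap D R) with hI
  have h1 : ¬ maximalIdeal R ≤ I := by
    intro h
    apply hns
    have h2 : (⊤ : Submodule D R) ≤ Submodule.span D {1} ⊔ maximalIdeal D • ⊤ := by
      intro x _
      obtain ⟨a, ha⟩ := hres x
      have e1 : x = algebraMap D R a + (x - algebraMap D R a) := by ring
      rw [e1]
      refine Submodule.add_mem _ (Submodule.mem_sup_left ?_) (Submodule.mem_sup_right ?_)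
      · rw [Algebra.algebraMap_eq_smul_one]
        exact Submodule.smul_mem _ _ (Submodule.mem_span_singleton_self _)
      · rw [Ideal.smul_top_eq_map]
        exact h ha
    have h3 := Submodule.le_of_le_smul_of_le_jacobson_bot (Module.Finite.fg_top (R := D) (M := R))
      (maximalIdeal_le_jacobson _) h2
    intro x
    obtain ⟨a, ha⟩ := Submodule.mem_span_singleton.mp (h3 (Submodule.mem_top (x := x)))
    exact ⟨a, by rw [Algebra.algebraMap_eq_smul_one, ha]⟩
  have hex : ∃ N, maximalIdeal R ^ N ≤ I := exists_pow_le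
  set N := Nat.find hex with hN
  have hN1 : maximalIdeal R ^ N ≤ I := Nat.find_spec hex
  have hN0 : N ≠ 0 := by
    intro h
    rw [h, pow_zero, Ideal.one_eq_top] at hN1
    exact h1 (le_top.trans hN1)
  have hN2 : N ≠ 1 := by
    intro h
    rw [h, pow_one] at hN1
    exact h1 hN1
  have hN3 : ¬ maximalIdeal R ^ (N - 1) ≤ I := Nat.find_min hex (by omega)
  obtain ⟨s, hs1, hs2⟩ := Set.not_subset.mp hN3
  refine ⟨s, ?_, hs2, fun y hy => hN1 ?_⟩
  · exact Ideal.pow_le_self (by omega) hs1
  · have : N = (N - 1) + 1 := by omega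
    rw [this, pow_succ']
    exact Ideal.mul_mem_mul hy hs1

theorem trace_mem_of_mem [Module.Free D R] {y : R} (hy : y ∈ maximalIdeal R) :
    Algebra.trace D R y ∈ maximalIdeal D := by
  letI : Field (D ⧸ maximalIdeal D) := Ideal.Quotient.field _
  obtain ⟨N, hN⟩ := exists_pow_le (D := D) (R := R)
  rw [← Ideal.Quotient.eq_zero_iff_mem, ← Algebra.trace_quotient_mk]
  refine (Algebra.isNilpotent_trace_of_isNilpotent ⟨N, ?_⟩).eq_zero
  rw [← map_pow, Ideal.Quotient.eq_zero_iff_mem]
  exact hN (Ideal.pow_mem_pow hy N)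

end FiniteLocal

/-- The trace lemma. -/
theorem trace5 {D R C S : Type*} [CommRing D] [IsDomain D] [IsLocalRing D] [IsNoetherianRing D]
    [CharZero D] [CommRing R] [IsDomain R] [IsLocalRing R] [CommRing C] [CommRing S] [IsDomain S]
    [Algebra D R] [Algebra D S] [Algebra R C] [Algebra R S] [IsScalarTower D R S]
    (hunit : ∀ n : ℕ, n ≠ 0 → IsUnit (n : D))
    [Module.Finite D S] [Module.Free D S] [Module.Finite R C] [Module.Free R C]
    (hRS : Function.Injective (algebraMap R S))
    (hloc : ∀ a ∈ maximalIdeal D, algebraMap D R a ∈ maximalIdeal R)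
    (hres : ∀ x : R, ∃ a : D, x - algebraMap D R a ∈ maximalIdeal R)
    (π : C →ₐ[R] S) (hπ : Function.Surjective π) (hnil : ∀ x, π x = 0 → IsNilpotent x)
    (Φ : S →ₗ[D] D) (m : S) (hm : ∀ s, Algebra.trace D S s = Φ (m * s))
    (hgen : ∀ l : S →ₗ[D] D, ∃ b, ∀ s, l s = Φ (b * s))
    (hperf : ∀ b, (∀ s, Φ (b * s) = 0) → b = 0)
    (hns : ¬ Function.Surjective (algebraMap D R))
    (W : Submodule R S) (hW : ∀ c : S, (∃ h ρ : R, h ≠ 0 ∧ h • c = ρ • m) → c ∈ W) :
    m ∈ maximalIdeal R • W := by
  classical
  letI : Algebra D C := ((algebraMap R C).comp (algebraMap D R)).toAlgebra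
  haveI : IsScalarTower D R C := IsScalarTower.of_algebraMap_eq fun x => rfl
  -- finiteness
  have hRSl : Function.Injective (IsScalarTower.toAlgHom D R S).toLinearMap := hRS
  haveI : Module.Finite D R := Module.Finite.of_injective _ hRSl
  have hntC : Nontrivial C := π.toRingHom.domain_nontrivial
  haveI hCR : CharZero R := by
    have hDS : Function.Injective (algebraMap D S) := FaithfulSMul.algebraMap_injective D S
    rw [IsScalarTower.algebraMap_eq D R S] at hDS
    exact charZero_of_injective_algebraMap (Function.Injective.of_comp hDS)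
  have hunitR : ∀ n : ℕ, n ≠ 0 → IsUnit (n : R) := by
    intro n hn
    have := (hunit n hn).map (algebraMap D R)
    rwa [map_natCast] at this
  -- the map T0
  obtain ⟨T0, hT0⟩ : ∃ T0 : S →ₗ[R] R, ∀ c, T0 (π c) = Algebra.trace R C c := by
    have hker : LinearMap.ker π.toLinearMap ≤ LinearMap.ker (Algebra.trace R C) := by
      intro x hx
      rw [LinearMap.mem_ker] at hx ⊢
      exact (Algebra.isNilpotent_trace_of_isNilpotent (hnil x hx)).eq_zero
    let e := π.toLinearMap.quotKerEquivOfSurjective hπ
    refine ⟨(Submodule.liftQ _ (Algebra.trace R C) hker).comp e.symm.toLinearMap, fun c => ?_⟩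
    have h1 : e.symm (π c) = Submodule.Quotient.mk c := by
      rw [LinearEquiv.symm_apply_eq]
      rfl
    rw [LinearMap.comp_apply]
    change Submodule.liftQ _ (Algebra.trace R C) hker (e.symm (π c)) = _
    rw [h1, Submodule.liftQ_apply]
  have hT1 : T0 1 = (finrank R C : R) := by
    rw [← map_one π, hT0, ← map_one (algebraMap R C), Algebra.trace_algebraMap, nsmul_eq_mul,
      mul_one]
  have hd : IsUnit (finrank R C : R) := hunitR _ (Module.finrank_pos (R := R) (M := C)).ne'
  -- R is free over D
  haveI hproj : Module.Projective D R := by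
    obtain ⟨u, hu⟩ := hd
    refine Module.Projective.of_split (M := S) (IsScalarTower.toAlgHom D R S).toLinearMap
      ((LinearMap.restrictScalars D ((↑u⁻¹ : R) • T0))) ?_
    ext x
    change (↑u⁻¹ : R) • T0 (algebraMap R S x) = x
    rw [Algebra.algebraMap_eq_smul_one, map_smul, hT1, ← hu, smul_eq_mul, smul_eq_mul]
    rw [mul_comm x, ← mul_assoc, Units.inv_mul, one_mul]
  haveI hfree : Module.Free D R := Module.free_of_flat_of_isLocalRing
  haveI : Module.Finite D C := Module.Finite.trans R C
  haveI : Module.Free D C := Module.Free.trans (R := D) (S := R) (M := C)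
  obtain ⟨μ, μ', hμ, hμ', htr⟩ := trace_of_nil (π.restrictScalars D) hπ hnil
  have htr2 : ∀ s : S, (μ' : D) * Algebra.trace D R (T0 s) = μ * Φ (m * s) := by
    intro s
    obtain ⟨c, rfl⟩ := hπ s
    rw [hT0, Algebra.trace_trace, htr, hm]
    rfl
  -- c_λ
  have hc : ∀ l : R →ₗ[D] D, ∃ b : S, ∀ s, l (T0 s) = Φ (b * s) := by
    intro l
    exact hgen (l.comp (T0.restrictScalars D))
  choose cl hcl using hc
  obtain hctr := hcl (Algebra.trace D R)
  set ct := cl (Algebra.trace D R) with hct
  have hrel : (μ' : S) * ct = μ * m := by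
    rw [← sub_eq_zero]
    apply hperf
    intro s
    have e1 : ((μ' : S) * ct - μ * m) * s = (μ' : D) • (ct * s) - (μ : D) • (m * s) := by
      rw [Algebra.smul_def, Algebra.smul_def, map_natCast, map_natCast]
      ring
    rw [e1, map_sub, map_smul, map_smul, ← hctr, smul_eq_mul, smul_eq_mul, htr2, sub_self]
  -- rank
  have hr : 0 < finrank D R := Module.finrank_pos (R := D) (M := R)
  -- c_λ ∈ W
  have hclW : ∀ l : R →ₗ[D] D, cl l ∈ W := by
    intro l
    obtain ⟨h, ρ, hne, hrl⟩ : ∃ h ρ : R, (h ≠ 0 ∨ ρ ≠ 0) ∧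
        ∀ x, l (h * x) = Algebra.trace D R (ρ * x) := by
      let F : (R × R) →ₗ[D] (R →ₗ[D] D) :=
        { toFun := fun p => l.comp (LinearMap.mulLeft D p.1) -
            (Algebra.trace D R).comp (LinearMap.mulLeft D p.2)
          map_add' := by
            intro p q
            ext x
            simp only [Prod.fst_add, Prod.snd_add, LinearMap.sub_apply, LinearMap.comp_apply,
              LinearMap.mulLeft_apply, LinearMap.add_apply, add_mul, map_add]
            ring
          map_smul' := by
            intro a p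
            ext x
            simp only [Prod.smul_fst, Prod.smul_snd, LinearMap.sub_apply, LinearMap.comp_apply,
              LinearMap.mulLeft_apply, LinearMap.smul_apply, smul_mul_assoc, map_smul,
              RingHom.id_apply, smul_sub] }
      have hF : ¬ Function.Injective F := by
        intro hinj
        have h1 := LinearMap.finrank_le_finrank_of_injective hinj
        rw [Module.finrank_prod, Module.finrank_linearMap_self] at h1
        omega
      rw [← LinearMap.ker_eq_bot, Submodule.eq_bot_iff] at hF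
      push Not at hF
      obtain ⟨p, hp1, hp2⟩ := hF
      refine ⟨p.1, p.2, ?_, fun x => ?_⟩
      · by_contra h
        push Not at h
        exact hp2 (Prod.ext h.1 h.2)
      · have h2 := LinearMap.congr_fun (LinearMap.mem_ker.mp hp1) x
        rw [LinearMap.zero_apply] at h2
        exact sub_eq_zero.mp h2
    have hh : h ≠ 0 := by
      intro h0
      have hρ : ρ ≠ 0 := hne.resolve_left (fun h' => h' h0)
      have hfaith : FaithfulSMul D R := inferInstance
      have halg : Algebra.IsAlgebraic D R := inferInstance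
      obtain ⟨a, ha, t, hat⟩ := (halg.1 ρ).exists_nonzero_dvd (mem_nonZeroDivisors_of_ne_zero hρ)
      have h1 := hrl t
      rw [h0, zero_mul, map_zero, ← hat, Algebra.trace_algebraMap, nsmul_eq_mul, eq_comm,
        mul_eq_zero] at h1
      rcases h1 with h1 | h1
      · exact hr.ne' (Nat.cast_eq_zero.mp h1)
      · exact ha h1
    have hrel2 : h • cl l = ρ • ct := by
      rw [← sub_eq_zero]
      apply hperf
      intro s
      have e1 : (h • cl l - ρ • ct) * s = cl l * (h • s) - ct * (ρ • s) := by
        rw [Algebra.smul_def, Algebra.smul_def, Algebra.smul_def, Algebra.smul_def]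
        ring
      rw [e1, map_sub, ← hcl, ← hctr, T0.map_smul h s, T0.map_smul ρ s, smul_eq_mul, smul_eq_mul,
        hrl, sub_self]
    apply hW
    refine ⟨(μ' : R) * h, μ * ρ, mul_ne_zero (Nat.cast_ne_zero.mpr hμ') hh, ?_⟩
    rw [mul_smul, hrel2, mul_smul, Algebra.smul_def, Algebra.smul_def, Algebra.smul_def,
      Algebra.smul_def, map_natCast, map_natCast]
    linear_combination (algebraMap R S ρ) * hrel
  -- the socle
  obtain ⟨s0, hs0, hs1, hs2⟩ := exists_socle (D := D) (R := R) hres hns
  let b := Module.Free.chooseBasis D R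
  obtain ⟨i0, hi0⟩ : ∃ i, b.repr s0 i ∉ maximalIdeal D := by
    by_contra h
    push Not at h
    apply hs1
    rw [← b.sum_repr s0]
    refine Ideal.sum_mem _ fun i _ => ?_
    rw [Algebra.smul_def]
    exact Ideal.mul_mem_right _ _ (Ideal.mem_map_of_mem _ (h i))
  have hu0 : IsUnit (b.repr s0 i0) := by
    by_contra h
    exact hi0 ((mem_maximalIdeal _).mpr h)
  obtain ⟨u, hu⟩ := hu0
  let l0 : R →ₗ[D] D := (↑u⁻¹ : D) • b.coord i0
  have hl0 : l0 s0 = 1 := by
    change (↑u⁻¹ : D) * b.repr s0 i0 = 1
    rw [← hu, Units.inv_mul]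
  have hl0m : ∀ (l : R →ₗ[D] D), ∀ y ∈ (maximalIdeal D).map (algebraMap D R),
      l y ∈ maximalIdeal D := by
    intro l y hy
    rw [← SetLike.mem_coe] at hy
    have hy' : y ∈ (maximalIdeal D • ⊤ : Submodule D R) := by
      rw [Ideal.smul_top_eq_map]
      exact hy
    have h1 : (maximalIdeal D • ⊤ : Submodule D R) ≤ Submodule.comap l (maximalIdeal D) := by
      rw [Submodule.smul_le]
      intro r hr n _
      rw [Submodule.mem_comap, map_smul, smul_eq_mul]
      exact Ideal.mul_mem_right _ _ hr
    exact h1 hy'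
  set r := finrank D R with hrdef
  have hν : ∀ x, Algebra.trace D R x - r * l0 (s0 * x) ∈ maximalIdeal D := by
    intro x
    obtain ⟨a, ha⟩ := hres x
    have e1 : Algebra.trace D R x = r * a + Algebra.trace D R (x - algebraMap D R a) := by
      rw [map_sub, Algebra.trace_algebraMap, nsmul_eq_mul]
      ring
    have e2 : l0 (s0 * x) = a + l0 (s0 * (x - algebraMap D R a)) := by
      have : s0 * x = a • s0 + s0 * (x - algebraMap D R a) := by
        rw [Algebra.smul_def]
        ring
      rw [this, map_add, map_smul, hl0, smul_eq_mul, mul_one]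
    rw [e1, e2]
    have e3 : (r : D) * a + Algebra.trace D R (x - algebraMap D R a) -
        r * (a + l0 (s0 * (x - algebraMap D R a))) =
        Algebra.trace D R (x - algebraMap D R a) - r * l0 (s0 * (x - algebraMap D R a)) := by
      ring
    rw [e3]
    refine Ideal.sub_mem _ (trace_mem_of_mem ha) (Ideal.mul_mem_left _ _ (hl0m _ _ ?_))
    rw [mul_comm]
    exact hs2 _ ha
  have hct2 : ct = (r : R) • s0 • cl l0 + ∑ i, algebraMap D R
      (Algebra.trace D R (b i) - r * l0 (s0 * b i)) • cl (b.coord i) := by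
    rw [← sub_eq_zero]
    apply hperf
    intro s
    rw [sub_mul, map_sub, ← hctr, add_mul, map_add, Finset.sum_mul, map_sum]
    have e1 : Φ (((r : R) • s0 • cl l0) * s) = r * l0 (s0 * T0 s) := by
      have : ((r : R) • s0 • cl l0) * s = (r : D) • (cl l0 * (s0 • s)) := by
        rw [Algebra.smul_def, Algebra.smul_def, Algebra.smul_def, Algebra.smul_def, map_natCast,
          map_natCast]
        ring
      rw [this, map_smul, ← hcl, map_smul, smul_eq_mul, smul_eq_mul]
    have e2 : ∀ i, Φ ((algebraMap D R (Algebra.trace D R (b i) - r * l0 (s0 * b i)) •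
        cl (b.coord i)) * s) = (Algebra.trace D R (b i) - r * l0 (s0 * b i)) * b.repr (T0 s) i := by
      intro i
      rw [algebraMap_smul, smul_mul_assoc, map_smul, ← hcl, smul_eq_mul]
      rfl
    rw [e1]
    simp_rw [e2]
    have e3 : ∑ i, (Algebra.trace D R (b i) - r * l0 (s0 * b i)) * b.repr (T0 s) i =
        Algebra.trace D R (T0 s) - r * l0 (s0 * T0 s) := by
      conv_rhs => rw [← b.sum_repr (T0 s)]
      rw [Finset.mul_sum, map_sum, map_sum, Finset.mul_sum, ← Finset.sum_sub_distrib]
      refine Finset.sum_congr rfl fun i _ => ?_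
      rw [map_smul, mul_smul_comm, map_smul, smul_eq_mul, smul_eq_mul]
      ring
    rw [e3]
    ring
  have hctW : ct ∈ maximalIdeal R • W := by
    rw [hct2]
    refine Submodule.add_mem _ ?_ (Submodule.sum_mem _ fun i _ => ?_)
    · exact Submodule.smul_mem _ _ (Submodule.smul_mem_smul hs0 (hclW _))
    · exact Submodule.smul_mem_smul (hloc _ (hν _)) (hclW _)
  -- conclude
  obtain ⟨v, hv⟩ := hunitR μ hμ
  have hfin : m = ((↑v⁻¹ : R) * μ') • ct := by
    have h1 : m = (↑v⁻¹ : R) • ((μ : R) • m) := by
      rw [← hv, ← mul_smul, Units.inv_mul, one_smul]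
    rw [h1, mul_smul]
    congr 1
    rw [Algebra.smul_def, Algebra.smul_def, map_natCast, map_natCast, hrel]
  rw [hfin]
  exact Submodule.smul_mem _ _ hctW

end Pool.Agent.Lib.MP_af4f85_ag
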