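import Pool.Agent.Lib.MP_af4f85_ag.Star
import Pool.Agent.Lib.MP_af4f85_ag.Trace5

set_option autoImplicit false
set_option linter.style.haveILetI false

namespace Pool.Agent.Lib.MP_af4f85_ag

open MvPowerSeries IsLocalRing
open scoped TensorProduct

theorem natCast_isUnit {ι : Type*} {k : Type*} [Field k] [CharZero k] (n : ℕ) (hn : n ≠ 0) :
    IsUnit (n : MvPowerSeries ι k) := by
  rw [MvPowerSeries.isUnit_iff_constantCoeff, map_natCast, isUnit_iff_ne_zero]
  exact Nat.cast_ne_zero.mpr hn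

namespace FTData

variable {ι κ : Type*} [Fintype ι] [DecidableEq ι] [Fintype κ] [DecidableEq κ]
  {k : Type*} [Field k] [CharZero k] (D : FTData ι κ k)

/-- the identity to `S` with the `A`-module structure -/
noncomputable def tS : MvPowerSeries ι k ≃+* SubA D.fH D.hH0 := toSub D.fH D.hH0

theorem smul_tS (a : MvPowerSeries (ι ⊕ κ) k) (c : MvPowerSeries ι k) :
    a • D.tS c = D.tS (D.φH a * c) := by
  rw [Algebra.smul_def, map_mul]
  rfl

/-- the fractional module -/
noncomputable def WW : Submodule (MvPowerSeries (ι ⊕ κ) k) (SubA D.fH D.hH0) where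
  carrier := {c | ∃ h ρ, D.φH h ≠ 0 ∧ D.φH h * D.tS.symm c = D.φH ρ * D.mq q0}
  add_mem' := by
    rintro c₁ c₂ ⟨h₁, ρ₁, hh₁, e₁⟩ ⟨h₂, ρ₂, hh₂, e₂⟩
    refine ⟨h₁ * h₂, h₂ * ρ₁ + h₁ * ρ₂, ?_, ?_⟩
    · rw [map_mul]
      exact mul_ne_zero hh₁ hh₂
    · rw [map_mul, map_add, map_add, map_mul, map_mul]
      linear_combination D.φH h₂ * e₁ + D.φH h₁ * e₂
  zero_mem' := ⟨1, 0, by rw [map_one]; exact one_ne_zero, by rw [map_zero, map_zero]; ring⟩
  smul_mem' := by
    rintro a c ⟨h, ρ, hh, e⟩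
    obtain ⟨c, rfl⟩ := D.tS.surjective c
    rw [smul_tS]
    refine ⟨h, a * ρ, hh, ?_⟩
    rw [RingEquiv.symm_apply_apply] at e ⊢
    rw [map_mul]
    linear_combination D.φH a * e

theorem mem_WW (c : MvPowerSeries ι k) :
    D.tS c ∈ D.WW ↔ ∃ h ρ, D.φH h ≠ 0 ∧ D.φH h * c = D.φH ρ * D.mq q0 := by
  change (∃ h ρ, D.φH h ≠ 0 ∧ D.φH h * D.tS.symm (D.tS c) = D.φH ρ * D.mq q0) ↔ _
  rw [RingEquiv.symm_apply_apply]

/-- the coordinate ring of the image -/
def RR : Type _ := MvPowerSeries (ι ⊕ κ) k ⧸ D.P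

noncomputable instance : CommRing D.RR := inferInstanceAs (CommRing (_ ⧸ D.P))

instance : IsDomain D.RR := inferInstanceAs (IsDomain (_ ⧸ D.P))

/-- the projection -/
noncomputable def mkR : MvPowerSeries (ι ⊕ κ) k →+* D.RR := Ideal.Quotient.mk D.P

theorem mkR_surjective : Function.Surjective D.mkR := Ideal.Quotient.mk_surjective

theorem mkR_eq_zero (a : MvPowerSeries (ι ⊕ κ) k) : D.mkR a = 0 ↔ D.φH a = 0 :=
  Ideal.Quotient.eq_zero_iff_mem

instance : IsLocalRing D.RR := IsLocalRing.of_surjective' D.mkR D.mkR_surjective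

instance : IsLocalHom D.mkR := IsLocalHom.of_surjective D.mkR D.mkR_surjective

theorem mkR_mem (a : MvPowerSeries (ι ⊕ κ) k) :
    D.mkR a ∈ maximalIdeal D.RR ↔ constantCoeff a = 0 := by
  rw [← mem_mm_iff, mm_eq_maximalIdeal]
  exact map_mem_nonunits_iff D.mkR a

noncomputable instance : Algebra (MvPowerSeries (ι ⊕ κ) k) D.RR := D.mkR.toAlgebra

/-- the quotient maps to `S` -/
noncomputable def RtoS : D.RR →+* MvPowerSeries ι k := RingHom.kerLift D.φH

theorem RtoS_mk (a : MvPowerSeries (ι ⊕ κ) k) : D.RtoS (D.mkR a) = D.φH a := rfl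

theorem RtoS_injective : Function.Injective D.RtoS := RingHom.kerLift_injective D.φH

theorem mq_mem (q : ι → MvPowerSeries (ι ⊕ κ) k) (hq : ∀ i, constantCoeff (q i) = 0)
    (hgood : Prim (fun i => D.φH (q i)))
    (hns : ¬ ∀ a, ∃ d : MvPowerSeries ι k, D.φH a = D.φH (sh q hq d)) :
    D.tS (D.mq q) ∈ mm (ι ⊕ κ) k • D.WW := by
  have hψ0 : ∀ i, constantCoeff (D.φH (q i)) = 0 := fun i => by rw [D.constantCoeff_φH, hq]
  -- the rings
  letI iAR : Algebra (MvPowerSeries ι k) D.RR := (D.mkR.comp (sh q hq)).toAlgebra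
  let S := SubA (fun i => D.φH (q i)) hψ0
  let tSq : MvPowerSeries ι k ≃+* S := toSub _ _
  letI iRS : Algebra D.RR S := ((tSq : MvPowerSeries ι k →+* S).comp D.RtoS).toAlgebra
  letI iAS : Algebra (MvPowerSeries (ι ⊕ κ) k) S :=
    ((tSq : MvPowerSeries ι k →+* S).comp D.φH).toAlgebra
  haveI : IsScalarTower (MvPowerSeries (ι ⊕ κ) k) D.RR S :=
    IsScalarTower.of_algebraMap_eq fun a => rfl
  haveI : IsScalarTower (MvPowerSeries ι k) D.RR S :=
    IsScalarTower.of_algebraMap_eq fun a => by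
      change tSq (sh (fun i => D.φH (q i)) hψ0 a) = tSq (D.φH (sh q hq a))
      congr 1
      exact (sh_sh q hq D.fH D.hH0 hψ0 a).symm
  obtain ⟨hfin, hfree, Φ, hΦ1, hΦ2, hΦ3, hΦ4⟩ := T1 _ hψ0 hgood
  haveI : Module.Finite (MvPowerSeries ι k) S := hfin
  haveI : Module.Free (MvPowerSeries ι k) S := hfree
  -- B
  obtain ⟨hBfin, hBfree, -⟩ := T1 D.f D.h0 D.hf
  let B := SubA D.f D.h0
  let tB : MvPowerSeries (ι ⊕ κ) k ≃+* B := toSub D.f D.h0
  haveI : Module.Finite (MvPowerSeries (ι ⊕ κ) k) B := hBfin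
  haveI : Module.Free (MvPowerSeries (ι ⊕ κ) k) B := hBfree
  let g : B →ₐ[MvPowerSeries (ι ⊕ κ) k] S :=
    { (tSq : MvPowerSeries ι k →+* S).comp (rst.comp (tB.symm : B →+* MvPowerSeries (ι ⊕ κ) k)) with
      commutes' := fun a => by
        change tSq (rst (tB.symm (tB (D.φ a)))) = tSq (D.φH a)
        rw [RingEquiv.symm_apply_apply, φH_eq] }
  have hg : ∀ b, g (tB b) = tSq (rst b) := fun b => rfl
  let π : D.RR ⊗[MvPowerSeries (ι ⊕ κ) k] B →ₐ[D.RR] S :=
    Algebra.TensorProduct.lift (Algebra.ofId _ _) g (fun _ _ => Commute.all _ _)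
  have hπ1 : ∀ b : B, π (1 ⊗ₜ b) = g b := fun b => by
    rw [Algebra.TensorProduct.lift_tmul, map_one, one_mul]
  have hsurjT : ∀ x : D.RR ⊗[MvPowerSeries (ι ⊕ κ) k] B,
      ∃ b : MvPowerSeries (ι ⊕ κ) k, x = 1 ⊗ₜ tB b := by
    intro x
    induction x using TensorProduct.induction_on with
    | zero => exact ⟨0, by rw [map_zero, TensorProduct.tmul_zero]⟩
    | tmul r b =>
      obtain ⟨a, rfl⟩ := D.mkR_surjective r
      obtain ⟨b, rfl⟩ := tB.surjective b
      refine ⟨D.φ a * b, ?_⟩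
      have h1 : D.mkR a = a • (1 : D.RR) := by
        rw [Algebra.smul_def, mul_one]
        rfl
      have h2 : a • tB b = tB (D.φ a * b) := by
        rw [Algebra.smul_def, map_mul]
        rfl
      rw [h1, TensorProduct.smul_tmul, h2]
    | add x y hx hy =>
      obtain ⟨b, rfl⟩ := hx
      obtain ⟨b', rfl⟩ := hy
      exact ⟨b + b', by rw [map_add, TensorProduct.tmul_add]⟩
  have hπsurj : Function.Surjective π := by
    intro s
    obtain ⟨s, rfl⟩ := tSq.surjective s
    exact ⟨1 ⊗ₜ tB (emb s), by rw [hπ1, hg, rst_emb]⟩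
  have hnil : ∀ x, π x = 0 → IsNilpotent x := by
    intro x hx
    obtain ⟨b, rfl⟩ := hsurjT x
    rw [hπ1, hg] at hx
    have h1 : rst b = 0 := by
      rw [← map_zero tSq] at hx
      exact tSq.injective hx
    rw [rst_eq_zero_iff] at h1
    obtain ⟨n, hn⟩ := D.NN_le h1
    refine ⟨n, ?_⟩
    rw [Algebra.TensorProduct.tmul_pow, one_pow, ← map_pow]
    have h2 : ∀ y ∈ D.PB, (1 : D.RR) ⊗ₜ[MvPowerSeries (ι ⊕ κ) k] tB y = 0 := by
      intro y hy
      unfold PB Ideal.map at hy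
      induction hy using Submodule.span_induction with
      | mem y hy =>
        obtain ⟨p, hp, rfl⟩ := hy
        have h3 : tB (D.φ p) = p • (1 : B) := by
          rw [Algebra.smul_def, mul_one]
          rfl
        have h4 : p • (1 : D.RR) = 0 := by
          rw [Algebra.smul_def, mul_one]
          exact Ideal.Quotient.eq_zero_iff_mem.mpr hp
        change (1 : D.RR) ⊗ₜ[MvPowerSeries (ι ⊕ κ) k] tB (D.φ p) = 0
        rw [h3, ← TensorProduct.smul_tmul, h4, TensorProduct.zero_tmul]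
      | zero => rw [map_zero, TensorProduct.tmul_zero]
      | add x y _ _ hx hy => rw [map_add, TensorProduct.tmul_add, hx, hy, add_zero]
      | smul a x _ hx =>
        have h5 : (1 : D.RR) ⊗ₜ[MvPowerSeries (ι ⊕ κ) k] (tB (a • x)) =
            ((1 : D.RR) ⊗ₜ[MvPowerSeries (ι ⊕ κ) k] tB a) *
              ((1 : D.RR) ⊗ₜ[MvPowerSeries (ι ⊕ κ) k] tB x) := by
          rw [Algebra.TensorProduct.tmul_mul_tmul, one_mul, smul_eq_mul, map_mul]
        rw [h5, hx]
        exact mul_zero _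
    exact h2 _ hn
  have hrsm : ∀ a x, D.mkR a • tSq x = tSq (D.φH a * x) := fun a x => by
    rw [Algebra.smul_def, map_mul]
    rfl
  -- the submodule
  let W : Submodule D.RR S :=
    { carrier := {c | D.tS (tSq.symm c) ∈ D.WW}
      add_mem' := fun {x y} hx hy => by
        change D.tS (tSq.symm (x + y)) ∈ D.WW
        rw [map_add, map_add]
        exact D.WW.add_mem hx hy
      zero_mem' := by
        change D.tS (tSq.symm 0) ∈ D.WW
        rw [map_zero, map_zero]
        exact D.WW.zero_mem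
      smul_mem' := fun r x hx => by
        obtain ⟨a, rfl⟩ := D.mkR_surjective r
        obtain ⟨x, rfl⟩ := tSq.surjective x
        change D.tS (tSq.symm (_ • tSq x)) ∈ D.WW
        rw [hrsm, RingEquiv.symm_apply_apply, ← smul_tS]
        refine D.WW.smul_mem _ ?_
        have : D.tS (tSq.symm (tSq x)) ∈ D.WW := hx
        rwa [RingEquiv.symm_apply_apply] at this }
  have hmain := trace5 (D := MvPowerSeries ι k) (R := D.RR)
    (C := D.RR ⊗[MvPowerSeries (ι ⊕ κ) k] B) (S := S)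
    (fun n hn => natCast_isUnit n hn) (by
      intro x y hxy
      exact D.RtoS_injective (tSq.injective hxy))
    (by
      intro a ha
      change D.mkR (sh q hq a) ∈ _
      rw [mkR_mem, constantCoeff_sh, ← mem_mm_iff, mm_eq_maximalIdeal]
      exact ha)
    (by
      intro x
      obtain ⟨b, rfl⟩ := D.mkR_surjective x
      refine ⟨C (constantCoeff b), ?_⟩
      change D.mkR b - D.mkR (sh q hq (C (constantCoeff b))) ∈ _
      rw [← map_sub, mkR_mem, sh_C]
      simp)
    π hπsurj hnil Φ (tSq (D.mq q)) hΦ1 hΦ2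
    (by
      intro b hb
      have h1 := hΦ3 ⊥ b (fun s => by rw [hb]; exact Ideal.zero_mem _)
      rw [Ideal.map_bot] at h1
      exact h1)
    (by
      intro hsurj
      apply hns
      intro a
      obtain ⟨d, hd⟩ := hsurj (D.mkR a)
      refine ⟨d, ?_⟩
      rw [← D.RtoS_mk, ← hd]
      rfl)
    W (by
      rintro c ⟨h, ρ, hh, hc⟩
      obtain ⟨h, rfl⟩ := D.mkR_surjective h
      obtain ⟨ρ, rfl⟩ := D.mkR_surjective ρ
      obtain ⟨c, rfl⟩ := tSq.surjective c
      change D.tS (tSq.symm (tSq c)) ∈ D.WW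
      rw [RingEquiv.symm_apply_apply, mem_WW]
      rw [hrsm, hrsm] at hc
      have hc' := tSq.injective hc
      have hh' : D.φH h ≠ 0 := by
        intro h0
        exact hh ((D.mkR_eq_zero h).mpr h0)
      obtain ⟨F, hF1, hF2, -, -⟩ := D.ddagger
      have hrel := D.mq_rel q F hF1
      refine ⟨h * jac (Sum.elim q0 F), ρ * jac (Sum.elim q F), ?_, ?_⟩
      · rw [map_mul]
        exact mul_ne_zero hh' hF2
      · rw [map_mul, map_mul]
        linear_combination D.φH (jac (Sum.elim q0 F)) * hc' + D.φH ρ * hrel)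
  -- transfer
  have htrans : ∀ x ∈ maximalIdeal D.RR • W, D.tS (tSq.symm x) ∈ mm (ι ⊕ κ) k • D.WW := by
    intro x hx
    refine Submodule.smul_induction_on hx ?_ ?_
    · intro r hr n hn
      obtain ⟨a, rfl⟩ := D.mkR_surjective r
      obtain ⟨n, rfl⟩ := tSq.surjective n
      rw [hrsm, RingEquiv.symm_apply_apply, ← smul_tS]
      have hn' : D.tS (tSq.symm (tSq n)) ∈ D.WW := hn
      rw [RingEquiv.symm_apply_apply] at hn'
      exact Submodule.smul_mem_smul (mem_mm_iff.mpr ((D.mkR_mem a).mp hr)) hn'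
    · intro x y hx hy
      rw [map_add, map_add]
      exact Submodule.add_mem _ hx hy
  have := htrans _ hmain
  rwa [RingEquiv.symm_apply_apply] at this

end FTData

end Pool.Agent.Lib.MP_af4f85_ag
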