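import Pool.Agent.Lib.MP_af4f85_ag.T1Free
import Pool.Agent.Lib.MP_af4f85_ag.An.Finite

set_option autoImplicit false

namespace Pool.Agent.Lib.MP_af4f85_ag

open MvPowerSeries

/-- Monomials inducing a basis of the residue algebra. -/
theorem exists_monomial_basis {σ : Type*} [Fintype σ] [DecidableEq σ]
    (I : Ideal (MvPowerSeries σ ℂ)) (hI : I ≤ mm σ ℂ) {K : ℕ} (hK : mm σ ℂ ^ K ≤ I) :
    ∃ Λ : Finset (σ →₀ ℕ), 0 ∈ Λ ∧
      (∀ F : MvPowerSeries σ ℂ, ∃ c : (σ →₀ ℕ) → ℂ, F - ∑ α ∈ Λ, monomial α (c α) ∈ I) ∧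
      (∀ c : (σ →₀ ℕ) → ℂ, ∑ α ∈ Λ, monomial α (c α) ∈ I → ∀ α ∈ Λ, c α = 0) := by
  classical
  let N : Submodule ℂ (MvPowerSeries σ ℂ) := I.restrictScalars ℂ
  let v : (σ →₀ ℕ) → MvPowerSeries σ ℂ ⧸ N := fun α => N.mkQ (monomial α 1)
  have hv0 : v 0 ≠ 0 := by
    intro h
    have h1 : (monomial (0 : σ →₀ ℕ) (1 : ℂ)) ∈ N := (Submodule.Quotient.mk_eq_zero N).mp h
    have h2 : (monomial (0 : σ →₀ ℕ) (1 : ℂ)) ∈ mm σ ℂ := hI h1
    rw [mem_mm_iff] at h2
    simp at h2
  have hs : LinearIndepOn ℂ v {0} := (LinearIndepOn.singleton (R := ℂ) hv0)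
  let t : Set (σ →₀ ℕ) := {α | α.degree < K} ∪ {0}
  have ht : t.Finite := (Finsupp.finite_of_degree_lt K).union (Set.finite_singleton _)
  obtain ⟨b, hbt, hsb, htb, hli⟩ := exists_linearIndepOn_extension hs
    (Set.subset_union_right : {0} ⊆ t)
  have hbfin : b.Finite := ht.subset hbt
  have hmono : ∀ (α : σ →₀ ℕ) (c : ℂ), c • v α = N.mkQ (monomial α c) := by
    intro α c
    rw [← map_smul, ← map_smul, smul_eq_mul, mul_one]
  refine ⟨hbfin.toFinset, ?_, ?_, ?_⟩
  · rw [Set.Finite.mem_toFinset]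
    exact hsb rfl
  · intro F
    have h1 : N.mkQ F ∈ Submodule.span ℂ (v '' b) := by
      have h2 : N.mkQ F = ∑ α ∈ (Finsupp.finite_of_degree_lt K).toFinset, coeff α F • v α := by
        have h3 : N.mkQ F = N.mkQ (truncTotal K F : MvPolynomial σ ℂ) := by
          rw [← sub_eq_zero, ← map_sub]
          exact (Submodule.Quotient.mk_eq_zero N).mpr (hK (sub_truncTotal_mem K F))
        simp_rw [hmono]
        rw [h3, ← map_sum]
        congr 1
        ext δ
        rw [map_sum, MvPolynomial.coeff_coe, coeff_truncTotal_eq_ite]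
        simp_rw [coeff_monomial]
        rw [Finset.sum_ite_eq]
        simp
      rw [h2]
      refine Submodule.sum_mem _ fun α hα => Submodule.smul_mem _ _ (htb ⟨α, ?_, rfl⟩)
      left
      simpa using hα
    rw [Finsupp.mem_span_image_iff_linearCombination] at h1
    obtain ⟨l, hl, hl2⟩ := h1
    have hc : ∑ α ∈ hbfin.toFinset, l α • v α = N.mkQ F := by
      rw [← hl2, Finsupp.linearCombination_apply]
      have hsub : l.support ⊆ hbfin.toFinset := by
        intro α hα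
        rw [Set.Finite.mem_toFinset]
        exact hl hα
      exact (Finsupp.sum_of_support_subset l hsub (fun (α : σ →₀ ℕ) (x : ℂ) => x • v α)
        (fun i _ => zero_smul ℂ (v i))).symm
    refine ⟨l, ?_⟩
    have h6 : N.mkQ (F - ∑ α ∈ hbfin.toFinset, monomial α (l α)) = 0 := by
      rw [map_sub, map_sum, ← hc, sub_eq_zero]
      exact Finset.sum_congr rfl fun α _ => hmono α (l α)
    exact (Submodule.Quotient.mk_eq_zero N).mp h6
  · intro c hc
    have h1 : ∑ α ∈ hbfin.toFinset, c α • v α = 0 := by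
      simp_rw [hmono]
      rw [← map_sum]
      exact (Submodule.Quotient.mk_eq_zero N).mpr hc
    have h2 : LinearIndepOn ℂ v (hbfin.toFinset : Set (σ →₀ ℕ)) := by
      rwa [Set.Finite.coe_toFinset]
    exact linearIndepOn_finset_iff.mp h2 c h1

theorem conv_of_subst {σ : Type*} [Fintype σ] [DecidableEq σ] {ψ : σ → MvPowerSeries σ ℂ}
    (hψ : ∀ i, Conv (ψ i)) (h0 : ∀ i, constantCoeff (ψ i) = 0) (hprim : Prim ψ)
    {φ : MvPowerSeries σ ℂ} (h : Conv (subst ψ φ)) : Conv φ := by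
  classical
  have hI : Ideal.span (Set.range ψ) ≤ mm σ ℂ := by
    rw [Ideal.span_le]
    rintro _ ⟨i, rfl⟩
    exact mem_mm_iff.mpr (h0 i)
  obtain ⟨K, hK⟩ := hprim
  obtain ⟨Λ, hΛ0, hΛ1, hΛ2⟩ := exists_monomial_basis _ hI hK
  obtain ⟨a, ha, hG⟩ := An.finite_division hψ h0
    (fun l => ⟨K, hK (Ideal.pow_mem_pow (X_mem_mm l) K)⟩) Λ hΛ1 h
  have hC : ∀ (c : ℂ) (α : σ →₀ ℕ), (C c : MvPowerSeries σ ℂ) * monomial α 1 = monomial α c := by
    intro c α
    rw [← smul_eq_C_mul, ← map_smul, smul_eq_mul, mul_one]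
  let en := Λ.equivFin
  have hsum : ∀ {M : Type _} [AddCommMonoid M] (g : (σ →₀ ℕ) → M),
      ∑ i, g (en.symm i).1 = ∑ α ∈ Λ, g α := by
    intro M _ g
    rw [← Finset.sum_coe_sort Λ g]
    exact Equiv.sum_comp en.symm (fun x : Λ => g x.1)
  obtain ⟨β, hβ⟩ := basis_of_residue ψ h0 ⟨K, hK⟩
    (fun i => (monomial (en.symm i).1 (1 : ℂ) : MvPowerSeries σ ℂ)) (by
      intro F
      obtain ⟨c, hc⟩ := hΛ1 F
      refine ⟨fun i => c (en.symm i).1, ?_⟩
      simp_rw [hC]
      rw [hsum (fun α => (monomial α (c α) : MvPowerSeries σ ℂ))]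
      exact hc) (by
      intro c hc
      let c' : (σ →₀ ℕ) → ℂ := fun α => if hα : α ∈ Λ then c (en ⟨α, hα⟩) else 0
      have hc' : ∀ i, c' (en.symm i).1 = c i := by
        intro i
        simp only [c', dif_pos (en.symm i).2, Subtype.coe_eta, Equiv.apply_symm_apply]
      have h1 : ∑ α ∈ Λ, monomial α (c' α) ∈ Ideal.span (Set.range ψ) := by
        rw [← hsum (fun α => (monomial α (c' α) : MvPowerSeries σ ℂ))]
        simp_rw [hC] at hc
        simp_rw [hc']
        exact hc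
      funext i
      rw [← hc' i]
      exact hΛ2 c' h1 _ (en.symm i).2)
  have hsmul : ∀ x b : MvPowerSeries σ ℂ, toSub ψ h0 (sh ψ h0 x * b) = x • toSub ψ h0 b := by
    intro x b
    rw [Algebra.smul_def, algebraMap_subA, ← map_mul]
  let i0 := en ⟨0, hΛ0⟩
  have h1 : φ • β i0 = ∑ i, a (en.symm i).1 • β i := by
    have e1 : φ • β i0 = toSub ψ h0 (sh ψ h0 φ) := by
      rw [hβ, ← hsmul]
      have : (en.symm i0).1 = 0 := by simp [i0]
      rw [this]
      congr 1
      have h2 : (monomial (0 : σ →₀ ℕ) (1 : ℂ) : MvPowerSeries σ ℂ) = 1 := rfl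
      rw [h2, mul_one]
    rw [e1, sh_apply, hG, map_sum, ← hsum (fun α => toSub ψ h0 (subst ψ (a α) * monomial α 1))]
    refine Finset.sum_congr rfl fun i _ => ?_
    rw [hβ, ← hsmul, sh_apply]
  have h2 := congrArg (fun x => β.repr x i0) h1
  simp only [map_smul, map_sum, Module.Basis.repr_self, Finsupp.smul_apply, Finsupp.single_apply,
    Finsupp.finsetSum_apply, smul_eq_mul, mul_ite, mul_one, mul_zero, if_true,
    Finset.sum_ite_eq', Finset.mem_univ] at h2
  rw [h2]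
  exact ha _

end Pool.Agent.Lib.MP_af4f85_ag
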