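import Pool.Agent.Lib.MP_af4f85_ag.FTGen
import Pool.Agent.Lib.MP_af4f85_ag.ConvSubst
import Pool.Agent.Lib.MP_af4f85_ag.An.NS
import Pool.Agent.Lib.MP_af4f85_ag.An.Open

set_option autoImplicit false

namespace Pool.Agent.Lib.MP_af4f85_ag

open MvPowerSeries Filter Topology Module

section Basic

variable {σ : Type*} [Fintype σ]

theorem Reps.eventuallyEq {F : MvPowerSeries σ ℂ} {f g : (σ → ℂ) → ℂ} (hf : Reps F f)
    (hg : Reps F g) : f =ᶠ[𝓝 0] g := by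
  filter_upwards [hf.2, hg.2] with z h1 h2
  exact h1.unique h2

theorem Reps.congr {F : MvPowerSeries σ ℂ} {f g : (σ → ℂ) → ℂ} (hf : Reps F f)
    (h : f =ᶠ[𝓝 0] g) : Reps F g := by
  refine ⟨hf.1, ?_⟩
  filter_upwards [hf.2, h] with z h1 h2
  rwa [← h2]

theorem reps_zero : Reps (0 : MvPowerSeries σ ℂ) (fun _ => 0) := by
  have := An.reps_C (σ := σ) 0
  rwa [map_zero] at this

theorem Reps.eq_zero {F : MvPowerSeries σ ℂ} {f : (σ → ℂ) → ℂ} (hf : Reps F f)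
    (h : ∀ᶠ z in 𝓝 0, f z = 0) : F = 0 :=
  Reps.unique hf reps_zero h

theorem reps_sum {ι : Type*} (s : Finset ι) {F : ι → MvPowerSeries σ ℂ}
    {f : ι → (σ → ℂ) → ℂ} (h : ∀ i ∈ s, Reps (F i) (f i)) :
    Reps (∑ i ∈ s, F i) (fun z => ∑ i ∈ s, f i z) := by
  classical
  induction s using Finset.induction_on with
  | empty =>
    simp only [Finset.sum_empty]
    exact reps_zero
  | insert a s ha ih =>
    simp only [Finset.sum_insert ha]
    exact Reps.add (h a (Finset.mem_insert_self a s))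
      (ih fun i hi => h i (Finset.mem_insert_of_mem hi))

theorem reps_lcomb {τ : Type*} [Fintype τ] {F : τ → MvPowerSeries σ ℂ} {f : τ → (σ → ℂ) → ℂ}
    (h : ∀ i, Reps (F i) (f i)) (c : τ → ℂ) :
    Reps (lcomb F c) (fun z => ∑ j, c j * f j z) :=
  reps_sum _ fun j _ => Reps.mul (An.reps_C (c j)) (h j)

end Basic

section

variable {ι κ : Type*}

/-- extension by zero -/
noncomputable def ez (x : ι → ℂ) : ι ⊕ κ → ℂ := Sum.elim x 0

theorem ez_zero : ez (κ := κ) (0 : ι → ℂ) = 0 := by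
  funext t
  rcases t with t | t <;> rfl

theorem continuous_ez : Continuous (ez (ι := ι) (κ := κ)) := by
  refine continuous_pi fun t => ?_
  rcases t with t | t
  · exact continuous_apply t
  · exact continuous_const

theorem tendsto_ez : Tendsto (ez (ι := ι) (κ := κ)) (𝓝 0) (𝓝 0) := by
  have := (continuous_ez (ι := ι) (κ := κ)).tendsto 0
  rwa [ez_zero] at this

theorem ez_inl (x : ι → ℂ) (i : ι) : ez (κ := κ) x (Sum.inl i) = x i := rfl

theorem ez_inr (x : ι → ℂ) (l : κ) : ez (κ := κ) x (Sum.inr l) = 0 := rfl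

theorem eq_ez (x : ι ⊕ κ → ℂ) (h : ∀ l, x (Sum.inr l) = 0) :
    x = ez (fun i => x (Sum.inl i)) := by
  funext t
  rcases t with t | t
  · rfl
  · exact h t

theorem reps_rst [Fintype ι] [Fintype κ] {F : MvPowerSeries (ι ⊕ κ) ℂ} {f : (ι ⊕ κ → ℂ) → ℂ} (hf : Reps F f) :
    Reps (rst F) (fun x => f (ez x)) := by
  have h1 := Reps.subst (G := (Sum.elim X (fun _ => 0) : ι ⊕ κ → MvPowerSeries ι ℂ))
    (g := fun t x => ez x t) (fun t => by
      rcases t with t | t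
      · exact An.reps_X t
      · exact reps_zero) (by
      rintro (i | l)
      · exact constantCoeff_X i
      · exact map_zero _) hf
  rw [rst, sh_apply]
  exact h1

theorem reps_sh {σ τ : Type*} [Fintype σ] [Fintype τ] {G : τ → MvPowerSeries σ ℂ}
    {g : τ → (σ → ℂ) → ℂ} {F : MvPowerSeries τ ℂ} {f : (τ → ℂ) → ℂ}
    (hg : ∀ i, Reps (G i) (g i)) (hG : ∀ i, constantCoeff (G i) = 0)
    (hf : Reps F f) : Reps (sh G hG F) (fun z => f fun i => g i z) := by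
  rw [sh_apply]
  exact Reps.subst hg hG hf

theorem pow_mem_of_prim {σ τ : Type*} [Finite τ] {ψ : σ → MvPowerSeries τ ℂ} (h : Prim ψ) (l : τ) :
    ∃ K : ℕ, (X l : MvPowerSeries τ ℂ) ^ K ∈ Ideal.span (Set.range ψ) := by
  obtain ⟨K, hK⟩ := h
  exact ⟨K, hK (Ideal.pow_mem_pow (X_mem_mm l) K)⟩

theorem prim_of_pow_mem {σ τ : Type*} [Finite τ] {ψ : σ → MvPowerSeries τ ℂ}
    (h : ∀ l, ∃ K : ℕ, (X l : MvPowerSeries τ ℂ) ^ K ∈ Ideal.span (Set.range ψ)) : Prim ψ := by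
  rw [prim_iff]
  intro 𝔮 h𝔮 hle
  unfold mm
  rw [Ideal.span_le]
  rintro _ ⟨l, rfl⟩
  obtain ⟨K, hK⟩ := h l
  exact h𝔮.mem_of_pow_mem K (hle hK)

/-- The main theorem in straightened coordinates. -/
theorem main_local [Fintype ι] [Fintype κ] {m : ℕ} (f : (ι ⊕ κ → ℂ) → (ι ⊕ κ → ℂ)) (hf : AnalyticAt ℂ f 0)
    (f0 : f 0 = 0) (hiso : ∀ᶠ x in 𝓝 (0 : ι ⊕ κ → ℂ), f x = 0 → x = 0)
    (g : (ι ⊕ κ → ℂ) → (Fin m → ℂ)) (hg : AnalyticAt ℂ g 0)
    (hpre : ∀ᶠ x in 𝓝 (0 : ι ⊕ κ → ℂ), g (f x) = 0 ↔ ∀ l, x (Sum.inr l) = 0) :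
    ∃ (t : ℕ) (H : (ι ⊕ κ → ℂ) → (Fin t → ℂ)), AnalyticAt ℂ H 0 ∧
      Function.Surjective (fderiv ℂ H 0) ∧ ∀ᶠ y in 𝓝 (0 : ι ⊕ κ → ℂ), g y = 0 ↔ H y = 0 := by
  classical
  -- the power series
  have hfa : ∀ a, AnalyticAt ℂ (fun x => f x a) 0 := fun a => (analyticAt_pi_iff.mp hf) a
  choose F hF using fun a => An.exists_reps (hfa a)
  have hga : ∀ j, AnalyticAt ℂ (fun y => g y j) 0 := fun j => (analyticAt_pi_iff.mp hg) j
  choose G hG using fun j => An.exists_reps (hga j)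
  have hF0 : ∀ a, constantCoeff (F a) = 0 := fun a => by
    rw [Reps.constantCoeff (hF a), f0]
    rfl
  have hF0' : ∀ a, constantCoeff (rst (F a)) = 0 := fun a => by
    rw [constantCoeff_rst, hF0]
  have hprim : Prim F := by
    refine prim_of_pow_mem fun l => An.nullstellensatz (fu := fun a x => f x a) hF
      (An.reps_X l) ?_
    filter_upwards [hiso] with x hx h
    rw [hx (funext h)]
    rfl
  -- pullback of `g`
  have hGF : ∀ j, Reps (sh F hF0 (G j)) (fun x => g (f x) j) := fun j =>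
    reps_sh (g := fun a x => f x a) hF hF0 (hG j)
  have hfez : ∀ᶠ x in 𝓝 (0 : ι → ℂ), g (f (ez x)) = 0 := by
    filter_upwards [tendsto_ez.eventually hpre] with x hx
    exact hx.mpr fun l => rfl
  have hker : ∀ j, G j ∈ RingHom.ker (rst.comp (sh F hF0)) := by
    intro j
    rw [RingHom.mem_ker, RingHom.comp_apply]
    refine Reps.eq_zero (reps_rst (hGF j)) ?_
    filter_upwards [hfez] with x hx
    rw [hx]
    rfl
  have hH : NN ι κ ℂ ≤ ((RingHom.ker (rst.comp (sh F hF0))).map (sh F hF0)).radical := by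
    unfold NN
    rw [Ideal.span_le]
    rintro _ ⟨l, rfl⟩
    obtain ⟨K, hK⟩ := An.nullstellensatz (u := fun j => sh F hF0 (G j))
      (fu := fun j x => g (f x) j) (h := X (Sum.inr l)) (fh := fun x => x (Sum.inr l)) hGF
      (An.reps_X _) (by
        filter_upwards [hpre] with x hx h
        exact hx.mp (funext h) l)
    refine ⟨K, (Ideal.span_le.mpr ?_) hK⟩
    rintro _ ⟨j, rfl⟩
    exact Ideal.mem_map_of_mem _ (hker j)
  obtain ⟨c, φj, hψprim, hfac⟩ := FT_gen F hF0 hprim hH hF0'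
  -- the analytic functions
  set ψ : ι → MvPowerSeries ι ℂ := fun i => lcomb (fun a => rst (F a)) (c i) with hψ
  have hψ0 : ∀ i, constantCoeff (ψ i) = 0 := fun i => constantCoeff_lcomb _ hF0' _
  let q : (ι ⊕ κ → ℂ) →ₗ[ℂ] (ι → ℂ) := LinearMap.pi fun i =>
    ∑ j, c i j • (LinearMap.proj j : (ι ⊕ κ → ℂ) →ₗ[ℂ] ℂ)
  have hq : ∀ y i, q y i = ∑ j, c i j * y j := fun y i => by
    simp [q, LinearMap.pi_apply]
  have hqc : Continuous q := (LinearMap.toContinuousLinearMap q).continuous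
  have hψreps : ∀ i, Reps (ψ i) (fun x => q (f (ez x)) i) := by
    intro i
    simp only [hq]
    exact reps_lcomb (fun j => reps_rst (hF j)) (c i)
  have hconv : ∀ j, Conv (φj j) := by
    intro j
    refine conv_of_subst (ψ := ψ) (fun i => (hψreps i).1) hψ0 hψprim ?_
    rw [← sh_apply ψ hψ0, ← hfac j]
    exact (reps_rst (hF j)).1
  choose φt hφt using fun j => (⟨_, An.Conv.reps (hconv j)⟩ : ∃ φ, Reps (φj j) φ)
  let Φ : (ι → ℂ) → (ι ⊕ κ → ℂ) := fun w j => φt j w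
  have hΦan : AnalyticAt ℂ Φ 0 := by
    rw [analyticAt_pi_iff]
    exact fun j => (hφt j).analyticAt
  let ψt : (ι → ℂ) → (ι → ℂ) := fun x => q (f (ez x))
  have hψt0 : ψt 0 = 0 := by
    simp only [ψt]
    rw [ez_zero, f0, map_zero]
  have hE1 : ∀ᶠ x in 𝓝 (0 : ι → ℂ), f (ez x) = Φ (ψt x) := by
    have h1 : ∀ j, ∀ᶠ x in 𝓝 (0 : ι → ℂ), f (ez x) j = Φ (ψt x) j := by
      intro j
      have h2 : Reps (rst (F j)) (fun x => φt j (ψt x)) := by
        rw [hfac j]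
        exact reps_sh (g := fun i x => q (f (ez x)) i) hψreps _ (hφt j)
      exact Reps.eventuallyEq (reps_rst (hF j)) h2
    filter_upwards [eventually_all.mpr h1] with x hx
    exact funext hx
  have hΦ0 : Φ 0 = 0 := by
    have := hE1.self_of_nhds
    rw [ez_zero, f0, hψt0] at this
    exact this.symm
  -- openness
  have hopenf : ∀ {U : Set (ι ⊕ κ → ℂ)}, U ∈ 𝓝 (0 : ι ⊕ κ → ℂ) → f '' U ∈ 𝓝 (0 : ι ⊕ κ → ℂ) := by
    intro U hU
    have := An.finite_map_open (g := fun a x => f x a) hfa (fun a => by rw [f0]; rfl) (by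
      rw [eventually_nhdsWithin_iff]
      filter_upwards [hiso] with x hx hne h0
      exact hne (hx h0)) hU
    exact this
  have hψtan : ∀ i, AnalyticAt ℂ (fun x => ψt x i) 0 := fun i => (hψreps i).analyticAt
  have hopenψ : ∀ {U : Set (ι → ℂ)}, U ∈ 𝓝 (0 : ι → ℂ) → ψt '' U ∈ 𝓝 (0 : ι → ℂ) := by
    intro U hU
    have := An.finite_map_open (g := fun a x => ψt x a) hψtan (fun a => by rw [hψt0]; rfl) (by
      rw [eventually_nhdsWithin_iff]
      filter_upwards [hE1, tendsto_ez.eventually hiso] with x hx hx2 hne h0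
      have h1 : ψt x = 0 := h0
      rw [h1, hΦ0] at hx
      apply hne
      have h2 := hx2 hx
      rw [Set.mem_singleton_iff]
      funext i
      exact congrFun h2 (Sum.inl i)) hU
    exact this
  -- `q ∘ Φ = id`
  have hE2 : ∀ᶠ w in 𝓝 (0 : ι → ℂ), q (Φ w) = w := by
    filter_upwards [hopenψ hE1] with w hw
    obtain ⟨x, hx, rfl⟩ := hw
    have hx' : f (ez x) = Φ (ψt x) := hx
    rw [← hx']
  -- derivative of `Φ`
  let Φ' : (ι → ℂ) →L[ℂ] (ι ⊕ κ → ℂ) := fderiv ℂ Φ 0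
  have hΦ' : HasFDerivAt Φ Φ' 0 := hΦan.differentiableAt.hasFDerivAt
  let qc : (ι ⊕ κ → ℂ) →L[ℂ] (ι → ℂ) := LinearMap.toContinuousLinearMap q
  have hqc' : ∀ y, qc y = q y := fun y => rfl
  -- linear algebra
  let N := LinearMap.ker q
  obtain ⟨ℓ, hℓ⟩ := LinearMap.exists_extend
    (LinearEquiv.ofFinrankEq N (Fin (finrank ℂ N) → ℂ) (by rw [Module.finrank_fin_fun]) :
      N →ₗ[ℂ] (Fin (finrank ℂ N) → ℂ))
  set ℓ0 := LinearEquiv.ofFinrankEq N (Fin (finrank ℂ N) → ℂ) (by rw [Module.finrank_fin_fun])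
    with hℓ0
  have hℓN : ∀ y (hy : q y = 0), ℓ y = ℓ0 ⟨y, hy⟩ := fun y hy => LinearMap.congr_fun hℓ ⟨y, hy⟩
  let ℓc : (ι ⊕ κ → ℂ) →L[ℂ] (Fin (finrank ℂ N) → ℂ) := LinearMap.toContinuousLinearMap ℓ
  let H : (ι ⊕ κ → ℂ) → (Fin (finrank ℂ N) → ℂ) := fun y => ℓc (y - Φ (qc y))
  have hΦq : AnalyticAt ℂ (fun y => Φ (qc y)) 0 := by
    have h1 : AnalyticAt ℂ Φ (qc 0) := by
      rw [map_zero]
      exact hΦan
    exact h1.comp (qc.analyticAt 0)
  refine ⟨finrank ℂ N, H, ?_, ?_, ?_⟩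
  · exact (ℓc.analyticAt _).comp (analyticAt_id.sub hΦq)
  · have h1 : HasFDerivAt (fun y => Φ (qc y)) (Φ'.comp qc) 0 := by
      have h2 : HasFDerivAt Φ Φ' (qc 0) := by
        rw [map_zero]
        exact hΦ'
      exact h2.comp 0 qc.hasFDerivAt
    have h3 : HasFDerivAt H (ℓc.comp (ContinuousLinearMap.id ℂ _ - Φ'.comp qc)) 0 :=
      ℓc.hasFDerivAt.comp 0 ((hasFDerivAt_id (𝕜 := ℂ) (0 : ι ⊕ κ → ℂ)).sub h1)
    rw [h3.fderiv]
    intro v
    refine ⟨(ℓ0.symm v : N).1, ?_⟩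
    have h4 : q (ℓ0.symm v : N).1 = 0 := (ℓ0.symm v).2
    have h5 : (ℓc.comp (ContinuousLinearMap.id ℂ _ - Φ'.comp qc)) (ℓ0.symm v : N).1 =
        ℓ ((ℓ0.symm v : N).1 - Φ' (q (ℓ0.symm v : N).1)) := rfl
    rw [h5, h4, map_zero, sub_zero, hℓN _ h4]
    exact ℓ0.apply_symm_apply v
  · have hq0 : Tendsto q (𝓝 0) (𝓝 0) := by
      have := hqc.tendsto 0
      rwa [map_zero] at this
    have hHiff : ∀ᶠ y in 𝓝 (0 : ι ⊕ κ → ℂ), H y = 0 ↔ y = Φ (q y) := by
      filter_upwards [hq0.eventually hE2] with y hy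
      have h1 : q (y - Φ (q y)) = 0 := by rw [map_sub, hy, sub_self]
      have h2 : H y = ℓ0 ⟨y - Φ (q y), h1⟩ := hℓN _ h1
      rw [h2, LinearEquiv.map_eq_zero_iff, Subtype.ext_iff]
      exact sub_eq_zero
    have hsub : ∀ᶠ y in 𝓝 (0 : ι ⊕ κ → ℂ), g y = 0 → y = Φ (q y) := by
      have hU : {x : ι ⊕ κ → ℂ | (g (f x) = 0 ↔ ∀ l, x (Sum.inr l) = 0) ∧
          f (ez (fun i => x (Sum.inl i))) = Φ (ψt (fun i => x (Sum.inl i)))} ∈
          𝓝 (0 : ι ⊕ κ → ℂ) := by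
        have ht : Tendsto (fun x : ι ⊕ κ → ℂ => fun i => x (Sum.inl i)) (𝓝 0)
            (𝓝 (0 : ι → ℂ)) := by
          have : Continuous (fun x : ι ⊕ κ → ℂ => fun i => x (Sum.inl i)) :=
            continuous_pi fun i => continuous_apply _
          exact this.tendsto 0
        exact hpre.and (ht.eventually hE1)
      filter_upwards [hopenf hU] with y hy hgy
      obtain ⟨x, ⟨hx1, hx2⟩, rfl⟩ := hy
      have h1 := eq_ez x (hx1.mp hgy)
      have h2 : ψt (fun i => x (Sum.inl i)) = q (f x) := by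
        simp only [ψt]
        rw [← h1]
      rw [← h1, h2] at hx2
      exact hx2
    have hsup : ∀ᶠ y in 𝓝 (0 : ι ⊕ κ → ℂ), y = Φ (q y) → g y = 0 := by
      have hU : {x : ι → ℂ | f (ez x) = Φ (ψt x) ∧ g (f (ez x)) = 0} ∈ 𝓝 (0 : ι → ℂ) :=
        hE1.and hfez
      filter_upwards [hq0.eventually (hopenψ hU)] with y hy hyΦ
      obtain ⟨x, ⟨hx1, hx2⟩, hx3⟩ := hy
      rw [hyΦ, ← hx3, ← hx1]
      exact hx2
    filter_upwards [hHiff, hsub, hsup] with y h1 h2 h3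
    rw [h1]
    exact ⟨h2, h3⟩

end

end Pool.Agent.Lib.MP_af4f85_ag
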