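import Mathlib

set_option autoImplicit false

namespace Pool.Agent.Lib.MP_af4f85_ag

/-- A form of the Cauchy-Binet formula. -/
theorem cauchy_binet {κ σ R : Type*} [Fintype κ] [DecidableEq κ] [Fintype σ] [DecidableEq σ]
    [CommRing R] (G : Matrix κ σ R) (H : Matrix σ κ R) :
    ((Fintype.card κ).factorial : R) * (G * H).det =
      ∑ τ : κ → σ, (Matrix.of fun j j' => G j (τ j')).det * (Matrix.of fun j l => H (τ j) l).det := by
  have h1 : ∀ π : Equiv.Perm κ, (∑ τ : κ → σ, (∏ j, G (π j) (τ j)) *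
      (Matrix.of fun j l => H (τ j) l).det) = ((Equiv.Perm.sign π : ℤ) : R) * (G * H).det := by
    intro π
    rw [← Matrix.det_permute π (G * H)]
    have h2 : ((G * H).submatrix π id) =
        (fun j => ∑ a : σ, G (π j) a • H a : κ → κ → R) := by
      funext j l
      rw [Matrix.submatrix_apply, Matrix.mul_apply, Finset.sum_apply]
      rfl
    have h3 : ((G * H).submatrix π id).det =
        (Matrix.detRowAlternating (n := κ) (R := R)).toMultilinearMap
          (fun j => ∑ a : σ, G (π j) a • H a) := by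
      rw [h2]
      rfl
    rw [h3, MultilinearMap.map_sum]
    refine Finset.sum_congr rfl fun τ _ => ?_
    rw [MultilinearMap.map_smul_univ]
    rfl
  have h4 : ∀ τ : κ → σ, (Matrix.of fun j j' => G j (τ j')).det =
      ∑ π : Equiv.Perm κ, ((Equiv.Perm.sign π : ℤ) : R) * ∏ j, G (π j) (τ j) := by
    intro τ
    rw [Matrix.det_apply']
    rfl
  simp_rw [h4, Finset.sum_mul]
  rw [Finset.sum_comm]
  have h5 : ∀ π : Equiv.Perm κ, ∑ τ : κ → σ, ((Equiv.Perm.sign π : ℤ) : R) *
      (∏ j, G (π j) (τ j)) * (Matrix.of fun j l => H (τ j) l).det = (G * H).det := by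
    intro π
    simp_rw [mul_assoc]
    rw [← Finset.mul_sum, h1, ← mul_assoc, ← Int.cast_mul]
    rcases Int.units_eq_one_or (Equiv.Perm.sign π) with h | h <;> simp [h]
  simp_rw [h5]
  rw [Finset.sum_const, Finset.card_univ, Fintype.card_perm, nsmul_eq_mul]

end Pool.Agent.Lib.MP_af4f85_ag
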