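import Pool.Agent.Lib.MP_af4f85_ag.T1

set_option autoImplicit false

namespace Pool.Agent.Lib.MP_af4f85_ag

open MvPowerSeries

section

variable {σ τ υ : Type*} [Finite σ] [Finite τ] [Finite υ] {k : Type*} [Field k]

theorem sh_mem_pow (f : σ → MvPowerSeries τ k) (h : ∀ i, constantCoeff (f i) = 0) {N : ℕ}
    {a : MvPowerSeries σ k} (ha : a ∈ mm σ k ^ N) : sh f h a ∈ mm τ k ^ N := by
  have h1 : Ideal.map (sh f h) (mm σ k) ≤ mm τ k := by
    rw [map_sh_mm, Ideal.span_le]
    rintro _ ⟨i, rfl⟩
    exact mem_mm_iff.mpr (h i)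
  have h2 := Ideal.mem_map_of_mem (sh f h) ha
  rw [Ideal.map_pow] at h2
  exact Ideal.pow_right_mono h1 N h2

theorem pderiv_mem_pow (i : σ) {N : ℕ} {a : MvPowerSeries σ k} (ha : a ∈ mm σ k ^ (N + 1)) :
    pderiv k i a ∈ mm σ k ^ N := by
  rw [mem_mm_pow_iff] at ha ⊢
  intro γ hγ
  rw [coeff_pderiv, ha, zero_mul]
  rw [map_add, Finsupp.degree_single]
  omega

theorem eq_zero_of_mem_pow {a : MvPowerSeries σ k} (ha : ∀ N, a ∈ mm σ k ^ N) : a = 0 := by
  ext γ
  rw [map_zero]
  exact coeff_of_mem_mm_pow (ha (γ.degree + 1)) γ (Nat.lt_succ_self _)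

theorem sh_sh (f : σ → MvPowerSeries τ k) (h : ∀ i, constantCoeff (f i) = 0)
    (g : τ → MvPowerSeries υ k) (h' : ∀ i, constantCoeff (g i) = 0)
    (h'' : ∀ i, constantCoeff (sh g h' (f i)) = 0) (a : MvPowerSeries σ k) :
    sh g h' (sh f h a) = sh (fun i => sh g h' (f i)) h'' a := by
  simp only [sh_apply]
  exact subst_comp_subst_apply (hasSubst_of_constantCoeff_zero h)
    (hasSubst_of_constantCoeff_zero h') a

theorem constantCoeff_sh (f : σ → MvPowerSeries τ k) (h : ∀ i, constantCoeff (f i) = 0)
    (a : MvPowerSeries σ k) : constantCoeff (sh f h a) = constantCoeff a := by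
  have h1 : a - C (constantCoeff a) ∈ mm σ k := by rw [mem_mm_iff]; simp
  have h2 : sh f h (a - C (constantCoeff a)) ∈ mm τ k := by
    have := sh_mem_pow f h (N := 1) (by rwa [pow_one])
    rwa [pow_one] at this
  rw [mem_mm_iff, map_sub, map_sub, sh_C, constantCoeff_C, sub_eq_zero] at h2
  exact h2

theorem sh_X_self (a : MvPowerSeries σ k) :
    sh (fun i => (X i : MvPowerSeries σ k)) (fun i => constantCoeff_X i) a = a := by
  rw [sh_apply]
  exact congrFun subst_self a

end

section

variable {σ τ : Type*} [Fintype σ] [Finite τ] {k : Type*} [Field k]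

/-- chain rule -/
theorem pderiv_sh (f : σ → MvPowerSeries τ k) (h : ∀ i, constantCoeff (f i) = 0) (l : τ)
    (a : MvPowerSeries σ k) :
    pderiv k l (sh f h a) = ∑ m, sh f h (pderiv k m a) * pderiv k l (f m) := by
  classical
  have hpoly : ∀ p : MvPolynomial σ k, pderiv k l (sh f h (p : MvPowerSeries σ k)) =
      ∑ m, sh f h (pderiv k m (p : MvPowerSeries σ k)) * pderiv k l (f m) := by
    intro p
    induction p using MvPolynomial.induction_on with
    | C c => simp
    | add p q hp hq =>
      rw [MvPolynomial.coe_add, map_add, map_add, hp, hq, ← Finset.sum_add_distrib]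
      refine Finset.sum_congr rfl fun m _ => ?_
      rw [map_add, map_add, add_mul]
    | mul_X p i hp =>
      rw [MvPolynomial.coe_mul, MvPolynomial.coe_X, map_mul, Derivation.leibniz, hp, sh_X]
      simp only [Derivation.leibniz, map_add, smul_eq_mul, map_mul, sh_X, add_mul,
        Finset.sum_add_distrib]
      congr 1
      · rw [Finset.sum_eq_single i]
        · simp
        · intro j _ hj
          rw [pderiv_X_of_ne (Ne.symm hj)]
          simp
        · intro h
          exact absurd (Finset.mem_univ i) h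
      · rw [Finset.mul_sum]
        exact Finset.sum_congr rfl fun m _ => by ring
  rw [← sub_eq_zero]
  apply eq_zero_of_mem_pow
  intro N
  have h1 := sub_truncTotal_mem (N + 1) a
  set p : MvPolynomial σ k := truncTotal (N + 1) a with hp
  set r := a - (p : MvPowerSeries σ k) with hr
  have ha : a = (p : MvPowerSeries σ k) + r := by rw [hr]; ring
  have h2 : pderiv k l (sh f h a) - ∑ m, sh f h (pderiv k m a) * pderiv k l (f m) =
      pderiv k l (sh f h r) - ∑ m, sh f h (pderiv k m r) * pderiv k l (f m) := by
    rw [ha, map_add, map_add, hpoly]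
    simp only [map_add, add_mul, Finset.sum_add_distrib]
    ring
  rw [h2]
  refine Ideal.sub_mem _ (pderiv_mem_pow l (sh_mem_pow f h h1)) (Ideal.sum_mem _ fun m _ => ?_)
  exact Ideal.mul_mem_right _ _ (sh_mem_pow f h (pderiv_mem_pow m h1))

end

section Jac

variable {σ : Type*} [Fintype σ] [DecidableEq σ] {k : Type*} [Field k]

theorem jac_update (f : σ → MvPowerSeries σ k) (i : σ) (b : MvPowerSeries σ k) :
    jac (Function.update f i b) =
      ((Matrix.of fun i j => pderiv k j (f i)).updateRow i (fun j => pderiv k j b)).det := by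
  rw [jac]
  congr 1
  ext a j
  by_cases h : a = i
  · subst h
    simp
  · simp [Matrix.updateRow_ne, Function.update_of_ne, h]

theorem jac_update_add (f : σ → MvPowerSeries σ k) (i : σ) (b c : MvPowerSeries σ k) :
    jac (Function.update f i (b + c)) =
      jac (Function.update f i b) + jac (Function.update f i c) := by
  rw [jac_update, jac_update, jac_update, ← Matrix.det_updateRow_add]
  congr 2
  funext j
  simp

theorem jac_update_C (f : σ → MvPowerSeries σ k) (i : σ) (c : k) :
    jac (Function.update f i (C c)) = 0 := by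
  rw [jac_update]
  exact Matrix.det_eq_zero_of_row_eq_zero i fun j => by simp

theorem jac_update_mul (f : σ → MvPowerSeries σ k) (i : σ) (b c : MvPowerSeries σ k) :
    jac (Function.update f i (b * c)) =
      b * jac (Function.update f i c) + c * jac (Function.update f i b) := by
  rw [jac_update, jac_update, jac_update, ← Matrix.det_updateRow_smul,
    ← Matrix.det_updateRow_smul, ← Matrix.det_updateRow_add]
  congr 2
  funext j
  simp

theorem jac_update_C_mul (f : σ → MvPowerSeries σ k) (i : σ) (c : k) (b : MvPowerSeries σ k) :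
    jac (Function.update f i (C c * b)) = C c * jac (Function.update f i b) := by
  rw [jac_update_mul, jac_update_C, mul_zero, add_zero]

theorem jac_update_sh (f : σ → MvPowerSeries σ k) (h : ∀ i, constantCoeff (f i) = 0) (i : σ)
    (a : MvPowerSeries σ k) :
    jac (Function.update f i (sh f h a)) = sh f h (pderiv k i a) * jac f := by
  rw [jac_update]
  have h1 : (fun j => pderiv k j (sh f h a)) =
      ∑ m, sh f h (pderiv k m a) • (Matrix.of fun i j => pderiv k j (f i)) m := by
    funext j
    rw [pderiv_sh, Finset.sum_apply]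
    rfl
  rw [h1, Matrix.det_updateRow_sum]
  rfl

/-- multiplicativity of Jacobians -/
theorem jac_comp (f : σ → MvPowerSeries σ k) (h : ∀ i, constantCoeff (f i) = 0)
    (g : σ → MvPowerSeries σ k) :
    jac (fun i => sh f h (g i)) = sh f h (jac g) * jac f := by
  rw [jac, jac, jac, RingHom.map_det, ← Matrix.det_mul]
  congr 1
  ext i j
  rw [Matrix.of_apply, pderiv_sh, Matrix.mul_apply]
  rfl

end Jac

end Pool.Agent.Lib.MP_af4f85_ag
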