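import Pool.Agent.Lib.MP_af4f85_ag.ResEmb

set_option autoImplicit false

namespace Pool.Agent.Lib.MP_af4f85_ag

open MvPowerSeries

section

variable {ι κ : Type*} [Fintype ι] [DecidableEq ι] [Fintype κ] [DecidableEq κ]
  {k : Type*} [Field k]

/-- `det (∂v ; ∂t)` -/
noncomputable def EE (t : κ → MvPowerSeries (ι ⊕ κ) k) (v : ι → MvPowerSeries (ι ⊕ κ) k) :
    MvPowerSeries (ι ⊕ κ) k := jac (Sum.elim v t)

theorem EE_update (t : κ → MvPowerSeries (ι ⊕ κ) k) (v : ι → MvPowerSeries (ι ⊕ κ) k) (i : ι)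
    (b : MvPowerSeries (ι ⊕ κ) k) : EE t (Function.update v i b) =
      jac (Function.update (Sum.elim v t) (Sum.inl i) b) := by
  rw [EE]
  congr 1
  funext a
  rcases a with a | a
  · by_cases h : a = i
    · subst h
      simp
    · simp [Function.update_of_ne, h]
  · simp

theorem EE_add (t : κ → MvPowerSeries (ι ⊕ κ) k) (v : ι → MvPowerSeries (ι ⊕ κ) k) (i : ι)
    (a b : MvPowerSeries (ι ⊕ κ) k) : EE t (Function.update v i (a + b)) =
      EE t (Function.update v i a) + EE t (Function.update v i b) := by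
  rw [EE_update, EE_update, EE_update, jac_update_add]

theorem EE_smul (t : κ → MvPowerSeries (ι ⊕ κ) k) (v : ι → MvPowerSeries (ι ⊕ κ) k) (i : ι)
    (ε : k) (b : MvPowerSeries (ι ⊕ κ) k) : EE t (Function.update v i (ε • b)) =
      ε • EE t (Function.update v i b) := by
  rw [EE_update, EE_update, smul_eq_C_mul, jac_update_C_mul, smul_eq_C_mul]

theorem EE_sub_C (t : κ → MvPowerSeries (ι ⊕ κ) k) (v : ι → MvPowerSeries (ι ⊕ κ) k)
    (c : ι → k) : EE t (fun i => v i - C (c i)) = EE t v := by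
  rw [EE, EE, jac, jac]
  congr 1
  ext a j
  rcases a with a | a
  · simp
  · simp

theorem prim_comp {σ τ υ : Type*} [Finite σ] [Finite τ] (g : υ → MvPowerSeries σ k)
    (f : σ → MvPowerSeries τ k) (h : ∀ i, constantCoeff (f i) = 0) (hg : Prim g) (hf : Prim f) :
    Prim (fun i => sh f h (g i)) := by
  obtain ⟨K, hK⟩ := hg
  obtain ⟨K', hK'⟩ := hf
  refine ⟨K' * K, ?_⟩
  rw [pow_mul]
  refine (Ideal.pow_right_mono hK' K).trans ?_
  rw [← map_sh_mm f h, ← Ideal.map_pow]
  refine (Ideal.map_mono hK).trans ?_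
  rw [Ideal.map_span, ← Set.range_comp]
  rfl

theorem map_NN (z : ι → MvPowerSeries (ι ⊕ κ) k) (t : κ → MvPowerSeries (ι ⊕ κ) k)
    (h : ∀ i, constantCoeff (Sum.elim z t i) = 0) :
    (NN ι κ k).map (sh (Sum.elim z t) h) = Ideal.span (Set.range t) := by
  unfold NN
  rw [Ideal.map_span, ← Set.range_comp]
  congr 2
  funext l
  simp

variable [CharZero k]

/-- The common setting for the steps. -/
structure Setting (ι κ : Type*) [Fintype ι] [DecidableEq ι] [Fintype κ] [DecidableEq κ]
    (k : Type*) [Field k] where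
  t : κ → MvPowerSeries (ι ⊕ κ) k
  ht : ∀ l, t l ∈ mm (ι ⊕ κ) k
  ρ : MvPowerSeries (ι ⊕ κ) k
  hρ : ∀ b ∈ NN ι κ k, ρ * b ∈ (Ideal.span (Set.range t)).radical
  z₀ : ι → MvPowerSeries (ι ⊕ κ) k
  hz₀ : ∀ i, z₀ i ∈ mm (ι ⊕ κ) k
  hprim : Prim (Sum.elim z₀ t)

namespace Setting

variable (D : Setting ι κ k)

/-- good tuples -/
def Good (z : ι → MvPowerSeries (ι ⊕ κ) k) : Prop :=
  (∀ i, z i ∈ mm (ι ⊕ κ) k) ∧ Prim (Sum.elim z D.t)

theorem good_const {z : ι → MvPowerSeries (ι ⊕ κ) k} (hz : D.Good z) (a : ι ⊕ κ) :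
    constantCoeff (Sum.elim z D.t a) = 0 := by
  rcases a with a | a
  · exact mem_mm_iff.mp (hz.1 a)
  · exact mem_mm_iff.mp (D.ht a)

theorem good_repl {z : ι → MvPowerSeries (ι ⊕ κ) k} (hz : D.Good z) (i : ι)
    {v : MvPowerSeries (ι ⊕ κ) k} (hv : v ∈ mm (ι ⊕ κ) k) :
    ∃ ε : k, ε ≠ 0 ∧ D.Good (Function.update z i (z i + ε • v)) := by
  have : Infinite k := inferInstance
  obtain ⟨ε, hε, h1⟩ := repl (Sum.elim z D.t) hz.2 (Sum.inl i) v hv
  refine ⟨ε, hε, ?_, ?_⟩
  · intro j
    by_cases hj : j = i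
    · subst hj
      rw [Function.update_self, smul_eq_C_mul]
      exact Ideal.add_mem _ (hz.1 j) (Ideal.mul_mem_left _ _ hv)
    · rw [Function.update_of_ne hj]
      exact hz.1 j
  · convert h1 using 1
    funext a
    rcases a with a | a
    · by_cases h : a = i
      · subst h
        simp [smul_eq_C_mul]
      · simp [Function.update_of_ne, h]
    · simp

theorem stepA {z : ι → MvPowerSeries (ι ⊕ κ) k} (hz : D.Good z) {b : MvPowerSeries (ι ⊕ κ) k}
    (hb : b ∈ NN ι κ k) : EE D.t z * (D.ρ * b) ∈ Ideal.span (Set.range D.t) := by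
  obtain ⟨p⟩ := exists_pkg (Sum.elim z D.t) (D.good_const hz) hz.2
  rw [← map_NN z D.t (D.good_const hz)]
  apply p.perf
  intro g
  have h1 : EE D.t z * (D.ρ * b) * g = jac (Sum.elim z D.t) * (D.ρ * b * g) := by
    rw [EE]; ring
  rw [h1, ← p.Tr_eq]
  apply p.nilp _ NN_isPrime
  rw [map_NN]
  exact Ideal.mul_mem_right _ _ (D.hρ b hb)

theorem stepA_all {b : MvPowerSeries (ι ⊕ κ) k} (hb : b ∈ NN ι κ k)
    (v : ι → MvPowerSeries (ι ⊕ κ) k) :
    EE D.t v * (D.ρ * b) ∈ Ideal.span (Set.range D.t) := by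
  have key : ∀ v : ι → MvPowerSeries (ι ⊕ κ) k, (∀ i, v i ∈ mm (ι ⊕ κ) k) →
      EE D.t v * (D.ρ * b) ∈ Ideal.span (Set.range D.t) := by
    intro v hv
    have := row_induction (k := k) D.Good (fun v => EE D.t v * (D.ρ * b))
      ((Ideal.span (Set.range D.t)).restrictScalars k) (mm (ι ⊕ κ) k) Finset.univ
      (fun z hz i _ v hv => D.good_repl hz i hv)
      (fun z i _ a c => by simp only [EE_add, add_mul])
      (fun z i _ ε a => by simp only [EE_smul, smul_mul_assoc])
      (fun z hz => D.stepA hz hb) Finset.univ (Finset.Subset.refl _) D.z₀ ⟨D.hz₀, D.hprim⟩ v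
      (fun i _ => hv i)
    rw [Finset.piecewise_univ] at this
    exact this
  rw [← EE_sub_C D.t v (fun i => constantCoeff (v i))]
  refine key _ fun i => ?_
  rw [mem_mm_iff]
  simp

theorem stepB {z : ι → MvPowerSeries (ι ⊕ κ) k} (hz : D.Good z) (i : ι)
    {b : MvPowerSeries (ι ⊕ κ) k} (hb : b ∈ NN ι κ k) :
    D.ρ ^ 2 * EE D.t (Function.update z i b) ∈ Ideal.span (Set.range D.t) := by
  obtain ⟨p⟩ := exists_pkg (Sum.elim z D.t) (D.good_const hz) hz.2
  have hmap := map_NN z D.t (D.good_const hz)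
  rw [← hmap]
  apply p.perf
  intro g
  set δ : MvPowerSeries (ι ⊕ κ) k → MvPowerSeries (ι ⊕ κ) k :=
    fun x => jac (Function.update (Sum.elim z D.t) (Sum.inl i) x) with hδ
  have hδE : ∀ x, EE D.t (Function.update z i x) = δ x := fun x => EE_update D.t z i x
  have hδmul : ∀ x y, δ (x * y) = x * δ y + y * δ x := fun x y => jac_update_mul _ _ x y
  rw [hδE]
  -- the auxiliary element
  have h1 : D.ρ ^ 2 * δ b * g = δ (D.ρ ^ 2 * b * g) -
      (δ g * (D.ρ * b) * D.ρ + δ D.ρ * (D.ρ * b) * (2 * g)) := by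
    rw [pow_two, hδmul, hδmul, hδmul]
    ring
  have h2 : ∀ x, δ x * (D.ρ * b) ∈ Ideal.span (Set.range D.t) := by
    intro x
    rw [← hδE]
    exact D.stepA_all hb _
  have h3 : p.Φ (δ g * (D.ρ * b) * D.ρ + δ D.ρ * (D.ρ * b) * (2 * g)) ∈ NN ι κ k := by
    apply p.mem
    rw [hmap]
    exact Ideal.add_mem _ (Ideal.mul_mem_right _ _ (h2 g)) (Ideal.mul_mem_right _ _ (h2 _))
  have h4 : p.Φ (δ (D.ρ ^ 2 * b * g)) ∈ NN ι κ k := by
    rw [hδ]
    simp only
    rw [p.diff]
    apply pderiv_inl_mem_NN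
    apply p.nilp _ NN_isPrime
    rw [hmap]
    have : D.ρ ^ 2 * b * g = D.ρ * b * (D.ρ * g) := by ring
    rw [this]
    exact Ideal.mul_mem_right _ _ (D.hρ b hb)
  rw [h1, map_sub]
  exact Ideal.sub_mem _ h4 h3

theorem stepB_all (i : ι) {b : MvPowerSeries (ι ⊕ κ) k} (hb : b ∈ NN ι κ k)
    (v : ι → MvPowerSeries (ι ⊕ κ) k) :
    D.ρ ^ 2 * EE D.t (Function.update v i b) ∈ Ideal.span (Set.range D.t) := by
  have key : ∀ v : ι → MvPowerSeries (ι ⊕ κ) k, (∀ i, v i ∈ mm (ι ⊕ κ) k) →
      D.ρ ^ 2 * EE D.t (Function.update v i b) ∈ Ideal.span (Set.range D.t) := by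
    intro v hv
    have hcomm : ∀ (z : ι → MvPowerSeries (ι ⊕ κ) k) (j : ι), j ∈ Finset.univ.erase i → ∀ x,
        Function.update (Function.update z j x) i b = Function.update (Function.update z i b) j x :=
      fun z j hj x => Function.update_comm (Finset.ne_of_mem_erase hj) _ _ _
    have := row_induction (k := k) D.Good (fun v => D.ρ ^ 2 * EE D.t (Function.update v i b))
      ((Ideal.span (Set.range D.t)).restrictScalars k) (mm (ι ⊕ κ) k) (Finset.univ.erase i)
      (fun z hz i _ v hv => D.good_repl hz i hv)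
      (fun z j hj a c => by simp only [hcomm z j hj, EE_add, mul_add])
      (fun z j hj ε a => by simp only [hcomm z j hj, EE_smul, mul_smul_comm])
      (fun z hz => D.stepB hz i hb) (Finset.univ.erase i) (Finset.Subset.refl _) D.z₀
      ⟨D.hz₀, D.hprim⟩ v (fun j _ => hv j)
    have e : Function.update ((Finset.univ.erase i).piecewise v D.z₀) i b =
        Function.update v i b := by
      funext j
      by_cases hj : j = i
      · subst hj
        simp
      · rw [Function.update_of_ne hj, Function.update_of_ne hj,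
          Finset.piecewise_eq_of_mem _ _ _ (Finset.mem_erase.mpr ⟨hj, Finset.mem_univ j⟩)]
    simp only [e] at this
    exact this
  have h1 : EE D.t (Function.update v i b) =
      EE D.t (Function.update (fun j => v j - C (constantCoeff (v j))) i b) := by
    rw [← EE_sub_C D.t (Function.update v i b)
      (Function.update (fun j => constantCoeff (v j)) i 0)]
    congr 1
    funext j
    by_cases hj : j = i
    · subst hj
      simp
    · simp [Function.update_of_ne hj]
  rw [h1]
  refine key _ fun j => ?_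
  rw [mem_mm_iff]
  simp

end Setting

/-- Jacobian of embedded tuples -/
theorem EE_emb (t : κ → MvPowerSeries (ι ⊕ κ) k) (u : ι → MvPowerSeries ι k) :
    EE t (fun i => emb (u i)) = emb (jac u) * EE t (fun i => X (Sum.inl i)) := by
  rw [EE, EE, jac, jac, jac, RingHom.map_det]
  have h1 : (Matrix.of fun a j => pderiv k j (Sum.elim (fun i => emb (u i)) t a)) =
      Matrix.fromBlocks (Matrix.of fun i m => emb (pderiv k m (u i))) 0 0
        (1 : Matrix κ κ (MvPowerSeries (ι ⊕ κ) k)) *
      (Matrix.of fun a j => pderiv k j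
        (Sum.elim (fun i => (X (Sum.inl i) : MvPowerSeries (ι ⊕ κ) k)) t a)) := by
    refine Matrix.ext fun a j => ?_
    rw [Matrix.mul_apply, Fintype.sum_sum_type]
    rcases a with i | l
    · simp only [Matrix.of_apply, Sum.elim_inl, Matrix.fromBlocks_apply₁₁, Matrix.zero_apply,
        Matrix.fromBlocks_apply₁₂, zero_mul, Finset.sum_const_zero, add_zero]
      rcases j with m | m
      · rw [pderiv_emb_inl, Finset.sum_eq_single m]
        · simp
        · intro m' _ hm'
          rw [pderiv_X_of_ne (by simpa using hm'), mul_zero]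
        · intro h
          exact absurd (Finset.mem_univ m) h
      · rw [pderiv_emb_inr]
        symm
        refine Finset.sum_eq_zero fun m' _ => ?_
        rw [pderiv_X_of_ne (by simp), mul_zero]
    · simp only [Matrix.of_apply, Sum.elim_inr, Matrix.fromBlocks_apply₂₁, Matrix.zero_apply,
        Matrix.fromBlocks_apply₂₂, zero_mul, Finset.sum_const_zero, zero_add]
      rw [Finset.sum_eq_single l]
      · simp
      · intro m' _ hm'
        rw [Matrix.one_apply_ne hm'.symm, zero_mul]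
      · intro h
        exact absurd (Finset.mem_univ l) h
  rw [h1, Matrix.det_mul, Matrix.det_fromBlocks_zero₂₁, Matrix.det_one, mul_one]
  rfl

/-- From the steps to statements modulo the extended ideal. -/
theorem dagger (D : Setting ι κ k) (𝔓 : Ideal (MvPowerSeries (ι ⊕ κ) k))
    (ht : ∀ l, D.t l ∈ 𝔓) (hsat : ∀ b, D.ρ * b ∈ 𝔓 → b ∈ 𝔓) :
    (∀ b ∈ NN ι κ k, ∀ v, b * EE D.t v ∈ 𝔓) ∧
    (∀ v, EE D.t v - emb (jac fun i => rst (v i)) * EE D.t (fun i => X (Sum.inl i)) ∈ 𝔓) := by
  have hle : Ideal.span (Set.range D.t) ≤ 𝔓 := by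
    rw [Ideal.span_le]
    rintro _ ⟨l, rfl⟩
    exact ht l
  have h1 : ∀ b ∈ NN ι κ k, ∀ v, b * EE D.t v ∈ 𝔓 := by
    intro b hb v
    apply hsat
    have := hle (D.stepA_all hb v)
    convert this using 1
    ring
  have h2 : ∀ (i : ι) (b : MvPowerSeries (ι ⊕ κ) k), b ∈ NN ι κ k → ∀ v,
      EE D.t (Function.update v i b) ∈ 𝔓 := by
    intro i b hb v
    apply hsat
    apply hsat
    have := hle (D.stepB_all i hb v)
    convert this using 1
    ring
  refine ⟨h1, fun v => ?_⟩
  have h3 : ∀ T : Finset ι, EE D.t v - EE D.t (T.piecewise (fun i => emb (rst (v i))) v) ∈ 𝔓 := by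
    intro T
    induction T using Finset.induction_on with
    | empty => rw [Finset.piecewise_empty, sub_self]; exact Submodule.zero_mem _
    | insert i T hi ih =>
      set u := T.piecewise (fun i => emb (rst (v i))) v with hu
      have hui : u i = v i := by rw [hu, Finset.piecewise_eq_of_notMem _ _ _ hi]
      rw [Finset.piecewise_insert, ← hu]
      have h4 : EE D.t u = EE D.t (Function.update u i (v i - emb (rst (v i)))) +
          EE D.t (Function.update u i (emb (rst (v i)))) := by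
        rw [← EE_add, sub_add_cancel, ← hui, Function.update_eq_self]
      have h5 := h2 i _ (sub_emb_rst (v i)) u
      have h6 : EE D.t v - EE D.t (Function.update u i (emb (rst (v i)))) =
          (EE D.t v - EE D.t u) + EE D.t (Function.update u i (v i - emb (rst (v i)))) := by
        rw [h4]; ring
      rw [h6]
      exact Ideal.add_mem _ ih h5
  have h7 := h3 Finset.univ
  rw [Finset.piecewise_univ] at h7
  rw [← EE_emb]
  exact h7

end

end Pool.Agent.Lib.MP_af4f85_ag
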