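import Pool.Agent.Lib.MP_af4f85_ag.RElt
import Pool.Agent.Lib.MP_af4f85_ag.CB

set_option autoImplicit false

namespace Pool.Agent.Lib.MP_af4f85_ag

open MvPowerSeries

/-- The data of the main theorem. -/
structure FTData (ι κ : Type*) [Fintype ι] [DecidableEq ι] [Fintype κ] [DecidableEq κ]
    (k : Type*) [Field k] where
  f : ι ⊕ κ → MvPowerSeries (ι ⊕ κ) k
  h0 : ∀ a, constantCoeff (f a) = 0
  hf : Prim f
  hψ : Prim (fun i => rst (f (Sum.inl i)))
  hH : NN ι κ k ≤ ((RingHom.ker (rst.comp (sh f h0))).map (sh f h0)).radical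

namespace FTData

variable {ι κ : Type*} [Fintype ι] [DecidableEq ι] [Fintype κ] [DecidableEq κ]
  {k : Type*} [Field k] [CharZero k] (D : FTData ι κ k)

/-- pull back by `f` -/
noncomputable def φ : MvPowerSeries (ι ⊕ κ) k →+* MvPowerSeries (ι ⊕ κ) k := sh D.f D.h0

/-- restriction of `f` -/
noncomputable def fH (a : ι ⊕ κ) : MvPowerSeries ι k := rst (D.f a)

theorem hH0 (a : ι ⊕ κ) : constantCoeff (D.fH a) = 0 := by
  rw [fH, constantCoeff_rst, D.h0]

/-- pull back by the restriction of `f` -/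
noncomputable def φH : MvPowerSeries (ι ⊕ κ) k →+* MvPowerSeries ι k := sh D.fH D.hH0

theorem φH_eq (a : MvPowerSeries (ι ⊕ κ) k) : D.φH a = rst (D.φ a) := by
  rw [φH, φ, rst, sh_sh _ _ _ _ (fun b => by rw [constantCoeff_sh]; exact D.h0 b)]
  rfl

theorem φH_eq' : D.φH = rst.comp D.φ := by
  ext a : 1
  exact D.φH_eq a

@[simp] theorem φ_X (a : ι ⊕ κ) : D.φ (X a) = D.f a := by rw [φ, sh_X]

@[simp] theorem φH_X (a : ι ⊕ κ) : D.φH (X a) = D.fH a := by rw [φH, sh_X]

/-- the ideal of the image -/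
noncomputable def P : Ideal (MvPowerSeries (ι ⊕ κ) k) := RingHom.ker D.φH

instance : D.P.IsPrime := RingHom.ker_isPrime _

theorem mem_P {a : MvPowerSeries (ι ⊕ κ) k} : a ∈ D.P ↔ D.φH a = 0 := Iff.rfl

/-- the extended ideal -/
noncomputable def PB : Ideal (MvPowerSeries (ι ⊕ κ) k) := D.P.map D.φ

theorem NN_le : NN ι κ k ≤ D.PB.radical := by
  have := D.hH
  rw [PB, P, φH_eq']
  exact this

theorem constantCoeff_φH (a : MvPowerSeries (ι ⊕ κ) k) :
    constantCoeff (D.φH a) = constantCoeff a := constantCoeff_sh _ _ a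

/-- `m_q` -/
noncomputable def mq (q : ι → MvPowerSeries (ι ⊕ κ) k) : MvPowerSeries ι k :=
  jac fun i => D.φH (q i)

/-- coordinate forms -/
noncomputable def q0 : ι → MvPowerSeries (ι ⊕ κ) k := fun i => X (Sum.inl i)

theorem mq0_ne : D.mq q0 ≠ 0 := by
  obtain ⟨p⟩ := exists_pkg (fun i => rst (D.f (Sum.inl i))) (fun i => D.hH0 _) D.hψ
  have := p.jac_ne
  rw [mq]
  simp only [q0, φH_X]
  exact this

theorem ddagger : ∃ (F : κ → MvPowerSeries (ι ⊕ κ) k) ,
    (∀ l, D.φH (F l) = 0) ∧ D.φH (jac (Sum.elim q0 F)) ≠ 0 ∧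
    (∀ b ∈ NN ι κ k, b * EE (fun l => D.φ (F l)) q0 ∈ D.PB) ∧
    (∀ q : ι → MvPowerSeries (ι ⊕ κ) k,
      D.φ (jac (Sum.elim q F)) * jac D.f - emb (D.mq q) * EE (fun l => D.φ (F l)) q0 ∈ D.PB) := by
  have hsum : (Sum.elim (fun i => rst (D.f (Sum.inl i))) (fun l => rst (D.f (Sum.inr l)))) =
      D.fH := by
    funext a
    rcases a with a | a <;> rfl
  have h' : ∀ a, constantCoeff (Sum.elim (fun i => rst (D.f (Sum.inl i)))
      (fun l => rst (D.f (Sum.inr l))) a) = 0 := by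
    rw [hsum]
    exact D.hH0
  have hsh : sh (Sum.elim (fun i => rst (D.f (Sum.inl i))) (fun l => rst (D.f (Sum.inr l)))) h' =
      D.φH := by
    rw [φH]
    congr 1
  obtain ⟨F, hF1, hF2, hF3, hF4⟩ := exists_F (fun i => rst (D.f (Sum.inl i)))
    (fun i => D.hH0 _) D.hψ (fun l => rst (D.f (Sum.inr l))) h'
  obtain ⟨r, hr1, hr2⟩ := exists_r (fun i => rst (D.f (Sum.inl i)))
    (fun i => D.hH0 _) D.hψ (fun l => rst (D.f (Sum.inr l))) h' F hF1 hF2 hF3
  rw [hsh] at hF2 hF4 hr1 hr2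
  obtain ⟨pf⟩ := exists_pkg D.f D.h0 D.hf
  have hgood0 : ∀ a, constantCoeff (Sum.elim (fun i => (X (Sum.inl i) :
      MvPowerSeries (ι ⊕ κ) k)) F a) = 0 := by
    rintro (a | a)
    · exact constantCoeff_X _
    · exact mem_mm_iff.mp (hF1 a)
  let S : Setting ι κ k :=
    { t := fun l => D.φ (F l)
      ht := fun l => by
        rw [mem_mm_iff]
        exact (constantCoeff_sh _ _ _).trans (mem_mm_iff.mp (hF1 l))
      ρ := D.φ r
      hρ := by
        intro b hb
        rw [Ideal.radical_eq_sInf, Ideal.mem_sInf]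
        rintro 𝔮 ⟨hle, h𝔮⟩
        have h1 : (Ideal.comap D.φ 𝔮).IsPrime := Ideal.comap_isPrime _ 𝔮
        have h2 : Ideal.span (Set.range F) ≤ Ideal.comap D.φ 𝔮 := by
          rw [Ideal.span_le]
          rintro _ ⟨l, rfl⟩
          exact hle (Ideal.subset_span ⟨l, rfl⟩)
        rcases hr2 _ h1 h2 with h3 | h3
        · exact Ideal.mul_mem_right _ _ h3
        · refine Ideal.mul_mem_left _ _ ?_
          have h4 : D.PB ≤ 𝔮 := Ideal.map_le_iff_le_comap.mpr h3
          exact (h𝔮.radical_le_iff.mpr h4) (D.NN_le hb)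
      z₀ := fun i => D.f (Sum.inl i)
      hz₀ := fun i => mem_mm_iff.mpr (D.h0 _)
      hprim := by
        have := prim_comp _ D.f D.h0 hF3 D.hf
        convert this using 1
        funext a
        rcases a with a | a
        · simp
        · simp [φ] }
  have hdag := dagger S D.PB (fun l => Ideal.mem_map_of_mem _ (hF2 l))
    (fun b hb => pf.sat D.P inferInstance r (fun h => hr1 h) b hb)
  refine ⟨F, hF2, hF4, ?_, ?_⟩
  · intro b hb
    exact hdag.1 b hb q0
  · intro q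
    have h1 := hdag.2 (fun i => D.φ (q i))
    have h2 : EE S.t (fun i => D.φ (q i)) = D.φ (jac (Sum.elim q F)) * jac D.f := by
      rw [EE, φ, ← jac_comp]
      congr 1
      funext a
      rcases a with a | a <;> rfl
    rw [h2] at h1
    have h3 : (jac fun i => rst (D.φ (q i))) = D.mq q := by
      rw [mq]
      simp only [φH_eq]
    rw [h3] at h1
    exact h1

end FTData

end Pool.Agent.Lib.MP_af4f85_ag
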