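import Pool.Agent.Lib.MP_af4f85_ag.Core1

set_option autoImplicit false

namespace Pool.Agent.Lib.MP_af4f85_ag

open MvPowerSeries

section W

variable {ι : Type*} [Fintype ι] [DecidableEq ι] {k : Type*} [Field k] [CharZero k]

theorem exists_W (ψ : ι → MvPowerSeries ι k) (h : ∀ i, constantCoeff (ψ i) = 0) (hψ : Prim ψ)
    (g : MvPowerSeries ι k) (hg : g ∈ mm ι k) :
    ∃ W : Polynomial (MvPowerSeries ι k), W.Monic ∧ W.eval₂ (sh ψ h) g = 0 ∧
      ∀ i < W.natDegree, W.coeff i ∈ mm ι k := by
  classical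
  obtain ⟨hfin, hfree, -⟩ := T1 ψ h hψ
  obtain ⟨K, hK⟩ := hψ
  let β := Module.Free.chooseBasis (MvPowerSeries ι k) (SubA ψ h)
  let M := Algebra.leftMulMatrix β (toSub ψ h g)
  refine ⟨M.charpoly, Matrix.charpoly_monic M, ?_, ?_⟩
  · have h1 : Polynomial.aeval M M.charpoly = 0 := Matrix.aeval_self_charpoly M
    have h2 : Algebra.leftMulMatrix β (Polynomial.aeval (toSub ψ h g) M.charpoly) = 0 := by
      rw [← Polynomial.aeval_algHom_apply]
      exact h1
    have h3 : Polynomial.aeval (toSub ψ h g) M.charpoly = 0 := by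
      apply Algebra.leftMulMatrix_injective β
      rw [h2, map_zero]
    rw [Polynomial.aeval_def] at h3
    exact h3
  · intro i hi
    have hmax : (mm ι k).IsMaximal := inferInstance
    rw [← Ideal.Quotient.eq_zero_iff_mem]
    have hnil : IsNilpotent ((Ideal.Quotient.mk (mm ι k)).mapMatrix M) := by
      refine ⟨K, ?_⟩
      rw [← map_pow, ← map_pow]
      refine Matrix.ext fun a b => ?_
      rw [RingHom.mapMatrix_apply, Matrix.map_apply, Matrix.zero_apply,
        Ideal.Quotient.eq_zero_iff_mem, Algebra.leftMulMatrix_eq_repr_mul]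
      have h4 : (toSub ψ h g) ^ K * β b ∈
          (mm ι k).map (algebraMap (MvPowerSeries ι k) (SubA ψ h)) := by
        refine Ideal.mul_mem_right _ _ ?_
        rw [← map_pow]
        have h5 : g ^ K ∈ (Ideal.map (sh ψ h) (mm ι k) : Ideal (MvPowerSeries ι k)) := by
          rw [map_sh_mm]
          exact hK (Ideal.pow_mem_pow hg K)
        exact h5
      exact lin_mem (β.coord a) h4
    have h6 := Matrix.isNilpotent_charpoly_sub_pow_of_isNilpotent hnil
    have h7 := sub_eq_zero.mp h6.eq_zero
    have h8 : ((Ideal.Quotient.mk (mm ι k)).mapMatrix M).charpoly =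
        M.charpoly.map (Ideal.Quotient.mk (mm ι k)) := Matrix.charpoly_map M _
    rw [h8] at h7
    have h9 := congrArg (fun p => Polynomial.coeff p i) h7
    simp only [Polynomial.coeff_map, Polynomial.coeff_X_pow] at h9
    rw [h9, if_neg]
    rw [Matrix.charpoly_natDegree_eq_dim] at hi
    omega

end W

section F

variable {ι κ : Type*} [Fintype ι] [DecidableEq ι] [Fintype κ] [DecidableEq κ]
  {k : Type*} [Field k] [CharZero k]

theorem pderiv_eval₂_emb (V : Polynomial (MvPowerSeries ι k)) (l l' : κ) :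
    pderiv k (Sum.inr l' : ι ⊕ κ) (V.eval₂ emb (X (Sum.inr l))) =
      if l = l' then (Polynomial.derivative V).eval₂ emb (X (Sum.inr l)) else 0 := by
  induction V using Polynomial.induction_on' with
  | add p q hp hq =>
    rw [Polynomial.eval₂_add, map_add, hp, hq, Polynomial.derivative_add, Polynomial.eval₂_add]
    split_ifs <;> simp
  | monomial n a =>
    rw [Polynomial.eval₂_monomial, Derivation.leibniz, pderiv_emb_inr, smul_zero, add_zero,
      pderiv_pow, Polynomial.derivative_monomial, Polynomial.eval₂_monomial, smul_eq_mul]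
    by_cases h : l = l'
    · subst h
      rw [if_pos rfl, pderiv_X_self, map_mul, map_natCast]
      ring
    · rw [if_neg h, pderiv_X_of_ne (by simpa using h)]
      ring

theorem sh_emb (ψ : ι → MvPowerSeries ι k) (g : κ → MvPowerSeries ι k)
    (h : ∀ i, constantCoeff (ψ i) = 0) (h' : ∀ a, constantCoeff (Sum.elim ψ g a) = 0)
    (a : MvPowerSeries ι k) : sh (Sum.elim ψ g) h' (emb a) = sh ψ h a := by
  rw [emb, sh_sh _ _ _ _ (fun i => by rw [sh_X]; exact h i)]
  congr 1
  congr 1
  funext i
  simp

theorem exists_F (ψ : ι → MvPowerSeries ι k) (h : ∀ i, constantCoeff (ψ i) = 0) (hψ : Prim ψ)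
    (g : κ → MvPowerSeries ι k) (h' : ∀ a, constantCoeff (Sum.elim ψ g a) = 0) :
    ∃ F : κ → MvPowerSeries (ι ⊕ κ) k, (∀ l, F l ∈ mm (ι ⊕ κ) k) ∧
      (∀ l, sh (Sum.elim ψ g) h' (F l) = 0) ∧
      Prim (Sum.elim (fun i => X (Sum.inl i)) F) ∧
      sh (Sum.elim ψ g) h' (jac (Sum.elim (fun i => X (Sum.inl i)) F)) ≠ 0 := by
  classical
  have hg : ∀ l, g l ∈ mm ι k := fun l => mem_mm_iff.mpr (h' (Sum.inr l))
  choose W hW1 hW2 hW3 using fun l => exists_W ψ h hψ (g l) (hg l)
  have hex : ∀ l, ∃ j, ((Polynomial.derivative^[j]) (W l)).eval₂ (sh ψ h) (g l) ≠ 0 := by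
    intro l
    refine ⟨(W l).natDegree, ?_⟩
    have h1 : (Polynomial.derivative^[(W l).natDegree]) (W l) =
        Polynomial.C (((W l).natDegree.factorial : ℕ) : MvPowerSeries ι k) := by
      ext i : 1
      rw [Polynomial.coeff_iterate_derivative, Polynomial.coeff_C]
      split_ifs with hi
      · subst hi
        rw [zero_add, Nat.descFactorial_self, (hW1 l).coeff_natDegree, nsmul_eq_mul, mul_one]
      · rw [Polynomial.coeff_eq_zero_of_natDegree_lt (by omega), smul_zero]
    rw [h1, Polynomial.eval₂_C, map_natCast]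
    exact_mod_cast Nat.factorial_ne_zero _
  let m : κ → ℕ := fun l => Nat.find (hex l)
  have hm : ∀ l, ((Polynomial.derivative^[m l]) (W l)).eval₂ (sh ψ h) (g l) ≠ 0 :=
    fun l => Nat.find_spec (hex l)
  have hm' : ∀ l j, j < m l → ((Polynomial.derivative^[j]) (W l)).eval₂ (sh ψ h) (g l) = 0 := by
    intro l j hj
    have := Nat.find_min (hex l) hj
    rwa [not_not] at this
  have hm0 : ∀ l, 0 < m l := by
    intro l
    rw [Nat.pos_iff_ne_zero]
    intro h0
    have := hm l
    rw [h0, Function.iterate_zero, id_eq] at this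
    exact this (hW2 l)
  have hmle : ∀ l, m l ≤ (W l).natDegree := by
    intro l
    by_contra hlt
    push Not at hlt
    have h1 := hm l
    rw [Polynomial.iterate_derivative_eq_zero hlt] at h1
    simp at h1
  let V : κ → Polynomial (MvPowerSeries ι k) := fun l => (Polynomial.derivative^[m l - 1]) (W l)
  have hV' : ∀ l, Polynomial.derivative (V l) = (Polynomial.derivative^[m l]) (W l) := by
    intro l
    simp only [V]
    rw [← Function.iterate_succ_apply' (f := Polynomial.derivative), Nat.succ_eq_add_one,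
      Nat.sub_add_cancel (hm0 l)]
  have hVcoeff : ∀ l i, (V l).coeff i =
      (i + (m l - 1)).descFactorial (m l - 1) • (W l).coeff (i + (m l - 1)) :=
    fun l i => Polynomial.coeff_iterate_derivative _ _
  let F : κ → MvPowerSeries (ι ⊕ κ) k := fun l => (V l).eval₂ emb (X (Sum.inr l))
  have hFX : ∀ l, ∃ (N : ℕ) (u : k), 0 < N ∧ u ≠ 0 ∧
      F l - C u * X (Sum.inr l) ^ N ∈
        Ideal.span (Set.range fun i : ι => (X (Sum.inl i) : MvPowerSeries (ι ⊕ κ) k)) := by
    intro l
    refine ⟨(W l).natDegree - (m l - 1), ((W l).natDegree.descFactorial (m l - 1) : ℕ), ?_, ?_, ?_⟩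
    · have := hm0 l
      have := hmle l
      omega
    · rw [Nat.cast_ne_zero]
      intro h0
      rw [Nat.descFactorial_eq_zero_iff_lt] at h0
      have := hmle l
      omega
    · set N := (W l).natDegree - (m l - 1) with hN
      have hNm : N + (m l - 1) = (W l).natDegree := by
        have := hmle l
        omega
      have h1 : (V l).natDegree < N + 1 := by
        rw [Nat.lt_succ_iff, Polynomial.natDegree_le_iff_coeff_eq_zero]
        intro i hi
        rw [hVcoeff, Polynomial.coeff_eq_zero_of_natDegree_lt (by omega), smul_zero]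
      have h2 : F l = ∑ i ∈ Finset.range (N + 1), emb ((V l).coeff i) * X (Sum.inr l) ^ i := by
        simp only [F]
        rw [Polynomial.eval₂_eq_sum_range' _ h1]
      have h3 : emb ((V l).coeff N) =
          (C (((W l).natDegree.descFactorial (m l - 1) : ℕ) : k) : MvPowerSeries (ι ⊕ κ) k) := by
        rw [hVcoeff, hNm, (hW1 l).coeff_natDegree, nsmul_eq_mul, mul_one, map_natCast, map_natCast]
      rw [h2, Finset.sum_range_succ, h3, add_sub_cancel_right]
      refine Ideal.sum_mem _ fun i hi => Ideal.mul_mem_right _ _ ?_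
      rw [Finset.mem_range] at hi
      have h4 : (V l).coeff i ∈ mm ι k := by
        rw [hVcoeff]
        exact nsmul_mem (hW3 l _ (by omega)) _
      have h5 := Ideal.mem_map_of_mem (emb (κ := κ)) h4
      have h6 : Ideal.map (emb (κ := κ)) (mm ι k) =
          Ideal.span (Set.range fun i : ι => (X (Sum.inl i) : MvPowerSeries (ι ⊕ κ) k)) := by
        rw [emb, map_sh_mm]
      rwa [h6] at h5
  refine ⟨F, ?_, ?_, ?_, ?_⟩
  · intro l
    obtain ⟨N, u, hN, hu, hmem⟩ := hFX l
    have h1 : Ideal.span (Set.range fun i : ι => (X (Sum.inl i) : MvPowerSeries (ι ⊕ κ) k)) ≤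
        mm (ι ⊕ κ) k := by
      rw [Ideal.span_le]
      rintro _ ⟨i, rfl⟩
      exact X_mem_mm _
    have h2 := h1 hmem
    have h3 : F l = (F l - C u * X (Sum.inr l) ^ N) + C u * X (Sum.inr l) ^ N := by ring
    rw [h3]
    refine Ideal.add_mem _ h2 (Ideal.mul_mem_left _ _ ?_)
    exact Ideal.pow_mem_of_mem _ (X_mem_mm _) N hN
  · intro l
    simp only [F]
    rw [Polynomial.hom_eval₂, sh_X, Sum.elim_inr]
    have h1 : (sh (Sum.elim ψ g) h').comp emb = sh ψ h := by
      ext a : 1
      exact sh_emb ψ g h h' a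
    rw [h1]
    exact hm' l _ (by have := hm0 l; omega)
  · rw [prim_iff]
    intro 𝔮 h𝔮 hle
    have hinl : ∀ i : ι, (X (Sum.inl i) : MvPowerSeries (ι ⊕ κ) k) ∈ 𝔮 :=
      fun i => hle (Ideal.subset_span ⟨Sum.inl i, rfl⟩)
    have hspan : Ideal.span (Set.range fun i : ι => (X (Sum.inl i) : MvPowerSeries (ι ⊕ κ) k)) ≤
        𝔮 := by
      rw [Ideal.span_le]
      rintro _ ⟨i, rfl⟩
      exact hinl i
    unfold mm
    rw [Ideal.span_le]
    rintro _ ⟨i | l, rfl⟩
    · exact hinl i
    · obtain ⟨N, u, hN, hu, hmem⟩ := hFX l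
      have h1 : F l ∈ 𝔮 := hle (Ideal.subset_span ⟨Sum.inr l, rfl⟩)
      have h2 := Ideal.sub_mem _ h1 (hspan hmem)
      rw [sub_sub_cancel] at h2
      have h3 := Ideal.mul_mem_left _ (C u⁻¹) h2
      rw [← mul_assoc, ← map_mul, inv_mul_cancel₀ hu, map_one, one_mul] at h3
      exact h𝔮.mem_of_pow_mem N h3
  · have hjac : jac (Sum.elim (fun i => (X (Sum.inl i) : MvPowerSeries (ι ⊕ κ) k)) F) =
        ∏ l, (Polynomial.derivative (V l)).eval₂ emb (X (Sum.inr l)) := by
      rw [jac]
      have h1 : (Matrix.of fun a j => pderiv k j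
          (Sum.elim (fun i => (X (Sum.inl i) : MvPowerSeries (ι ⊕ κ) k)) F a)) =
          Matrix.fromBlocks (1 : Matrix ι ι (MvPowerSeries (ι ⊕ κ) k)) 0
            (Matrix.of fun l i => pderiv k (Sum.inl i) (F l))
            (Matrix.diagonal fun l => (Polynomial.derivative (V l)).eval₂ emb
              (X (Sum.inr l))) := by
        refine Matrix.ext fun a j => ?_
        rcases a with i | l
        · rcases j with j | j
          · simp only [Matrix.of_apply, Sum.elim_inl, Matrix.fromBlocks_apply₁₁]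
            by_cases hij : i = j
            · subst hij
              simp
            · rw [Matrix.one_apply_ne hij, pderiv_X_of_ne (by simpa using hij)]
          · simp only [Matrix.of_apply, Sum.elim_inl, Matrix.fromBlocks_apply₁₂, Matrix.zero_apply]
            exact pderiv_X_of_ne (by simp)
        · rcases j with j | j
          · simp
          · simp only [Matrix.of_apply, Sum.elim_inr, Matrix.fromBlocks_apply₂₂]
            simp only [F]
            rw [pderiv_eval₂_emb, Matrix.diagonal_apply]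
      rw [h1, Matrix.det_fromBlocks_zero₁₂, Matrix.det_one, one_mul, Matrix.det_diagonal]
    rw [hjac, map_prod, Finset.prod_ne_zero_iff]
    intro l _
    rw [Polynomial.hom_eval₂, sh_X, Sum.elim_inr]
    have h1 : (sh (Sum.elim ψ g) h').comp emb = sh ψ h := by
      ext a : 1
      exact sh_emb ψ g h h' a
    rw [h1, hV']
    exact hm l

end F

end Pool.Agent.Lib.MP_af4f85_ag
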