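import Pool.Agent.Lib.MP_af4f85_ag.FTMain

set_option autoImplicit false
set_option linter.style.haveILetI false

namespace Pool.Agent.Lib.MP_af4f85_ag

open MvPowerSeries IsLocalRing Module

theorem sumExtend_inl {K V ι : Type*} [DivisionRing K] [AddCommGroup V] [Module K V] {v : ι → V}
    (hs : LinearIndependent K v) (i : ι) : Basis.sumExtend hs (Sum.inl i) = v i := by
  unfold Basis.sumExtend
  simp only [Basis.coe_reindex, Function.comp_apply]
  rw [Basis.extend_apply_self]
  rfl

theorem exists_basis_extending {ι κ k : Type*} [Fintype ι] [Fintype κ] [Field k]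
    (c : ι → (ι ⊕ κ) → k) (hc : LinearIndependent k c) :
    ∃ b : Basis (ι ⊕ κ) k ((ι ⊕ κ) → k), ∀ i, b (Sum.inl i) = c i := by
  classical
  let b0 := Basis.sumExtend hc
  haveI : Finite (ι ⊕ Basis.sumExtendIndex hc) := Module.Finite.finite_basis b0
  haveI : Finite (Basis.sumExtendIndex hc) := Finite.of_injective (Sum.inr : _ → ι ⊕ _)
    Sum.inr_injective
  haveI := Fintype.ofFinite (Basis.sumExtendIndex hc)
  have h1 : Fintype.card (ι ⊕ Basis.sumExtendIndex hc) = Fintype.card (ι ⊕ κ) := by
    rw [← Module.finrank_eq_card_basis b0, Module.finrank_fintype_fun_eq_card]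
  rw [Fintype.card_sum, Fintype.card_sum] at h1
  have h2 : Fintype.card (Basis.sumExtendIndex hc) = Fintype.card κ := by omega
  let e := Fintype.equivOfCardEq h2
  refine ⟨b0.reindex (Equiv.sumCongr (Equiv.refl ι) e), fun i => ?_⟩
  rw [Basis.reindex_apply]
  exact sumExtend_inl hc i

section lcomb

variable {σ τ : Type*} [Fintype σ] {k : Type*} [Field k]

theorem lcomb_sum {υ : Type*} (s : Finset υ) (g : σ → MvPowerSeries τ k) (c : υ → σ → k) :
    lcomb g (∑ a ∈ s, c a) = ∑ a ∈ s, lcomb g (c a) := by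
  classical
  induction s using Finset.induction_on with
  | empty =>
    rw [Finset.sum_empty, Finset.sum_empty, lcomb]
    exact Finset.sum_eq_zero fun j _ => by simp
  | insert a s ha ih => rw [Finset.sum_insert ha, Finset.sum_insert ha, lcomb_add, ih]

theorem lcomb_lcomb {υ : Type*} [Fintype υ] (g : σ → MvPowerSeries τ k) (b : υ → σ → k)
    (r : υ → k) : lcomb (fun a => lcomb g (b a)) r = lcomb g (∑ a, r a • b a) := by
  rw [lcomb_sum, lcomb]
  exact Finset.sum_congr rfl fun a _ => by rw [lcomb_smul]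

theorem lcomb_basis [DecidableEq σ] {υ : Type*} [Fintype υ] (g : σ → MvPowerSeries τ k)
    (b : Basis υ k (σ → k)) (j : σ) :
    lcomb (fun a => lcomb g (b a)) (b.repr (Pi.single j 1)) = g j := by
  rw [lcomb_lcomb, b.sum_repr, lcomb_single]

theorem lcomb_mem (g : σ → MvPowerSeries τ k) (c : σ → k) (I : Ideal (MvPowerSeries τ k))
    (hI : ∀ j, g j ∈ I) : lcomb g c ∈ I :=
  Ideal.sum_mem _ fun j _ => Ideal.mul_mem_left _ _ (hI j)

end lcomb

/-- The factorization theorem in general position. -/
theorem FT_gen {ι κ : Type*} [Fintype ι] [DecidableEq ι] [Fintype κ] [DecidableEq κ]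
    {k : Type*} [Field k] [CharZero k] (f : ι ⊕ κ → MvPowerSeries (ι ⊕ κ) k)
    (h0 : ∀ a, constantCoeff (f a) = 0) (hf : Prim f)
    (hH : NN ι κ k ≤ ((RingHom.ker (rst.comp (sh f h0))).map (sh f h0)).radical)
    (h0' : ∀ a, constantCoeff (rst (f a)) = 0) :
    ∃ (c : ι → (ι ⊕ κ) → k) (φj : (ι ⊕ κ) → MvPowerSeries ι k),
      Prim (fun i => lcomb (fun a => rst (f a)) (c i)) ∧
      ∀ j, rst (f j) = sh (fun i => lcomb (fun a => rst (f a)) (c i))
        (fun i => constantCoeff_lcomb _ h0' _) (φj j) := by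
  classical
  have hprimH : Prim (fun a => rst (f a)) := by
    obtain ⟨K, hK⟩ := hf
    refine ⟨K, ?_⟩
    have h1 : mm ι k ^ K ≤ Ideal.map rst (mm (ι ⊕ κ) k ^ K) := by
      rw [Ideal.map_pow]
      refine Ideal.pow_right_mono ?_ K
      unfold mm
      rw [Ideal.span_le]
      rintro _ ⟨i, rfl⟩
      rw [← rst_X_inl (κ := κ) i]
      exact Ideal.mem_map_of_mem _ (Ideal.subset_span ⟨Sum.inl i, rfl⟩)
    refine h1.trans ((Ideal.map_mono hK).trans ?_)
    rw [Ideal.map_span, Ideal.span_le]
    rintro _ ⟨_, ⟨a, rfl⟩, rfl⟩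
    exact Ideal.subset_span ⟨a, rfl⟩
  obtain ⟨c0, hc0⟩ := exists_good_forms (fun a => rst (f a)) (fun a => mem_mm_iff.mpr (h0' a))
    hprimH
  have hc0' : Prim (fun i => lcomb (fun a => rst (f a)) (c0 i)) := hc0
  -- independence of the rows
  have hli : LinearIndependent k c0 := by
    rw [Fintype.linearIndependent_iff]
    intro g hg
    obtain ⟨p⟩ := exists_pkg _ (fun i => constantCoeff_lcomb _ h0' (c0 i)) hc0'
    have h1 : sh _ (fun i => constantCoeff_lcomb _ h0' (c0 i)) (lcomb X g) = 0 := by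
      rw [map_lcomb]
      simp only [sh_X]
      rw [lcomb_lcomb, hg, lcomb]
      exact Finset.sum_eq_zero fun j _ => by simp
    rw [← map_zero (sh _ (fun i => constantCoeff_lcomb _ h0' (c0 i)))] at h1
    have h2 := p.inj h1
    intro i
    have h3 := congrArg (pderiv k i) h2
    rw [map_zero, lcomb, map_sum, Finset.sum_eq_single i] at h3
    · rw [Derivation.leibniz, pderiv_X_self] at h3
      have h4 := congrArg constantCoeff h3
      simpa using h4
    · intro j _ hj
      rw [Derivation.leibniz, pderiv_X_of_ne hj]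
      simp
    · intro h
      exact absurd (Finset.mem_univ i) h
  obtain ⟨b, hb⟩ := exists_basis_extending c0 hli
  -- the new system
  set f' : ι ⊕ κ → MvPowerSeries (ι ⊕ κ) k := fun a => lcomb f (b a) with hf'
  have hf'0 : ∀ a, constantCoeff (f' a) = 0 := fun a => constantCoeff_lcomb f h0 _
  have hfj : ∀ j, f j = lcomb f' (b.repr (Pi.single j 1)) := fun j => (lcomb_basis f b j).symm
  have hspan : Ideal.span (Set.range f) ≤ Ideal.span (Set.range f') := by
    rw [Ideal.span_le]
    rintro _ ⟨j, rfl⟩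
    rw [hfj j]
    exact lcomb_mem _ _ _ fun a => Ideal.subset_span ⟨a, rfl⟩
  have hprim' : Prim f' := by
    obtain ⟨K, hK⟩ := hf
    exact ⟨K, hK.trans hspan⟩
  have hrstlc : ∀ c : (ι ⊕ κ) → k, rst (lcomb f c) = lcomb (fun a => rst (f a)) c := fun c => by
    rw [rst, map_lcomb]
  -- the change of coordinates
  have hθ0 : ∀ a, constantCoeff (lcomb X (b a) : MvPowerSeries (ι ⊕ κ) k) = 0 := fun a =>
    constantCoeff_lcomb _ (fun j => constantCoeff_X j) _
  have hθ'0 : ∀ j, constantCoeff (lcomb X (b.repr (Pi.single j (1 : k))) :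
      MvPowerSeries (ι ⊕ κ) k) = 0 := fun j => constantCoeff_lcomb _ (fun j => constantCoeff_X j) _
  have hff' : ∀ p, sh f h0 p = sh f' hf'0 (sh _ hθ'0 p) := by
    intro p
    rw [sh_sh _ _ _ _ (fun j => by rw [constantCoeff_sh]; exact hθ'0 j)]
    have h1 : (fun j => sh f' hf'0 (lcomb X (b.repr (Pi.single j (1 : k))))) = f := by
      funext j
      rw [map_lcomb]
      simp only [sh_X]
      exact (hfj j).symm
    simp only [h1]
  let D' : FTData ι κ k :=
    { f := f'
      h0 := hf'0
      hf := hprim'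
      hψ := by
        have h1 : (fun i => rst (f' (Sum.inl i))) =
            fun i => lcomb (fun a => rst (f a)) (c0 i) := by
          funext i
          rw [hf']
          simp only
          rw [hrstlc, hb]
        rw [h1]
        exact hc0'
      hH := by
        refine hH.trans (Ideal.radical_mono ?_)
        rw [Ideal.map_le_iff_le_comap]
        intro p hp
        rw [Ideal.mem_comap, hff']
        refine Ideal.mem_map_of_mem _ ?_
        rw [RingHom.mem_ker, RingHom.comp_apply] at hp ⊢
        rw [← hff']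
        exact hp }
  obtain ⟨c', φ', hprim2, hφ'⟩ := D'.FT
  have hfH : ∀ a, D'.fH a = lcomb (fun a => rst (f a)) (b a) := fun a => hrstlc (b a)
  have hlcH : ∀ r, lcomb D'.fH r = lcomb (fun a => rst (f a)) (∑ a, r a • b a) := by
    intro r
    rw [← lcomb_lcomb]
    congr 1
    funext a
    exact hfH a
  have hψeq : (fun i => lcomb D'.fH (c' i)) =
      fun i => lcomb (fun a => rst (f a)) (∑ a, c' i a • b a) := by
    funext i
    exact hlcH (c' i)
  refine ⟨fun i => ∑ a, c' i a • b a, fun j => lcomb φ' (b.repr (Pi.single j 1)), ?_, ?_⟩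
  · rw [← hψeq]
    exact hprim2
  · intro j
    have h1 : rst (f j) = lcomb D'.fH (b.repr (Pi.single j 1)) := by
      rw [hlcH, b.sum_repr, lcomb_single]
    have h2 : lcomb D'.fH (b.repr (Pi.single j 1)) =
        sh (fun i => lcomb D'.fH (c' i)) (fun i => constantCoeff_lcomb _ D'.hH0 _)
          (lcomb φ' (b.repr (Pi.single j 1))) := by
      rw [map_lcomb]
      congr 1
      funext a
      exact hφ' a
    rw [h1, h2]
    simp only [hψeq]

end Pool.Agent.Lib.MP_af4f85_ag
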