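import Pool.Agent.Lib.MP_af4f85_ag.Apply

set_option autoImplicit false
set_option linter.style.haveILetI false

namespace Pool.Agent.Lib.MP_af4f85_ag

open MvPowerSeries IsLocalRing

/-- linear form with coefficients `c` evaluated at `g` -/
noncomputable def lcomb {σ τ : Type*} [Fintype σ] {k : Type*} [Field k]
    (g : σ → MvPowerSeries τ k) (c : σ → k) : MvPowerSeries τ k := ∑ j, C (c j) * g j

section lcomb

variable {σ τ : Type*} [Fintype σ] {k : Type*} [Field k]

theorem lcomb_add (g : σ → MvPowerSeries τ k) (c d : σ → k) :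
    lcomb g (c + d) = lcomb g c + lcomb g d := by
  rw [lcomb, lcomb, lcomb, ← Finset.sum_add_distrib]
  exact Finset.sum_congr rfl fun j _ => by rw [Pi.add_apply, map_add, add_mul]

theorem lcomb_smul (g : σ → MvPowerSeries τ k) (ε : k) (c : σ → k) :
    lcomb g (ε • c) = C ε * lcomb g c := by
  rw [lcomb, lcomb, Finset.mul_sum]
  exact Finset.sum_congr rfl fun j _ => by
    rw [Pi.smul_apply, smul_eq_mul, map_mul, mul_assoc]

theorem lcomb_single [DecidableEq σ] (g : σ → MvPowerSeries τ k) (j : σ) :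
    lcomb g (Pi.single j 1) = g j := by
  rw [lcomb, Finset.sum_eq_single j]
  · simp
  · intro b _ hb
    simp [hb]
  · intro h
    exact absurd (Finset.mem_univ j) h

theorem constantCoeff_lcomb (g : σ → MvPowerSeries τ k) (hg : ∀ j, constantCoeff (g j) = 0)
    (c : σ → k) : constantCoeff (lcomb g c) = 0 := by
  rw [lcomb, map_sum]
  exact Finset.sum_eq_zero fun j _ => by rw [map_mul, hg, mul_zero]

theorem map_lcomb {υ : Type*} [Finite τ] [Finite υ] (f : τ → MvPowerSeries υ k)
    (h : ∀ i, constantCoeff (f i) = 0) (g : σ → MvPowerSeries τ k) (c : σ → k) :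
    sh f h (lcomb g c) = lcomb (fun j => sh f h (g j)) c := by
  rw [lcomb, lcomb, map_sum]
  exact Finset.sum_congr rfl fun j _ => by rw [map_mul, sh_C]

end lcomb

namespace FTData

variable {ι κ : Type*} [Fintype ι] [DecidableEq ι] [Fintype κ] [DecidableEq κ]
  {k : Type*} [Field k] [CharZero k] (D : FTData ι κ k)

/-- linear forms -/
noncomputable def lin (c : (ι ⊕ κ) → k) : MvPowerSeries (ι ⊕ κ) k := lcomb X c

theorem φH_lin (c : (ι ⊕ κ) → k) : D.φH (lin c) = lcomb D.fH c := by
  rw [lin, φH, map_lcomb]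
  congr 1
  funext j
  rw [sh_X]

omit [DecidableEq ι] [DecidableEq κ] [CharZero k] in
theorem constantCoeff_lin (c : (ι ⊕ κ) → k) : constantCoeff (lin c) = 0 :=
  constantCoeff_lcomb _ (fun j => constantCoeff_X j) c

omit [CharZero k] in
theorem prim_fH : Prim D.fH := by
  obtain ⟨K, hK⟩ := D.hψ
  refine ⟨K, hK.trans (Ideal.span_mono ?_)⟩
  rintro _ ⟨i, rfl⟩
  exact ⟨Sum.inl i, rfl⟩

/-- The factorization theorem. -/
theorem FT : ∃ (c : ι → (ι ⊕ κ) → k) (φj : (ι ⊕ κ) → MvPowerSeries ι k),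
    Prim (fun i => lcomb D.fH (c i)) ∧
    ∀ j, D.fH j = sh (fun i => lcomb D.fH (c i)) (fun i => constantCoeff_lcomb _ D.hH0 _) (φj j) := by
  classical
  by_contra hcon
  push Not at hcon
  -- all good `q` satisfy the membership
  let 𝔟 : Submodule k (MvPowerSeries ι k) :=
    { carrier := {c | D.tS c ∈ mm (ι ⊕ κ) k • D.WW}
      add_mem' := fun {x y} hx hy => by
        change D.tS (x + y) ∈ mm (ι ⊕ κ) k • D.WW
        rw [map_add]
        exact (mm (ι ⊕ κ) k • D.WW).add_mem hx hy
      zero_mem' := by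
        change D.tS 0 ∈ mm (ι ⊕ κ) k • D.WW
        rw [map_zero]
        exact Submodule.zero_mem _
      smul_mem' := fun r x hx => by
        change D.tS (r • x) ∈ mm (ι ⊕ κ) k • D.WW
        have h1 : D.tS (r • x) = (C r : MvPowerSeries (ι ⊕ κ) k) • D.tS x := by
          rw [smul_tS, φH, sh_C, smul_eq_C_mul]
        rw [h1]
        exact (mm (ι ⊕ κ) k • D.WW).smul_mem _ hx }
  have hmem𝔟 : ∀ x, x ∈ 𝔟 ↔ D.tS x ∈ mm (ι ⊕ κ) k • D.WW := fun x => Iff.rfl
  let G : (ι → (ι ⊕ κ) → k) → MvPowerSeries ι k := fun z => jac fun i => lcomb D.fH (z i)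
  have hGmq : ∀ z, G z = D.mq (fun i => lin (z i)) := by
    intro z
    simp only [G, mq, φH_lin]
  have hgood : ∀ z : ι → (ι ⊕ κ) → k, Prim (fun i => lcomb D.fH (z i)) → G z ∈ 𝔟 := by
    intro z hz
    rw [hGmq, hmem𝔟]
    have hz' : Prim (fun i => D.φH (lin (z i))) := by
      simp only [φH_lin]
      exact hz
    refine D.mq_mem (fun i => lin (z i)) (fun i => constantCoeff_lin (z i)) hz' ?_
    intro hall
    choose d hd using fun j => hall (X j)
    obtain ⟨j, hj⟩ := hcon z d hz
    apply hj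
    have h1 := hd j
    rw [φH_X, φH, sh_sh _ _ _ _ (fun i => by
      rw [constantCoeff_sh]; exact constantCoeff_lin (z i))] at h1
    rw [h1]
    congr 1
    have h2 : (fun i => lcomb D.fH (z i)) = fun i => sh D.fH D.hH0 (lin (z i)) := by
      funext i
      exact (D.φH_lin (z i)).symm
    simp only [h2]
  have hupd : ∀ (z : ι → (ι ⊕ κ) → k) (i : ι) (a : (ι ⊕ κ) → k),
      G (Function.update z i a) =
        jac (Function.update (fun i => lcomb D.fH (z i)) i (lcomb D.fH a)) := by
    intro z i a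
    simp only [G]
    congr 1
    funext i'
    by_cases h : i' = i
    · subst h
      rw [Function.update_self, Function.update_self]
    · rw [Function.update_of_ne h, Function.update_of_ne h]
  have hrow := row_induction (Good := fun z : ι → (ι ⊕ κ) → k => Prim (fun i => lcomb D.fH (z i)))
    (G := G) (𝔟 := 𝔟) (V₀ := Set.univ) (T₀ := Finset.univ)
    (by
      intro z hz i _ v _
      obtain ⟨ε, hε, h⟩ := repl (fun i => lcomb D.fH (z i)) hz i (lcomb D.fH v)
        (mem_mm_iff.mpr (constantCoeff_lcomb _ D.hH0 _))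
      refine ⟨ε, hε, ?_⟩
      convert h using 1
      funext i'
      by_cases h' : i' = i
      · subst h'
        rw [Function.update_self, Function.update_self, lcomb_add, lcomb_smul]
      · rw [Function.update_of_ne h', Function.update_of_ne h'])
    (by
      intro z i _ a b
      rw [hupd, hupd, hupd, lcomb_add, jac_update_add])
    (by
      intro z i _ ε a
      rw [hupd, hupd, lcomb_smul, jac_update_C_mul, smul_eq_C_mul])
    hgood
  -- coordinates
  have hcoord : ∀ π : ι → ι ⊕ κ, D.mq (fun i => X (π i)) ∈ 𝔟 := by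
    intro π
    have hz0 : Prim (fun i => lcomb D.fH (Pi.single (Sum.inl i : ι ⊕ κ) (1 : k))) := by
      simp only [lcomb_single]
      exact D.hψ
    have h1 := hrow Finset.univ subset_rfl (fun i => Pi.single (Sum.inl i : ι ⊕ κ) (1 : k)) hz0
      (fun i => Pi.single (π i) 1) (fun i _ => Set.mem_univ _)
    rw [Finset.piecewise_univ] at h1
    have h2 : G (fun i => Pi.single (π i) 1) = D.mq (fun i => X (π i)) := by
      simp only [G, lcomb_single, mq, φH_X]
    rwa [h2] at h1
  have hnn : ∀ τ : κ → ι ⊕ κ, D.nn τ ∈ 𝔟 := fun τ => D.nn_mem 𝔟.toAddSubgroup hcoord τ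
  -- `WW ≤ mm • WW`
  obtain ⟨d, hd, Φ, hstar⟩ := D.star
  have hle : D.WW ≤ mm (ι ⊕ κ) k • D.WW := by
    intro c hc
    obtain ⟨c, rfl⟩ := D.tS.surjective c
    obtain ⟨h, ρ, hh, hhc⟩ := (D.mem_WW c).mp hc
    have h1 := hstar c h ρ hh hhc
    have h2 : (d : MvPowerSeries ι k) * c ∈ 𝔟 := by
      rw [h1]
      refine Submodule.sum_mem _ fun τ _ => ?_
      rw [hmem𝔟, ← smul_tS]
      exact Submodule.smul_mem _ _ (hnn τ)
    have h3 : c = ((d : k)⁻¹) • ((d : MvPowerSeries ι k) * c) := by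
      rw [smul_eq_C_mul, ← map_natCast (C (σ := ι) (R := k)), ← mul_assoc, ← map_mul,
        inv_mul_cancel₀ (Nat.cast_ne_zero.mpr hd), map_one, one_mul]
    rw [h3]
    exact 𝔟.smul_mem _ h2
  haveI := finite_of_prim D.fH D.hH0 D.prim_fH
  haveI : IsNoetherian (MvPowerSeries (ι ⊕ κ) k) (SubA D.fH D.hH0) := isNoetherian_of_isNoetherianRing_of_finite _ _
  have hbot : D.WW = ⊥ := by
    refine Submodule.eq_bot_of_le_smul_of_le_jacobson_bot (mm (ι ⊕ κ) k) D.WW
      (IsNoetherian.noetherian _) hle ?_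
    rw [mm_eq_maximalIdeal]
    exact maximalIdeal_le_jacobson _
  have h1 : D.tS (D.mq q0) ∈ D.WW := by
    rw [mem_WW]
    exact ⟨1, 1, by rw [map_one]; exact one_ne_zero, rfl⟩
  rw [hbot, Submodule.mem_bot, ← map_zero D.tS] at h1
  exact D.mq0_ne (D.tS.injective h1)

end FTData

end Pool.Agent.Lib.MP_af4f85_ag
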