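import Pool.Agent.Lib.MP_af4f85_ag.Poly

set_option autoImplicit false

namespace Pool.Agent.Lib.MP_af4f85_ag

open MvPolynomial

section DD

variable {σ : Type*} [Fintype σ] [DecidableEq σ] {Λ Γ : Type*} [CommRing Λ] [CommRing Γ]
  [Algebra Λ Γ]

theorem exists_dd_monomial (z : σ → Γ) (c : Λ) (n : ℕ) : ∀ γ : σ →₀ ℕ, γ.degree = n →
    ∃ a : σ → MvPolynomial σ Γ,
      (map (algebraMap Λ Γ) (monomial γ c) - C (aeval z (monomial γ c)) =
        ∑ j, a j * (X j - C (z j))) ∧
      ∀ j, LT n (a j) ∧ eval z (a j) = aeval z (pderiv j (monomial γ c)) := by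
  induction n with
  | zero =>
    intro γ hγ
    have h0 : γ = 0 := (Finsupp.degree_eq_zero_iff γ).mp hγ
    subst h0
    refine ⟨0, ?_, fun j => ⟨LT.zero 0, ?_⟩⟩
    · simp
    · simp
  | succ n ih =>
    intro γ hγ
    obtain ⟨l, hl⟩ : ∃ l, γ l ≠ 0 := by
      by_contra h
      push Not at h
      have : γ = 0 := Finsupp.ext h
      rw [this] at hγ
      simp at hγ
    have hle : Finsupp.single l 1 ≤ γ := by
      rw [Finsupp.single_le_iff]
      omega
    set γ' := γ - Finsupp.single l 1 with hγ'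
    have e1 : Finsupp.single l 1 + γ' = γ := add_tsub_cancel_of_le hle
    have e2 : γ'.degree = n := by
      have : (Finsupp.single l 1 + γ').degree = n + 1 := by rw [e1, hγ]
      rw [map_add, Finsupp.degree_single] at this
      omega
    have e3 : (monomial γ c : MvPolynomial σ Λ) = X l * monomial γ' c := by
      rw [X, monomial_mul, one_mul, e1]
    obtain ⟨a, ha1, ha2⟩ := ih γ' e2
    refine ⟨fun j => X l * a j + if j = l then C (aeval z (monomial γ' c)) else 0, ?_, ?_⟩
    · rw [e3, map_mul, map_mul, map_X, aeval_X, C_mul]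
      have : ∀ j, (X l * a j + if j = l then C (aeval z (monomial γ' c)) else 0) *
          (X j - C (z j)) = X l * (a j * (X j - C (z j))) +
          if j = l then C (aeval z (monomial γ' c)) * (X j - C (z j)) else 0 := by
        intro j
        split_ifs <;> ring
      simp_rw [this]
      rw [Finset.sum_add_distrib, ← Finset.mul_sum, ← ha1, Finset.sum_ite_eq' Finset.univ l,
        if_pos (Finset.mem_univ l)]
      ring
    · intro j
      refine ⟨?_, ?_⟩
      · refine LT.add ?_ ?_
        · have := (LT.X (R := Γ) l).mul (ha2 j).1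
          rw [add_comm] at this
          exact this
        · split_ifs
          · exact LT.C _ (Nat.succ_pos n)
          · exact LT.zero _
      · rw [e3, Derivation.leibniz, pderiv_X, map_add, map_mul, eval_X, (ha2 j).2]
        rw [smul_eq_mul, smul_eq_mul, map_add, map_mul, aeval_X, map_mul]
        congr 1
        by_cases h : j = l
        · subst h
          rw [if_pos rfl, Pi.single_eq_same, map_one, mul_one, eval_C]
        · rw [if_neg h, map_zero, Pi.single_eq_of_ne (Ne.symm h), map_zero, mul_zero]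

theorem exists_dd (z : σ → Γ) {m : ℕ} (p : MvPolynomial σ Λ) (hp : LT (m + 1) p) :
    ∃ a : σ → MvPolynomial σ Γ,
      (map (algebraMap Λ Γ) p - C (aeval z p) = ∑ j, a j * (X j - C (z j))) ∧
      ∀ j, LT m (a j) ∧ eval z (a j) = aeval z (pderiv j p) := by
  choose a ha1 ha2 using fun γ : σ →₀ ℕ =>
    exists_dd_monomial z (coeff γ p) γ.degree γ rfl
  refine ⟨fun j => ∑ γ ∈ p.support, a γ j, ?_, fun j => ⟨?_, ?_⟩⟩
  · conv_lhs => rw [p.as_sum]
    rw [map_sum, map_sum, map_sum, ← Finset.sum_sub_distrib]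
    simp_rw [ha1, Finset.sum_mul]
    exact Finset.sum_comm
  · refine LT.sum _ fun γ hγ => ?_
    have hγm : γ.degree ≤ m := by
      by_contra h
      exact (mem_support_iff.mp hγ) (hp γ (by omega))
    exact ((ha2 γ j).1).mono hγm
  · conv_rhs => rw [p.as_sum]
    rw [map_sum, map_sum, map_sum]
    exact Finset.sum_congr rfl fun γ _ => (ha2 γ j).2

theorem exists_dd_pow (z : σ → Γ) (i : σ) (D : ℕ) :
    ∃ h : MvPolynomial σ Γ, X i ^ (D + 1) - C (z i ^ (D + 1)) = h * (X i - C (z i)) ∧
      LT D (h - X i ^ D) ∧ eval z h = (D + 1 : ℕ) * z i ^ D := by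
  induction D with
  | zero => exact ⟨1, by simp, by simpa using LT.zero 0, by simp⟩
  | succ D ih =>
    obtain ⟨h, h1, h2, h3⟩ := ih
    refine ⟨X i * h + C (z i ^ (D + 1)), ?_, ?_, ?_⟩
    · rw [pow_succ' (X i), pow_succ' (z i) (D + 1), C_mul]
      linear_combination (X i : MvPolynomial σ Γ) * h1
    · have e : X i * h + C (z i ^ (D + 1)) - X i ^ (D + 1) =
          X i * (h - X i ^ D) + C (z i ^ (D + 1)) := by ring
      rw [e]
      refine LT.add ?_ (LT.C _ (Nat.succ_pos D))
      have := (LT.X (R := Γ) i).mul h2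
      rw [add_comm] at this
      exact this
    · rw [map_add, map_mul, eval_X, h3, eval_C]
      push_cast
      ring

end DD

/-- A Frobenius system for a commutative algebra, with different `J`. -/
def FrobSys (Λ C : Type*) [CommRing Λ] [CommRing C] [Algebra Λ C] (J : C) : Prop :=
  ∃ (n : ℕ) (ρ : C →ₗ[Λ] Λ) (u v : Fin n → C),
    (∀ c, c = ∑ i, ρ (c * u i) • v i) ∧ ∑ i, u i * v i = J

theorem FrobSys.of_fintype {Λ C : Type*} [CommRing Λ] [CommRing C] [Algebra Λ C] {J : C}
    {ι : Type*} [Fintype ι] (ρ : C →ₗ[Λ] Λ) (u v : ι → C)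
    (h1 : ∀ c, c = ∑ i, ρ (c * u i) • v i) (h2 : ∑ i, u i * v i = J) : FrobSys Λ C J := by
  let e := Fintype.equivFin ι
  refine ⟨Fintype.card ι, ρ, u ∘ e.symm, v ∘ e.symm, fun c => ?_, ?_⟩
  · conv_lhs => rw [h1 c]
    exact (Equiv.sum_comp e.symm (fun i => ρ (c * u i) • v i)).symm
  · rw [← h2]
    exact Equiv.sum_comp e.symm (fun i => u i * v i)

theorem FrobSys.quot {Λ C : Type*} [CommRing Λ] [CommRing C] [Algebra Λ C] {J : C}
    (h : FrobSys Λ C J) {I : Ideal C} {e : C} (he : IsIdempotentElem e)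
    (hI : I = Ideal.span {e}) : FrobSys Λ (C ⧸ I) (Ideal.Quotient.mk I J) := by
  obtain ⟨n, ρ, u, v, h1, h2⟩ := h
  have key : ∀ x ∈ I, (1 - e) * x = 0 := by
    intro x hx
    rw [hI, Ideal.mem_span_singleton'] at hx
    obtain ⟨a, rfl⟩ := hx
    have : (1 - e) * e = 0 := by rw [sub_mul, one_mul, he.eq, sub_self]
    rw [mul_comm a e, ← mul_assoc, this, zero_mul]
  let ρ0 : C →ₗ[Λ] Λ := ρ ∘ₗ (LinearMap.mulLeft Λ (1 - e))
  have hker : (I.restrictScalars Λ) ≤ LinearMap.ker ρ0 := by
    intro x hx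
    simp only [LinearMap.mem_ker, ρ0, LinearMap.comp_apply, LinearMap.mulLeft_apply]
    rw [key x hx, map_zero]
  let ρ' : (C ⧸ I) →ₗ[Λ] Λ := (I.restrictScalars Λ).liftQ ρ0 hker
  have hρ' : ∀ c : C, ρ' (Ideal.Quotient.mk I c) = ρ ((1 - e) * c) := fun c => rfl
  refine ⟨n, ρ', fun i => Ideal.Quotient.mk I (u i), fun i => Ideal.Quotient.mk I (v i), ?_, ?_⟩
  · intro c
    obtain ⟨c, rfl⟩ := Ideal.Quotient.mk_surjective c
    have hsum : ∑ i, ρ' (Ideal.Quotient.mk I c * Ideal.Quotient.mk I (u i)) •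
        Ideal.Quotient.mk I (v i) = Ideal.Quotient.mk I (∑ i, ρ ((1 - e) * c * u i) • v i) := by
      rw [map_sum]
      refine Finset.sum_congr rfl fun i _ => ?_
      rw [← map_mul, hρ', mul_assoc]
      rfl
    rw [hsum, ← h1, Ideal.Quotient.eq, hI, Ideal.mem_span_singleton']
    exact ⟨c, by ring⟩
  · rw [← h2, map_sum]
    exact Finset.sum_congr rfl fun i _ => (map_mul _ _ _).symm

section Main

variable {σ : Type*} [Fintype σ] [DecidableEq σ] {Λ : Type*} [CommRing Λ]

/-- determinant of a matrix with leading part diagonal -/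
theorem res_det {Γ : Type*} [CommRing Γ] (D : ℕ) (t : σ → MvPolynomial σ Γ) (hD : 0 < D)
    (ht : ∀ i, LT D (t i - X i ^ D)) (a : Matrix σ σ (MvPolynomial σ Γ))
    (ha : ∀ i j, LT (D - 1) (a i j - if i = j then X i ^ (D - 1) else 0)) :
    res D t hD ht a.det = 1 := by
  have hlead : ∀ i j, Lead (D - 1) (a i j) (if i = j then X i ^ (D - 1) else 0) := by
    intro i j
    refine Lead.of_LT ?_ (ha i j)
    split_ifs
    · exact X_pow_LT i _
    · exact LT.zero _
  have hperm : ∀ π : Equiv.Perm σ, Lead (Fintype.card σ * (D - 1)) (∏ i, a (π i) i)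
      (∏ i, if π i = i then X (π i) ^ (D - 1) else 0) := by
    intro π
    have := Lead.prod (R := Γ) Finset.univ (a := fun _ => D - 1) (fun i _ => hlead (π i) i)
    simpa using this
  have hone : (∏ i : σ, (X i : MvPolynomial σ Γ) ^ (D - 1)) = monomial (top' D) 1 := by
    rw [monomial_eq, C_1, one_mul, Finsupp.prod_fintype _ _ (fun i => pow_zero _)]
    rfl
  have hdet : Lead (Fintype.card σ * (D - 1)) a.det (monomial (top' D) 1) := by
    have h1 : (monomial (top' D) 1 : MvPolynomial σ Γ) =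
        ∑ π : Equiv.Perm σ, ((Equiv.Perm.sign π : ℤ) : MvPolynomial σ Γ) *
          ∏ i, (if π i = i then (X (π i) : MvPolynomial σ Γ) ^ (D - 1) else 0) := by
      rw [Finset.sum_eq_single (1 : Equiv.Perm σ)]
      · simp [hone]
      · intro π _ hπ
        obtain ⟨i, hi⟩ : ∃ i, π i ≠ i := by
          by_contra h
          push Not at h
          exact hπ (Equiv.ext h)
        rw [Finset.prod_eq_zero (Finset.mem_univ i) (if_neg hi), mul_zero]
      · intro h
        exact absurd (Finset.mem_univ _) h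
    rw [Matrix.det_apply', h1]
    constructor
    · refine LT.sum _ fun π _ => ?_
      have := ((hperm π).1).smul ((Equiv.Perm.sign π : ℤ) : Γ)
      rw [smul_eq_C_mul] at this
      simpa using this
    · rw [← Finset.sum_sub_distrib]
      refine LT.sum _ fun π _ => ?_
      have := ((hperm π).2).smul ((Equiv.Perm.sign π : ℤ) : Γ)
      rw [smul_eq_C_mul, mul_sub] at this
      simpa using this
  rw [res_of_LT D t hD ht hdet.1]
  have := hdet.2 (top' D) (top'_degree D).ge
  rw [coeff_sub, sub_eq_zero] at this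
  rw [this, coeff_monomial, if_pos rfl]

/-- The Frobenius system of a polynomial complete intersection with leading forms `X i ^ D`. -/
theorem frobSys_poly (D : ℕ) (t : σ → MvPolynomial σ Λ) (hD : 0 < D)
    (ht : ∀ i, LT D (t i - X i ^ D)) {Γ : Type*} [CommRing Γ] [Algebra Λ Γ] (z : σ → Γ)
    (hsurj : Function.Surjective (aeval z : MvPolynomial σ Λ →ₐ[Λ] Γ))
    (hker : ∀ p : MvPolynomial σ Λ, aeval z p = 0 ↔ p ∈ Ideal.span (Set.range t)) :
    FrobSys Λ Γ (Matrix.of fun i j => aeval z (pderiv j (t i))).det := by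
  have htz : ∀ i, aeval z (t i) = 0 := fun i => (hker _).mpr (Ideal.subset_span ⟨i, rfl⟩)
  let φ : Λ →+* Γ := algebraMap Λ Γ
  have ht' : ∀ i, LT D (map φ (t i) - X i ^ D) := by
    intro i
    have := (ht i).map φ
    simpa using this
  -- the matrix of divided differences
  obtain ⟨E, hE⟩ : ∃ E, D = E + 1 := ⟨D - 1, by omega⟩
  choose b hb1 hb2 using fun i => exists_dd (m := E) z (t i - X i ^ D) (by rw [← hE]; exact ht i)
  choose h hh1 hh2 hh3 using fun i => exists_dd_pow z i E
  let a : Matrix σ σ (MvPolynomial σ Γ) :=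
    Matrix.of fun i j => (if i = j then h i else 0) + b i j
  have ha : ∀ i j, LT (D - 1) (a i j - if i = j then X i ^ (D - 1) else 0) := by
    intro i j
    have hE' : D - 1 = E := by omega
    rw [hE']
    simp only [a, Matrix.of_apply]
    split_ifs with hij
    · have := (hh2 i).add (hb2 i j).1
      convert this using 1
      ring
    · rw [zero_add, sub_zero]
      exact (hb2 i j).1
  have hasum : ∀ i, ∑ j, a i j * (X j - C (z j)) = map φ (t i) := by
    intro i
    simp only [a, Matrix.of_apply, add_mul, Finset.sum_add_distrib, ite_mul, zero_mul,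
      Finset.sum_ite_eq, Finset.mem_univ, if_true]
    rw [← hb1 i, ← hh1 i]
    simp only [map_sub, map_pow, map_X, aeval_X, htz i, hE, map_zero]
    ring
  have haeq : ∀ i j, eval z (a i j) = aeval z (pderiv j (t i)) := by
    intro i j
    simp only [a, Matrix.of_apply, map_add]
    rw [(hb2 i j).2, map_sub, map_sub, Derivation.leibniz_pow, pderiv_X]
    by_cases hij : i = j
    · subst hij
      rw [if_pos rfl, hh3, hE]
      simp
    · rw [if_neg hij, map_zero, Pi.single_eq_of_ne hij]
      simp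
  set Δ := a.det with hΔ
  have hres : res D (fun i => map φ (t i)) hD ht' Δ = 1 := res_det D _ hD ht' a ha
  set I' : Ideal (MvPolynomial σ Γ) := Ideal.span (Set.range fun i => map φ (t i)) with hI'
  have hX : ∀ j, (X j - C (z j)) * Δ ∈ I' := by
    intro j
    have h1 : a.adjugate.mulVec (a.mulVec (fun j => X j - C (z j))) =
        fun j => Δ * (X j - C (z j)) := by
      rw [Matrix.mulVec_mulVec, Matrix.adjugate_mul]
      funext j
      simp [Matrix.smul_mulVec, hΔ]
    have h2 := congrFun h1 j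
    rw [mul_comm, ← h2, Matrix.mulVec, dotProduct]
    refine Ideal.sum_mem _ fun i _ => ?_
    refine Ideal.mul_mem_left _ _ ?_
    rw [Matrix.mulVec, dotProduct, hasum i]
    exact Ideal.subset_span ⟨i, rfl⟩
  have hp : ∀ p : MvPolynomial σ Λ, (map φ p - C (aeval z p)) * Δ ∈ I' := by
    intro p
    obtain ⟨m, hm⟩ := exists_LT p
    obtain ⟨q, hq1, _⟩ := exists_dd (m := m) z p (hm.mono (Nat.le_succ m))
    rw [hq1, Finset.sum_mul]
    refine Ideal.sum_mem _ fun j _ => ?_
    rw [mul_assoc]
    exact Ideal.mul_mem_left _ _ (hX j)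
  have hkey : ∀ p : MvPolynomial σ Λ,
      res D (fun i => map φ (t i)) hD ht' (map φ p * Δ) = aeval z p := by
    intro p
    have h1 := res_of_mem_span D _ hD ht' (hp p)
    rw [sub_mul, map_sub, sub_eq_zero] at h1
    rw [h1, ← smul_eq_C_mul, map_smul, hres, smul_eq_mul, mul_one]
  -- the functional
  have hker' : LinearMap.ker (aeval z : MvPolynomial σ Λ →ₐ[Λ] Γ).toLinearMap ≤
      LinearMap.ker (res D t hD ht) := by
    intro x hx
    exact res_of_mem_span D t hD ht ((hker x).mp hx)
  obtain ⟨ρ, hρ⟩ : ∃ ρ : Γ →ₗ[Λ] Λ, ∀ p, ρ (aeval z p) = res D t hD ht p := by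
    refine ⟨(Submodule.liftQ _ (res D t hD ht) hker') ∘ₗ
      ((aeval z : MvPolynomial σ Λ →ₐ[Λ] Γ).toLinearMap.quotKerEquivOfSurjective
        hsurj).symm.toLinearMap, fun p => ?_⟩
    have : ((aeval z : MvPolynomial σ Λ →ₐ[Λ] Γ).toLinearMap.quotKerEquivOfSurjective
        hsurj).symm (aeval z p) = Submodule.Quotient.mk p := by
      rw [LinearEquiv.symm_apply_eq]
      rfl
    rw [LinearMap.comp_apply, LinearEquiv.coe_coe, this]
    rfl
  refine FrobSys.of_fintype (ι := Δ.support) ρ (fun γ => aeval z (monomial γ.1 (1 : Λ)))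
    (fun γ => coeff γ.1 Δ) ?_ ?_
  · intro c
    obtain ⟨p, rfl⟩ := hsurj c
    rw [Finset.sum_coe_sort Δ.support
      (fun γ => ρ (aeval z p * aeval z (monomial γ (1 : Λ))) • coeff γ Δ)]
    conv_lhs => rw [← hkey p, Δ.as_sum, Finset.mul_sum, map_sum]
    refine Finset.sum_congr rfl fun γ _ => ?_
    have h1 : (map φ p * monomial γ (coeff γ Δ)) =
        (coeff γ Δ) • map φ (p * monomial γ 1) := by
      rw [map_mul, map_monomial, map_one, smul_eq_C_mul, ← mul_assoc, mul_comm (C _), mul_assoc,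
        C_mul_monomial, mul_one]
    rw [h1, map_smul, res_map D t φ hD ht ht', ← map_mul, hρ, smul_eq_mul, mul_comm,
      Algebra.smul_def (res D t hD ht (p * monomial γ 1)) (coeff γ Δ)]
  · rw [Finset.sum_coe_sort Δ.support
      (fun γ => aeval z (monomial γ (1 : Λ)) * coeff γ Δ)]
    have h1 : (Matrix.of fun i j => aeval z (pderiv j (t i))).det = eval z Δ := by
      rw [hΔ, RingHom.map_det]
      congr 1
      ext i j
      exact (haeq i j).symm
    rw [h1]
    conv_rhs => rw [Δ.as_sum, map_sum]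
    refine Finset.sum_congr rfl fun γ _ => ?_
    rw [eval_monomial, aeval_monomial, map_one, one_mul, mul_comm]

end Main

end Pool.Agent.Lib.MP_af4f85_ag
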