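import Mathlib

set_option autoImplicit false

namespace Pool.Agent.Lib.MP_af4f85_ag

open Filter Topology Module

/-- Straightening of a submersion. -/
theorem straighten {n r : ℕ} {h : (Fin n → ℂ) → (Fin r → ℂ)} (hh : AnalyticAt ℂ h 0)
    (hs : Function.Surjective (fderiv ℂ h 0)) (h0 : h 0 = 0) :
    ∃ (s : ℕ) (_ : Fin s ⊕ Fin r ≃ Fin n) (χ : (Fin s ⊕ Fin r → ℂ) → (Fin n → ℂ)),
      AnalyticAt ℂ χ 0 ∧ χ 0 = 0 ∧
      (∀ᶠ x in 𝓝 (0 : Fin s ⊕ Fin r → ℂ), ∀ l, h (χ x) l = x (Sum.inr l)) ∧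
      (∀ᶠ x in 𝓝 (0 : Fin s ⊕ Fin r → ℂ), χ x = 0 → x = 0) := by
  set h' := fderiv ℂ h 0 with hh'
  let K := LinearMap.ker (h' : (Fin n → ℂ) →ₗ[ℂ] (Fin r → ℂ))
  set s := finrank ℂ K with hsdef
  have hrank : s + r = n := by
    have h1 := LinearMap.finrank_range_add_finrank_ker (h' : (Fin n → ℂ) →ₗ[ℂ] (Fin r → ℂ))
    have h2 : LinearMap.range (h' : (Fin n → ℂ) →ₗ[ℂ] (Fin r → ℂ)) = ⊤ :=
      LinearMap.range_eq_top.mpr hs
    rw [h2, finrank_top, Module.finrank_fin_fun, Module.finrank_fin_fun] at h1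
    change r + s = n at h1
    omega
  -- `p`
  let eK : K ≃ₗ[ℂ] (Fin s → ℂ) := LinearEquiv.ofFinrankEq _ _ (by
    rw [Module.finrank_fin_fun])
  obtain ⟨p, hp⟩ := LinearMap.exists_extend (eK : K →ₗ[ℂ] (Fin s → ℂ))
  let L0 : (Fin n → ℂ) →ₗ[ℂ] (Fin s ⊕ Fin r → ℂ) := LinearMap.pi fun t =>
    Sum.elim (fun i => (LinearMap.proj i).comp p)
      (fun l => (LinearMap.proj l).comp (h' : (Fin n → ℂ) →ₗ[ℂ] (Fin r → ℂ))) t
  have hL0l : ∀ z i, L0 z (Sum.inl i) = p z i := fun z i => rfl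
  have hL0r : ∀ z l, L0 z (Sum.inr l) = h' z l := fun z l => rfl
  have hinj : Function.Injective L0 := by
    rw [← LinearMap.ker_eq_bot, Submodule.eq_bot_iff]
    intro z hz
    rw [LinearMap.mem_ker] at hz
    have h1 : h' z = 0 := by
      funext l
      rw [← hL0r, hz]
      rfl
    have h2 : z ∈ K := h1
    have h3 : eK ⟨z, h2⟩ = 0 := by
      have h4 : p z = 0 := by
        funext i
        rw [← hL0l, hz]
        rfl
      have h5 := LinearMap.congr_fun hp ⟨z, h2⟩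
      rw [LinearMap.comp_apply] at h5
      exact h5.symm.trans h4
    have h6 := (LinearEquiv.map_eq_zero_iff eK).mp h3
    exact congrArg Subtype.val h6
  let L1 : (Fin n → ℂ) ≃ₗ[ℂ] (Fin s ⊕ Fin r → ℂ) := L0.linearEquivOfInjective hinj (by
    rw [Module.finrank_fin_fun, Module.finrank_fintype_fun_eq_card, Fintype.card_sum,
      Fintype.card_fin, Fintype.card_fin, hrank])
  let L : (Fin n → ℂ) ≃L[ℂ] (Fin s ⊕ Fin r → ℂ) := L1.toContinuousLinearEquiv
  have hL : ∀ z, L z = L0 z := fun z => rfl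
  -- `H`
  let H : (Fin n → ℂ) → (Fin s ⊕ Fin r → ℂ) := fun z => Sum.elim (p z) (h z)
  have hpan : AnalyticAt ℂ (fun z => p z) 0 :=
    (LinearMap.toContinuousLinearMap p).analyticAt 0
  have hHan : AnalyticAt ℂ H 0 := by
    rw [analyticAt_pi_iff]
    rintro (i | l)
    · exact (analyticAt_pi_iff.mp hpan) i
    · exact (analyticAt_pi_iff.mp hh) l
  have hHd : HasFDerivAt H (L : (Fin n → ℂ) →L[ℂ] (Fin s ⊕ Fin r → ℂ)) 0 := by
    rw [hasFDerivAt_pi']
    rintro (i | l)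
    · have h1 : HasFDerivAt (fun z => p z) (LinearMap.toContinuousLinearMap p) 0 :=
        (LinearMap.toContinuousLinearMap p).hasFDerivAt
      exact (hasFDerivAt_pi'.mp h1) i
    · have h1 : HasFDerivAt h h' 0 := hh.differentiableAt.hasFDerivAt
      exact (hasFDerivAt_pi'.mp h1) l
  have hH0 : H 0 = 0 := by
    funext t
    rcases t with i | l
    · change p 0 i = 0
      rw [map_zero]
      rfl
    · change h 0 l = 0
      rw [h0]
      rfl
  have hcd : ContDiffAt ℂ ⊤ H 0 := hHan.contDiffAt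
  have hne : (⊤ : WithTop ℕ∞) ≠ 0 := by simp
  let χ := hcd.localInverse hHd hne
  have hχ1 : ContDiffAt ℂ ⊤ χ (H 0) := hcd.to_localInverse hHd hne
  rw [hH0] at hχ1
  have hχan : AnalyticAt ℂ χ 0 := hχ1.analyticAt
  have hχ0 : χ 0 = 0 := by
    have := hcd.localInverse_apply_image hHd hne
    rwa [hH0] at this
  have hright : ∀ᶠ y in 𝓝 (0 : Fin s ⊕ Fin r → ℂ), H (χ y) = y := by
    have := (hcd.hasStrictFDerivAt' hHd hne).eventually_right_inverse
    rwa [hH0] at this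
  refine ⟨s, finSumFinEquiv.trans (finCongr hrank), χ, hχan, hχ0, ?_, ?_⟩
  · filter_upwards [hright] with x hx l
    exact congrFun hx (Sum.inr l)
  · filter_upwards [hright] with x hx hx0
    rw [← hx, hx0, hH0]

end Pool.Agent.Lib.MP_af4f85_ag
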