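import Mathlib

set_option autoImplicit false
set_option linter.style.haveILetI false

namespace Pool.Agent.Lib.MP_af4f85_ag

open Module nonZeroDivisors

/-- Trace through a nil quotient over a field. -/
theorem trace_of_nil_field {K C L : Type*} [Field K] [CharZero K] [CommRing C] [Algebra K C]
    [Module.Finite K C] [Field L] [Algebra K L] [Module.Finite K L] (g : C →ₐ[K] L)
    (hg : Function.Surjective g) (hnil : ∀ x, g x = 0 → IsNilpotent x) :
    ∃ μ : ℕ, μ ≠ 0 ∧ ∀ c, Algebra.trace K C c = μ • Algebra.trace K L (g c) := by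
  have hN : IsNoetherianRing C := IsNoetherianRing.of_finite K C
  have hker : IsNilpotent (RingHom.ker (g : C →+* L)) := by
    rw [Ideal.FG.isNilpotent_iff_le_nilradical (IsNoetherian.noetherian _)]
    intro x hx
    exact mem_nilradical.mpr (hnil x hx)
  have : Algebra.EssFiniteType K L := inferInstance
  have : PerfectField K := inferInstance
  let s : L →ₐ[K] C := Algebra.FormallySmooth.liftOfSurjective (AlgHom.id K L) g hg hker
  have hs : ∀ y, g (s y) = y := fun y =>
    Algebra.FormallySmooth.liftOfSurjective_apply (AlgHom.id K L) g hg hker y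
  letI : Algebra L C := s.toRingHom.toAlgebra
  haveI : IsScalarTower K L C := IsScalarTower.of_algebraMap_eq fun x => (s.commutes x).symm
  haveI : Module.Finite L C := Module.Finite.of_restrictScalars_finite K L C
  have hnt : Nontrivial C := g.toRingHom.domain_nontrivial
  refine ⟨finrank L C, (Module.finrank_pos (R := L) (M := C)).ne', fun c => ?_⟩
  have h1 : IsNilpotent (c - s (g c)) := hnil _ (by rw [map_sub, hs, sub_self])
  have h2 : Algebra.trace K C (c - s (g c)) = 0 :=
    (Algebra.isNilpotent_trace_of_isNilpotent h1).eq_zero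
  rw [map_sub, sub_eq_zero] at h2
  rw [h2, ← Algebra.trace_trace (S := L)]
  have h3 : Algebra.trace L C (s (g c)) = finrank L C • (g c) := Algebra.trace_algebraMap (g c)
  rw [h3, map_nsmul]

attribute [local instance] FractionRing.liftAlgebra FractionRing.isScalarTower_liftAlgebra

/-- Trace through a nil quotient. -/
theorem trace_of_nil_aux {D C S : Type*} [CommRing D] [IsDomain D] [CharZero D] [CommRing C]
    [Algebra D C] [Module.Finite D C] [Module.Free D C] [CommRing S] [IsDomain S] [Algebra D S]
    [Module.Finite D S] [Module.IsTorsionFree D S] (π : C →ₐ[D] S) (hπ : Function.Surjective π)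
    (hnil : ∀ x, π x = 0 → IsNilpotent x) :
    ∃ μ : ℕ, μ ≠ 0 ∧ ∀ c, algebraMap D (FractionRing D) (Algebra.trace D C c) =
      μ • Algebra.trace (FractionRing D) (FractionRing S) (algebraMap S (FractionRing S) (π c)) := by
  haveI : FaithfulSMul D S := inferInstance
  haveI : Algebra.IsAlgebraic D S := inferInstance
  haveI hSloc : IsLocalization (Algebra.algebraMapSubmonoid S D⁰) (FractionRing S) := inferInstance
  haveI : Module.Finite (FractionRing D) (FractionRing S) :=
    Module.Finite.of_isLocalization D S D⁰
  let CK := Localization (Algebra.algebraMapSubmonoid C D⁰)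
  haveI : CharZero (FractionRing D) := inferInstance
  let g0 : CK →+* FractionRing S := IsLocalization.lift (M := Algebra.algebraMapSubmonoid C D⁰)
    (g := (algebraMap S (FractionRing S)).comp (π : C →+* S)) (by
      rintro ⟨_, d, hd, rfl⟩
      change IsUnit (algebraMap S (FractionRing S) (π (algebraMap D C d)))
      rw [AlgHom.commutes]
      refine IsUnit.mk0 _ ?_
      rw [map_ne_zero_iff _ (FaithfulSMul.algebraMap_injective S (FractionRing S)),
        map_ne_zero_iff _ (FaithfulSMul.algebraMap_injective D S)]
      exact nonZeroDivisors.ne_zero hd)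
  have hg0 : ∀ c : C, g0 (algebraMap C CK c) = algebraMap S (FractionRing S) (π c) := fun c =>
    IsLocalization.lift_eq _ c
  let g : CK →ₐ[FractionRing D] FractionRing S :=
    { g0 with
      commutes' := by
        intro x
        have h1 : g0.comp (algebraMap (FractionRing D) CK) =
            algebraMap (FractionRing D) (FractionRing S) := by
          apply IsLocalization.ringHom_ext D⁰
          ext d
          rw [RingHom.comp_apply, RingHom.comp_apply, RingHom.comp_apply,
            ← IsScalarTower.algebraMap_apply D (FractionRing D) CK,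
            ← IsScalarTower.algebraMap_apply D (FractionRing D) (FractionRing S),
            IsScalarTower.algebraMap_apply D C CK, hg0, AlgHom.commutes,
            ← IsScalarTower.algebraMap_apply D S (FractionRing S)]
        exact RingHom.congr_fun h1 x }
  have hg : ∀ x, g x = g0 x := fun x => rfl
  have hsurj : Function.Surjective g := by
    intro y
    obtain ⟨s, ⟨_, d, hd, rfl⟩, rfl⟩ :=
      IsLocalization.exists_mk'_eq (Algebra.algebraMapSubmonoid S D⁰) y
    obtain ⟨c, rfl⟩ := hπ s
    refine ⟨IsLocalization.mk' CK c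
      (⟨algebraMap D C d, d, hd, rfl⟩ : Algebra.algebraMapSubmonoid C D⁰), ?_⟩
    rw [hg, IsLocalization.eq_mk'_iff_mul_eq]
    change g0 _ * algebraMap S (FractionRing S) (algebraMap D S d) = _
    rw [← AlgHom.commutes π, ← hg0, ← map_mul, ← hg0]
    congr 1
    exact IsLocalization.mk'_spec CK c
      (⟨algebraMap D C d, d, hd, rfl⟩ : Algebra.algebraMapSubmonoid C D⁰)
  have hnil' : ∀ x, g x = 0 → IsNilpotent x := by
    intro x hx
    obtain ⟨c, d, rfl⟩ := IsLocalization.exists_mk'_eq (Algebra.algebraMapSubmonoid C D⁰) x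
    have h1 : g0 (algebraMap C CK c) = 0 := by
      rw [← IsLocalization.mk'_spec CK c d, map_mul, ← hg, hx, zero_mul]
    rw [hg0, map_eq_zero_iff _ (FaithfulSMul.algebraMap_injective S (FractionRing S))] at h1
    obtain ⟨n, hn⟩ := hnil c h1
    refine ⟨n, ?_⟩
    rw [← IsLocalization.mk'_pow, hn, IsLocalization.mk'_zero]
  obtain ⟨μ, hμ, h⟩ := trace_of_nil_field g hsurj hnil'
  refine ⟨μ, hμ, fun c => ?_⟩
  rw [← hg0, ← hg, ← h]
  exact (Algebra.trace_localization D D⁰ c).symm

/-- Trace through a nil quotient. -/
theorem trace_of_nil {D C S : Type*} [CommRing D] [IsDomain D] [CharZero D] [CommRing C]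
    [Algebra D C] [Module.Finite D C] [Module.Free D C] [CommRing S] [IsDomain S] [Algebra D S]
    [Module.Finite D S] [Module.Free D S] (π : C →ₐ[D] S) (hπ : Function.Surjective π)
    (hnil : ∀ x, π x = 0 → IsNilpotent x) :
    ∃ μ μ' : ℕ, μ ≠ 0 ∧ μ' ≠ 0 ∧ ∀ c, (μ' : D) * Algebra.trace D C c =
      μ * Algebra.trace D S (π c) := by
  haveI : Module.IsTorsionFree D S := inferInstance
  obtain ⟨μ, hμ, h⟩ := trace_of_nil_aux π hπ hnil
  obtain ⟨μ', hμ', h'⟩ := trace_of_nil_aux (AlgHom.id D S) Function.surjective_id
    (fun x hx => by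
      have : x = 0 := hx
      rw [this]
      exact IsNilpotent.zero)
  refine ⟨μ, μ', hμ, hμ', fun c => ?_⟩
  apply IsFractionRing.injective D (FractionRing D)
  rw [map_mul, map_mul, h, h', map_natCast, map_natCast, nsmul_eq_mul, nsmul_eq_mul]
  simp only [AlgHom.id_apply]
  ring

end Pool.Agent.Lib.MP_af4f85_ag
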