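import Pool.Agent.Lib.MP_af4f85_ag.Frob
import Pool.Agent.Lib.MP_af4f85_ag.PS

set_option autoImplicit false

namespace Pool.Agent.Lib.MP_af4f85_ag

open MvPowerSeries

/-- level system, elementwise -/
def LevelSys {A B : Type*} [CommRing A] [CommRing B] (φ : A →+* B) (I : Ideal A) (J : B) : Prop :=
  ∃ (n : ℕ) (ρ : B →+ A ⧸ I) (u v : Fin n → B),
    (∀ a b, ρ (φ a * b) = Ideal.Quotient.mk I a * ρ b) ∧
    (∀ (c : B) (a : Fin n → A), (∀ i, Ideal.Quotient.mk I (a i) = ρ (c * u i)) →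
      c - ∑ i, φ (a i) * v i ∈ I.map φ) ∧
    J - ∑ i, u i * v i ∈ I.map φ

section

variable {σ τ : Type*} [Finite σ] [Finite τ] {k : Type*} [Field k]

/-- substitution as a ring hom -/
noncomputable def sh (f : σ → MvPowerSeries τ k) (h : ∀ i, constantCoeff (f i) = 0) :
    MvPowerSeries σ k →+* MvPowerSeries τ k :=
  (substAlgHom (R := k) (hasSubst_of_constantCoeff_zero h)).toRingHom

theorem sh_apply (f : σ → MvPowerSeries τ k) (h : ∀ i, constantCoeff (f i) = 0)
    (a : MvPowerSeries σ k) : sh f h a = subst f a := by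
  change substAlgHom (R := k) (hasSubst_of_constantCoeff_zero h) a = _
  rw [substAlgHom_apply]

@[simp]
theorem sh_X (f : σ → MvPowerSeries τ k) (h : ∀ i, constantCoeff (f i) = 0) (i : σ) :
    sh f h (X i) = f i := by
  rw [sh_apply, subst_X (hasSubst_of_constantCoeff_zero h)]

@[simp]
theorem sh_C (f : σ → MvPowerSeries τ k) (h : ∀ i, constantCoeff (f i) = 0) (c : k) :
    sh f h (C c) = C c := by
  rw [sh_apply, subst_C]

theorem map_sh_mm (f : σ → MvPowerSeries τ k) (h : ∀ i, constantCoeff (f i) = 0) :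
    Ideal.map (sh f h) (mm σ k) = Ideal.span (Set.range f) := by
  unfold mm
  rw [Ideal.map_span, ← Set.range_comp]
  congr 2
  funext i
  exact sh_X f h i

theorem truncTotal_eq_zero_of_mem {N : ℕ} {b : MvPowerSeries σ k} (hb : b ∈ mm σ k ^ N) :
    truncTotal N b = 0 := by
  ext γ
  rw [coeff_truncTotal_eq_ite, MvPolynomial.coeff_zero]
  split_ifs with h
  · exact coeff_of_mem_mm_pow hb γ h
  · rfl

theorem coe_mem_mm_pow {N : ℕ} {p : MvPolynomial σ k}
    (hp : p ∈ MvPolynomial.idealOfVars σ k ^ N) : (p : MvPowerSeries σ k) ∈ mm σ k ^ N := by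
  rw [mem_mm_pow_iff]
  intro γ hγ
  rw [MvPolynomial.coeff_coe]
  exact (MvPolynomial.mem_pow_idealOfVars_iff' N p).mp hp γ hγ

end

section

variable {σ : Type*} [Fintype σ] [DecidableEq σ] {k : Type*} [Field k]

/-- The Jacobian determinant -/
noncomputable def jac (f : σ → MvPowerSeries σ k) : MvPowerSeries σ k :=
  (Matrix.of fun i j => pderiv k j (f i)).det

theorem exists_quot.{u, v} {σ : Type u} {Λ : Type v} [CommRing Λ] (t : σ → MvPolynomial σ Λ) :
    ∃ (Γ : Type (max u v)) (_ : CommRing Γ) (_ : Algebra Λ Γ) (z : σ → Γ),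
      Function.Surjective (MvPolynomial.aeval z : MvPolynomial σ Λ →ₐ[Λ] Γ) ∧
      ∀ p : MvPolynomial σ Λ, MvPolynomial.aeval z p = 0 ↔ p ∈ Ideal.span (Set.range t) := by
  have key : (MvPolynomial.aeval fun i => Ideal.Quotient.mk (Ideal.span (Set.range t))
      (MvPolynomial.X i)) = Ideal.Quotient.mkₐ Λ (Ideal.span (Set.range t)) := by
    apply MvPolynomial.algHom_ext
    intro i
    rw [MvPolynomial.aeval_X]
    rfl
  refine ⟨MvPolynomial σ Λ ⧸ Ideal.span (Set.range t), inferInstance,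
    inferInstance, fun i => Ideal.Quotient.mk _ (MvPolynomial.X i), ?_, ?_⟩
  · intro c
    obtain ⟨p, rfl⟩ := Ideal.Quotient.mk_surjective c
    refine ⟨p, ?_⟩
    rw [key]
    rfl
  · intro p
    rw [key, ← Ideal.Quotient.eq_zero_iff_mem]
    rfl

theorem level (f : σ → MvPowerSeries σ k) (h0 : ∀ i, constantCoeff (f i) = 0) (j K : ℕ)
    (hK : mm σ k ^ K ≤ Ideal.span (Set.range f) ^ j) :
    LevelSys (sh f h0) (mm σ k ^ j) (jac f) := by
  classical
  obtain ⟨φ, hφ⟩ : ∃ φ, φ = sh f h0 := ⟨_, rfl⟩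
  rw [← hφ]
  have hφX : ∀ i, φ (X i) = f i := fun i => by rw [hφ, sh_X]
  have hφC : ∀ c, φ (C c) = C c := fun c => by rw [hφ, sh_C]
  set I := mm σ k ^ j with hI
  have hIφ : I.map φ = Ideal.span (Set.range f) ^ j := by
    rw [hI, Ideal.map_pow, hφ, map_sh_mm]
  obtain ⟨D, hD0, hDK⟩ : ∃ D : ℕ, 0 < D ∧ K + 1 ≤ D := ⟨K + 1, Nat.succ_pos _, le_rfl⟩
  let mk : MvPowerSeries σ k →+* MvPowerSeries σ k ⧸ I := Ideal.Quotient.mk I
  let c1 : k →+* MvPowerSeries σ k ⧸ I := mk.comp C
  let t : σ → MvPolynomial σ (MvPowerSeries σ k ⧸ I) := fun i =>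
    MvPolynomial.map c1 (truncTotal D (f i)) - MvPolynomial.C (mk (X i)) + MvPolynomial.X i ^ D
  have ht : ∀ i, LT D (t i - MvPolynomial.X i ^ D) := by
    intro i
    have e : t i - MvPolynomial.X i ^ D =
        MvPolynomial.map c1 (truncTotal D (f i)) - MvPolynomial.C (mk (X i)) := by
      simp only [t]; ring
    rw [e]
    refine LT.sub (LT.map _ ?_) (LT.C _ hD0)
    intro γ hγ
    rw [coeff_truncTotal_eq_zero _ hγ]
  obtain ⟨Γ, hΓ1, hΓ2, z, hsurj, hker⟩ := exists_quot t
  have hFS := frobSys_poly D t hD0 ht z hsurj hker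
  -- notation
  let ψ : MvPowerSeries σ k →+* Γ := (algebraMap (MvPowerSeries σ k ⧸ I) Γ).comp mk
  let θ : MvPolynomial σ k →+* Γ := MvPolynomial.eval₂Hom (ψ.comp C) z
  have hθ : ∀ p, θ p = MvPolynomial.aeval z (MvPolynomial.map c1 p) := by
    intro p
    rw [MvPolynomial.aeval_def, MvPolynomial.eval₂_map]
    rfl
  have hψI : ∀ b ∈ I, ψ b = 0 := by
    intro b hb
    simp only [ψ, RingHom.comp_apply, mk]
    rw [Ideal.Quotient.eq_zero_iff_mem.mpr hb, map_zero]
  have htz : ∀ i, MvPolynomial.aeval z (t i) = 0 :=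
    fun i => (hker _).mpr (Ideal.subset_span ⟨i, rfl⟩)
  have hθf : ∀ i, θ (truncTotal D (f i)) = ψ (X i) - z i ^ D := by
    intro i
    have h := htz i
    simp only [t, map_add, map_sub, map_pow, MvPolynomial.aeval_X, MvPolynomial.aeval_C] at h
    rw [hθ]
    have e : ψ (X i) = algebraMap _ Γ (mk (X i)) := rfl
    rw [e]
    linear_combination h
  set 𝔫 : Ideal Γ := Ideal.span (Set.range z) with h𝔫
  have hθn : ∀ N, Ideal.map θ (MvPolynomial.idealOfVars σ k ^ N) = 𝔫 ^ N := by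
    intro N
    rw [Ideal.map_pow, MvPolynomial.idealOfVars, Ideal.map_span, ← Set.range_comp]
    congr 3
    funext i
    simp [θ]
  have hz : ∀ i, z i ∈ 𝔫 := fun i => Ideal.subset_span ⟨i, rfl⟩
  have hΘex : ∀ N : ℕ, ∃ Θ : MvPowerSeries σ k →+* Γ ⧸ 𝔫 ^ N,
      (∀ b, Θ b = Ideal.Quotient.mk (𝔫 ^ N) (θ (truncTotal N b))) ∧
      ∀ p : MvPolynomial σ k, Θ (p : MvPowerSeries σ k) = Ideal.Quotient.mk (𝔫 ^ N) (θ p) := by
    intro N
    refine ⟨(Ideal.Quotient.lift (MvPolynomial.idealOfVars σ k ^ N)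
      ((Ideal.Quotient.mk (𝔫 ^ N)).comp θ) (fun a ha => by
        rw [RingHom.comp_apply, Ideal.Quotient.eq_zero_iff_mem, ← hθn N]
        exact Ideal.mem_map_of_mem _ ha)).comp
      (truncTotalAlgHom σ k N).toRingHom, fun b => rfl, fun p => ?_⟩
    have h1 : (truncTotalAlgHom σ k N) (algebraMap (MvPolynomial σ k) (MvPowerSeries σ k) p) =
      algebraMap _ _ p := AlgHom.commutes _ p
    have h2 : algebraMap (MvPolynomial σ k) (MvPowerSeries σ k) p = (p : MvPowerSeries σ k) := rfl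
    rw [h2] at h1
    rw [RingHom.comp_apply]
    have h3 : (truncTotalAlgHom σ k N).toRingHom (p : MvPowerSeries σ k) =
      (truncTotalAlgHom σ k N) (p : MvPowerSeries σ k) := rfl
    rw [h3, h1]
    rfl
  choose Θ hΘ hΘcoe using hΘex
  have hΘ0 : ∀ N, ∀ b ∈ mm σ k ^ N, Θ N b = 0 := by
    intro N b hb
    rw [hΘ, truncTotal_eq_zero_of_mem hb, map_zero, map_zero]
  have hΘf : ∀ N, N ≤ D → ∀ i, Θ N (f i) = Ideal.Quotient.mk (𝔫 ^ N) (ψ (X i)) := by
    intro N hN i
    have h1 := hΘ0 N _ (Ideal.pow_le_pow_right hN (sub_truncTotal_mem D (f i)))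
    rw [map_sub, sub_eq_zero] at h1
    rw [h1, hΘcoe, hθf, map_sub, map_pow]
    have h2 : (Ideal.Quotient.mk (𝔫 ^ N)) (z i) ^ D = 0 := by
      rw [← map_pow, Ideal.Quotient.eq_zero_iff_mem]
      exact Ideal.pow_le_pow_right hN (Ideal.pow_mem_pow (hz i) D)
    rw [h2, sub_zero]
  have hΘspan : ∀ N, N ≤ D → ∀ b ∈ Ideal.span (Set.range f) ^ j, Θ N b = 0 := by
    intro N hN b hb
    have h1 : Ideal.map (Θ N) (Ideal.span (Set.range f)) =
        Ideal.map ((Ideal.Quotient.mk (𝔫 ^ N)).comp ψ) (mm σ k) := by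
      unfold mm
      rw [Ideal.map_span, Ideal.map_span, ← Set.range_comp, ← Set.range_comp]
      congr 2
      funext i
      exact hΘf N hN i
    have h2 : Ideal.map (Θ N) (Ideal.span (Set.range f) ^ j) = ⊥ := by
      rw [Ideal.map_pow, h1, ← Ideal.map_pow, Ideal.map_eq_bot_iff_le_ker]
      intro x hx
      rw [RingHom.mem_ker, RingHom.comp_apply, hψI x hx, map_zero]
    have h3 := Ideal.mem_map_of_mem (Θ N) hb
    rw [h2] at h3
    exact h3
  have hΘφ : ∀ N, N ≤ D → (Θ N).comp φ = (Ideal.Quotient.mk (𝔫 ^ N)).comp ψ := by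
    intro N hN
    refine ringHom_ext_of_pow _ _ ?_ ?_ j ?_ ?_
    · intro c
      rw [RingHom.comp_apply, RingHom.comp_apply, hφC]
      have : (C c : MvPowerSeries σ k) = ((MvPolynomial.C c : MvPolynomial σ k) :
        MvPowerSeries σ k) := by simp
      rw [this, hΘcoe, MvPolynomial.coe_C]
      congr 1
      simp [θ]
    · intro i
      rw [RingHom.comp_apply, RingHom.comp_apply, hφX]
      exact hΘf N hN i
    · intro b hb
      rw [RingHom.comp_apply]
      refine hΘspan N hN _ ?_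
      rw [← hIφ]
      exact Ideal.mem_map_of_mem _ hb
    · intro b hb
      rw [RingHom.comp_apply, hψI b hb, map_zero]
  have hstep : 𝔫 ^ K ≤ 𝔫 ^ (K + 1) := by
    rw [← hθn K, Ideal.map_le_iff_le_comap]
    intro p hp
    rw [Ideal.mem_comap, ← Ideal.Quotient.eq_zero_iff_mem, ← hΘcoe]
    exact hΘspan (K + 1) hDK _ (hK (coe_mem_mm_pow hp))
  have hstep' : ∀ m, 𝔫 ^ K ≤ 𝔫 ^ (K + m) := by
    intro m
    induction m with
    | zero => exact le_rfl
    | succ m ih =>
      calc 𝔫 ^ K ≤ 𝔫 ^ (K + 1) := hstep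
        _ = 𝔫 ^ K * 𝔫 := pow_succ _ _
        _ ≤ 𝔫 ^ (K + m) * 𝔫 := Ideal.mul_mono_left ih
        _ = 𝔫 ^ (K + (m + 1)) := by rw [← pow_succ]; rfl
  have hidem : IsIdempotentElem (𝔫 ^ K) := by
    refine le_antisymm Ideal.mul_le_left ?_
    rw [← pow_add]
    exact hstep' K
  have hfg : (𝔫 ^ K).FG := Ideal.FG.pow (Submodule.fg_span (Set.finite_range z))
  obtain ⟨e, he, he'⟩ := (Ideal.isIdempotentElem_iff_of_fg _ hfg).mp hidem
  obtain ⟨n, ρ, u, v, huv, hJ⟩ := hFS.quot he he'
  have hKD : K ≤ D := by omega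
  have hΘsurj : Function.Surjective (Θ K) := by
    intro c
    obtain ⟨c, rfl⟩ := Ideal.Quotient.mk_surjective c
    obtain ⟨p, rfl⟩ := hsurj c
    induction p using MvPolynomial.induction_on with
    | C a =>
      obtain ⟨a, rfl⟩ := Ideal.Quotient.mk_surjective a
      refine ⟨φ a, ?_⟩
      have := DFunLike.congr_fun (hΘφ K hKD) a
      rw [RingHom.comp_apply, RingHom.comp_apply] at this
      rw [this, MvPolynomial.aeval_C]
      rfl
    | add p q hp hq =>
      obtain ⟨a, ha⟩ := hp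
      obtain ⟨b, hb⟩ := hq
      exact ⟨a + b, by rw [map_add, map_add, map_add, ha, hb]⟩
    | mul_X p i hp =>
      obtain ⟨a, ha⟩ := hp
      refine ⟨a * X i, ?_⟩
      have hXi : Θ K (X i) = Ideal.Quotient.mk (𝔫 ^ K) (z i) := by
        rw [← MvPolynomial.coe_X, hΘcoe]
        simp [θ]
      rw [map_mul, map_mul, map_mul, ha, hXi, MvPolynomial.aeval_X]
  have hΘker : ∀ b, Θ K b = 0 → b ∈ I.map φ := by
    intro b hb
    rw [hΘ, Ideal.Quotient.eq_zero_iff_mem] at hb
    -- the hom to `B / I B`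
    let q : MvPowerSeries σ k →+* MvPowerSeries σ k ⧸ I.map φ := Ideal.Quotient.mk _
    let ε0 : (MvPowerSeries σ k ⧸ I) →+* MvPowerSeries σ k ⧸ I.map φ :=
      Ideal.quotientMap (I.map φ) φ Ideal.le_comap_map
    let ε : MvPolynomial σ (MvPowerSeries σ k ⧸ I) →+* MvPowerSeries σ k ⧸ I.map φ :=
      MvPolynomial.eval₂Hom ε0 (fun i => q (X i))
    have hq0 : ∀ x ∈ mm σ k ^ K, q x = 0 := by
      intro x hx
      rw [Ideal.Quotient.eq_zero_iff_mem, hIφ]
      exact hK hx
    have hεmap : ∀ p : MvPolynomial σ k, ε (MvPolynomial.map c1 p) = q (p : MvPowerSeries σ k) := by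
      intro p
      induction p using MvPolynomial.induction_on with
      | C a =>
        simp only [ε, MvPolynomial.map_C, MvPolynomial.coe_eval₂Hom, MvPolynomial.eval₂_C,
          MvPolynomial.coe_C]
        change ε0 (Ideal.Quotient.mk I (C a)) = _
        rw [Ideal.quotientMap_mk, hφC]
      | add p q hp hq => rw [map_add, map_add, MvPolynomial.coe_add, map_add, hp, hq]
      | mul_X p i hp =>
        rw [map_mul, map_mul, MvPolynomial.coe_mul, map_mul, hp, MvPolynomial.map_X,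
          MvPolynomial.coe_X]
        simp [ε]
    have hεt : ∀ i, ε (t i) = 0 := by
      intro i
      simp only [t, map_add, map_sub, hεmap, map_pow]
      have h1 : ε (MvPolynomial.C (mk (X i))) = q (f i) := by
        simp only [ε, MvPolynomial.coe_eval₂Hom, MvPolynomial.eval₂_C]
        change ε0 (Ideal.Quotient.mk I (X i)) = _
        rw [Ideal.quotientMap_mk, hφX]
      have h2 : ε (MvPolynomial.X i) = q (X i) := by simp [ε]
      rw [h1, h2, ← map_pow]
      have h3 : q (f i - (truncTotal D (f i) : MvPolynomial σ k)) = 0 :=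
        hq0 _ (Ideal.pow_le_pow_right hKD (sub_truncTotal_mem D (f i)))
      have h4 : q (X i ^ D) = 0 :=
        hq0 _ (Ideal.pow_le_pow_right hKD (Ideal.pow_mem_pow (X_mem_mm i) D))
      rw [map_sub, sub_eq_zero] at h3
      rw [h3, h4, sub_self, add_zero]
    have hε : ∀ p, MvPolynomial.aeval z p = 0 → ε p = 0 := by
      intro p hp
      have h1 : p ∈ RingHom.ker ε := by
        have : Ideal.span (Set.range t) ≤ RingHom.ker ε := by
          rw [Ideal.span_le]
          rintro _ ⟨i, rfl⟩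
          exact hεt i
        exact this ((hker p).mp hp)
      exact h1
    have h5 : 𝔫 ^ K = Ideal.map (MvPolynomial.aeval z : MvPolynomial σ (MvPowerSeries σ k ⧸ I) →ₐ[_] Γ)
        (MvPolynomial.idealOfVars σ (MvPowerSeries σ k ⧸ I) ^ K) := by
      rw [Ideal.map_pow, MvPolynomial.idealOfVars, Ideal.map_span, ← Set.range_comp]
      have e5 : (⇑(MvPolynomial.aeval z : MvPolynomial σ (MvPowerSeries σ k ⧸ I) →ₐ[_] Γ) ∘
        MvPolynomial.X) = z := by
        funext i
        simp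
      rw [e5]
    rw [h5] at hb
    obtain ⟨p, hp, hp'⟩ := (Ideal.mem_map_iff_of_surjective
      (MvPolynomial.aeval z : MvPolynomial σ (MvPowerSeries σ k ⧸ I) →ₐ[_] Γ) hsurj).mp hb
    have h6 : ε (p - MvPolynomial.map c1 (truncTotal K b)) = 0 := by
      apply hε
      rw [map_sub, hp', hθ, sub_self]
    have h7 : ε p = 0 := by
      have h8 : Ideal.map ε (MvPolynomial.idealOfVars σ (MvPowerSeries σ k ⧸ I)) =
          Ideal.map q (mm σ k) := by
        unfold mm
        rw [MvPolynomial.idealOfVars, Ideal.map_span, Ideal.map_span, ← Set.range_comp,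
          ← Set.range_comp]
        congr 2
        funext i
        simp [ε]
      have h8' : Ideal.map q (mm σ k ^ K) = ⊥ := by
        rw [Ideal.map_eq_bot_iff_le_ker]
        exact fun x hx => hq0 x hx
      have h9 : Ideal.map ε (MvPolynomial.idealOfVars σ (MvPowerSeries σ k ⧸ I) ^ K) = ⊥ :=
        calc Ideal.map ε (MvPolynomial.idealOfVars σ (MvPowerSeries σ k ⧸ I) ^ K) =
            (Ideal.map ε (MvPolynomial.idealOfVars σ (MvPowerSeries σ k ⧸ I))) ^ K :=
              Ideal.map_pow _ _ _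
          _ = (Ideal.map q (mm σ k)) ^ K := by rw [h8]
          _ = Ideal.map q (mm σ k ^ K) := (Ideal.map_pow _ _ _).symm
          _ = ⊥ := h8'
      exact h9.le (Ideal.mem_map_of_mem ε hp)
    rw [map_sub, h7, zero_sub, neg_eq_zero, hεmap] at h6
    have h9 := hq0 _ (sub_truncTotal_mem K b)
    rw [map_sub, h6, sub_zero] at h9
    exact Ideal.Quotient.eq_zero_iff_mem.mp h9
  choose u' hu' using fun i => hΘsurj (u i)
  choose v' hv' using fun i => hΘsurj (v i)
  refine ⟨n, ρ.toAddMonoidHom.comp (Θ K).toAddMonoidHom, u', v', ?_, ?_, ?_⟩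
  · intro a b
    change ρ (Θ K (φ a * b)) = Ideal.Quotient.mk I a * ρ (Θ K b)
    have h1 := DFunLike.congr_fun (hΘφ K hKD) a
    rw [RingHom.comp_apply, RingHom.comp_apply] at h1
    rw [map_mul, h1]
    have h2 : (Ideal.Quotient.mk (𝔫 ^ K)) (ψ a) * Θ K b = (Ideal.Quotient.mk I a) • Θ K b :=
      (Algebra.smul_def (Ideal.Quotient.mk I a) (Θ K b)).symm
    rw [h2, map_smul, smul_eq_mul]
  · intro c a ha
    apply hΘker
    rw [map_sub, sub_eq_zero, map_sum]
    rw [huv (Θ K c)]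
    refine Finset.sum_congr rfl fun i _ => ?_
    have h1 := DFunLike.congr_fun (hΘφ K hKD) (a i)
    rw [RingHom.comp_apply, RingHom.comp_apply] at h1
    have h2 : Ideal.Quotient.mk I (a i) = ρ (Θ K (c * u' i)) := ha i
    rw [map_mul, hu'] at h2
    rw [← h2, map_mul, hv', h1, Algebra.smul_def]
    rfl
  · apply hΘker
    rw [map_sub, sub_eq_zero, map_sum]
    have h1 : ∑ i, Θ K (u' i * v' i) = ∑ i, u i * v i :=
      Finset.sum_congr rfl fun i _ => by rw [map_mul, hu', hv']
    rw [h1, hJ, jac, RingHom.map_det, RingHom.map_det]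
    congr 1
    ext i l
    simp only [RingHom.mapMatrix_apply, Matrix.map_apply, Matrix.of_apply]
    have h2 : pderiv k l (f i) = ((MvPolynomial.pderiv l (truncTotal D (f i)) :
        MvPolynomial σ k) : MvPowerSeries σ k) +
        pderiv k l (f i - (truncTotal D (f i) : MvPolynomial σ k)) := by
      rw [map_sub, pderiv_coe]
      ring
    have h3 : pderiv k l (f i - (truncTotal D (f i) : MvPolynomial σ k)) ∈ mm σ k ^ K := by
      rw [mem_mm_pow_iff]
      intro γ hγ
      rw [coeff_pderiv, coeff_of_mem_mm_pow (sub_truncTotal_mem D (f i)), zero_mul]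
      rw [map_add, Finsupp.degree_single]
      omega
    rw [h2, map_add, hΘ0 K _ h3, add_zero, hΘcoe, hθ]
    simp only [t, map_add, map_sub, MvPolynomial.pderiv_C, Derivation.leibniz_pow,
      MvPolynomial.pderiv_X, sub_zero, MvPolynomial.pderiv_map]
    have h4 : Ideal.Quotient.mk (𝔫 ^ K) (MvPolynomial.aeval z
        (D • (MvPolynomial.X i : MvPolynomial σ (MvPowerSeries σ k ⧸ I)) ^ (D - 1) •
          Pi.single (M := fun _ => MvPolynomial σ (MvPowerSeries σ k ⧸ I)) l 1 i)) = 0 := by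
      rw [Ideal.Quotient.eq_zero_iff_mem]
      rw [map_nsmul, smul_eq_mul, map_mul, map_pow, MvPolynomial.aeval_X]
      refine nsmul_mem (Ideal.mul_mem_right _ _ ?_) D
      exact Ideal.pow_le_pow_right (by omega) (Ideal.pow_mem_pow (hz i) (D - 1))
    rw [h4, add_zero]

end

end Pool.Agent.Lib.MP_af4f85_ag
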