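import Pool.Agent.Lib.MP_af4f85_ag.Level

set_option autoImplicit false

namespace Pool.Agent.Lib.MP_af4f85_ag

theorem krull_closed' {R : Type*} [CommRing R] [IsLocalRing R] [IsNoetherianRing R] (I : Ideal R)
    {b : R} (h : ∀ N, b ∈ I ⊔ IsLocalRing.maximalIdeal R ^ N) : b ∈ I := by
  by_cases hI : I = ⊤
  · rw [hI]; trivial
  have : Nontrivial (R ⧸ I) := Ideal.Quotient.nontrivial_iff.mpr hI
  have : IsLocalRing (R ⧸ I) :=
    IsLocalRing.of_surjective' (Ideal.Quotient.mk I) Ideal.Quotient.mk_surjective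
  have h1 : Ideal.Quotient.mk I b ∈
      ⨅ N : ℕ, (IsLocalRing.maximalIdeal (R ⧸ I)) ^ N := by
    rw [Ideal.mem_iInf]
    intro N
    obtain ⟨x, hx, y, hy, hxy⟩ := Submodule.mem_sup.mp (h N)
    rw [← hxy, map_add, Ideal.Quotient.eq_zero_iff_mem.mpr hx, zero_add]
    have h2 : Ideal.map (Ideal.Quotient.mk I) (IsLocalRing.maximalIdeal R) ≤
        IsLocalRing.maximalIdeal (R ⧸ I) := by
      refine IsLocalRing.le_maximalIdeal fun htop => ?_
      have h4 : Ideal.comap (Ideal.Quotient.mk I) (Ideal.map (Ideal.Quotient.mk I)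
          (IsLocalRing.maximalIdeal R)) = ⊤ := by rw [htop, Ideal.comap_top]
      rw [Ideal.comap_map_of_surjective _ Ideal.Quotient.mk_surjective, ← RingHom.ker_eq_comap_bot,
        Ideal.mk_ker, sup_eq_left.mpr (IsLocalRing.le_maximalIdeal hI)] at h4
      exact (IsLocalRing.maximalIdeal.isMaximal _).ne_top h4
    have h3 := Ideal.mem_map_of_mem (Ideal.Quotient.mk I) hy
    rw [Ideal.map_pow] at h3
    exact Ideal.pow_right_mono h2 N h3
  rw [Ideal.iInf_pow_eq_bot_of_isLocalRing _ (IsLocalRing.maximalIdeal.isMaximal _).ne_top] at h1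
  exact Ideal.Quotient.eq_zero_iff_mem.mp h1

section

variable {A B : Type*} [CommRing A] [CommRing B] [Algebra A B]

theorem LevelSys.ρ_zero {I : Ideal A} {ρ : B →+ A ⧸ I}
    (hρ : ∀ a b, ρ (algebraMap A B a * b) = Ideal.Quotient.mk I a * ρ b) {x : B}
    (hx : x ∈ I.map (algebraMap A B)) : ρ x = 0 := by
  rw [Ideal.map] at hx
  have key : ∀ y, ρ (y * x) = 0 := by
    refine Submodule.span_induction (p := fun x _ => ∀ y, ρ (y * x) = 0) ?_ ?_ ?_ ?_ hx
    · rintro _ ⟨a, ha, rfl⟩ y
      rw [mul_comm, hρ, Ideal.Quotient.eq_zero_iff_mem.mpr ha, zero_mul]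
    · intro y
      rw [mul_zero, map_zero]
    · intro x z _ _ hx hz y
      rw [mul_add, map_add, hx, hz, add_zero]
    · intro a x _ hx y
      rw [smul_eq_mul, ← mul_assoc, hx]
  simpa using key 1

variable [IsLocalRing A]

omit [IsLocalRing A] in
theorem lin_mem (l : B →ₗ[A] A) {I : Ideal A} {x : B} (hx : x ∈ I.map (algebraMap A B)) :
    l x ∈ I := by
  rw [Ideal.map] at hx
  have key : ∀ y, l (y * x) ∈ I := by
    refine Submodule.span_induction (p := fun x _ => ∀ y, l (y * x) ∈ I) ?_ ?_ ?_ ?_ hx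
    · rintro _ ⟨a, ha, rfl⟩ y
      rw [mul_comm, ← Algebra.smul_def, map_smul, smul_eq_mul]
      exact Ideal.mul_mem_right _ _ ha
    · intro y
      rw [mul_zero, map_zero]
      exact I.zero_mem
    · intro x z _ _ hx hz y
      rw [mul_add, map_add]
      exact I.add_mem (hx y) (hz y)
    · intro a x _ hx y
      rw [smul_eq_mul, ← mul_assoc]
      exact hx _
  simpa using key 1

/-- minimal generators -/
theorem exists_min_gen [Module.Finite A B] :
    ∃ (d : ℕ) (e : Fin d → B), Submodule.span A (Set.range e) = ⊤ ∧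
      ∀ a : Fin d → A, (∑ i, a i • e i ∈
        (IsLocalRing.maximalIdeal A).map (algebraMap A B)) →
        ∀ i, a i ∈ IsLocalRing.maximalIdeal A := by
  classical
  have hex : ∃ d : ℕ, ∃ e : Fin d → B, Submodule.span A (Set.range e) = ⊤ := by
    obtain ⟨n, s, hs⟩ := Module.Finite.exists_fin (R := A) (M := B)
    exact ⟨n, s, hs⟩
  have hspec := Nat.find_spec hex
  have hmin : ∀ m, (∃ e : Fin m → B, Submodule.span A (Set.range e) = ⊤) → Nat.find hex ≤ m :=
    fun m h => Nat.find_min' hex h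
  generalize Nat.find hex = d at hspec hmin
  obtain ⟨e, he⟩ := hspec
  refine ⟨d, e, he, fun a ha l => ?_⟩
  by_contra hl
  have hunit : IsUnit (a l) := by
    rwa [IsLocalRing.mem_maximalIdeal, mem_nonunits_iff, not_not] at hl
  -- drop `l`
  have hmB : ∀ x ∈ (IsLocalRing.maximalIdeal A).map (algebraMap A B),
      x ∈ (IsLocalRing.maximalIdeal A) • (⊤ : Submodule A B) := by
    intro x hx
    rw [Ideal.smul_top_eq_map]
    exact hx
  set N : Submodule A B := Submodule.span A (e '' {i | i ≠ l}) with hN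
  have h1 : (⊤ : Submodule A B) ≤ N ⊔ (IsLocalRing.maximalIdeal A) • (⊤ : Submodule A B) := by
    rw [← he, Submodule.span_le]
    rintro _ ⟨i, rfl⟩
    by_cases hi : i = l
    · subst hi
      have h2 : a i • e i = (∑ i, a i • e i) - ∑ j ∈ Finset.univ.erase i, a j • e j := by
        rw [← Finset.add_sum_erase _ _ (Finset.mem_univ i)]
        abel
      have h3 : a i • e i ∈ N ⊔ (IsLocalRing.maximalIdeal A) • (⊤ : Submodule A B) := by
        rw [h2]
        refine Submodule.sub_mem _ (Submodule.mem_sup_right (hmB _ ha))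
          (Submodule.mem_sup_left (Submodule.sum_mem _ fun j hj => ?_))
        exact Submodule.smul_mem _ _ (Submodule.subset_span ⟨j, Finset.ne_of_mem_erase hj, rfl⟩)
      obtain ⟨u, hu⟩ := hunit
      have h4 : e i = (↑u⁻¹ : A) • (a i • e i) := by
        rw [← hu, smul_smul, Units.inv_mul, one_smul]
      rw [SetLike.mem_coe, he, h4]
      exact Submodule.smul_mem _ _ h3
    · exact Submodule.mem_sup_left (Submodule.subset_span ⟨i, hi, rfl⟩)
  have h5 : (⊤ : Submodule A B) ≤ N :=
    Submodule.le_of_le_smul_of_le_jacobson_bot Module.Finite.fg_top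
      (IsLocalRing.maximalIdeal_le_jacobson _) h1
  have h6 : ∃ e' : Fin (d - 1) → B, Submodule.span A (Set.range e') = ⊤ := by
    have hdpos : 0 < d := l.pos
    have hcard : Fintype.card {i : Fin d // i ≠ l} = d - 1 := by
      simp [Fintype.card_subtype_compl]
    let f := (Fintype.equivFinOfCardEq hcard).symm
    refine ⟨fun i => e (f i).1, ?_⟩
    rw [eq_top_iff]
    refine h5.trans (Submodule.span_mono ?_)
    rintro _ ⟨i, hi, rfl⟩
    exact ⟨f.symm ⟨i, hi⟩, by simp⟩
  have := hmin _ h6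
  have := l.pos
  omega

/-- independence at level `I` -/
theorem LevelSys.indep {I : Ideal A} {J : B} (hL : LevelSys (algebraMap A B) I J)
    (hI : I ≤ IsLocalRing.maximalIdeal A) {d : ℕ} {e : Fin d → B}
    (he : Submodule.span A (Set.range e) = ⊤)
    (he' : ∀ a : Fin d → A, (∑ i, a i • e i ∈
        (IsLocalRing.maximalIdeal A).map (algebraMap A B)) →
        ∀ i, a i ∈ IsLocalRing.maximalIdeal A)
    (a : Fin d → A) (ha : ∑ i, a i • e i ∈ I.map (algebraMap A B)) (i : Fin d) : a i ∈ I := by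
  classical
  obtain ⟨n, ρ, u, v, hρ, hsys, -⟩ := hL
  have hspan : ∀ x : B, ∃ c : Fin d → A, ∑ i, c i • e i = x := by
    intro x
    have : x ∈ Submodule.span A (Set.range e) := by rw [he]; trivial
    exact (Submodule.mem_span_range_iff_exists_fun A).mp this
  choose V hV using fun α => hspan (v α)
  choose r hr using fun (l : Fin d) (α : Fin n) => Ideal.Quotient.mk_surjective (ρ (e l * u α))
  let Q : Matrix (Fin d) (Fin d) A := Matrix.of fun l i => ∑ α, r l α * V α i
  have hQ1 : ∀ l, e l - ∑ i, Q l i • e i ∈ I.map (algebraMap A B) := by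
    intro l
    have h1 := hsys (e l) (r l) (fun α => hr l α)
    have h2 : ∑ α, algebraMap A B (r l α) * v α = ∑ i, Q l i • e i := by
      simp only [Q, Matrix.of_apply, Finset.sum_smul]
      rw [Finset.sum_comm]
      refine Finset.sum_congr rfl fun α _ => ?_
      rw [← hV α, Finset.mul_sum]
      refine Finset.sum_congr rfl fun i _ => ?_
      rw [mul_smul, Algebra.smul_def (r l α)]
    rwa [h2] at h1
  have hQ2 : ∀ l i, (if l = i then 1 else 0) - Q l i ∈ IsLocalRing.maximalIdeal A := by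
    intro l
    apply he'
    have h1 : ∑ i, ((if l = i then 1 else 0) - Q l i) • e i = e l - ∑ i, Q l i • e i := by
      simp [sub_smul, Finset.sum_sub_distrib]
    rw [h1]
    exact Ideal.map_mono hI (hQ1 l)
  have hdet : IsUnit Q.det := by
    by_contra hnu
    have h1 : Q.det ∈ IsLocalRing.maximalIdeal A := hnu
    have h2 : Ideal.Quotient.mk (IsLocalRing.maximalIdeal A) Q.det = 1 := by
      rw [RingHom.map_det]
      have : (Ideal.Quotient.mk (IsLocalRing.maximalIdeal A)).mapMatrix Q = 1 := by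
        ext l i
        have := hQ2 l i
        rw [← Ideal.Quotient.eq_zero_iff_mem, map_sub, sub_eq_zero] at this
        rw [RingHom.mapMatrix_apply, Matrix.map_apply, ← this, Matrix.one_apply]
        split_ifs <;> simp
      rw [this, Matrix.det_one]
    rw [Ideal.Quotient.eq_zero_iff_mem.mpr h1] at h2
    exact zero_ne_one h2
  -- `a ᵥ* Q ∈ I`
  have haQ : ∀ i, ∑ l, a l * Q l i ∈ I := by
    intro i
    rw [← Ideal.Quotient.eq_zero_iff_mem, map_sum]
    have h1 : ∀ α, ∑ l, Ideal.Quotient.mk I (a l) * Ideal.Quotient.mk I (r l α) = 0 := by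
      intro α
      have h2 : ρ ((∑ l, a l • e l) * u α) = 0 :=
        LevelSys.ρ_zero hρ (Ideal.mul_mem_right _ _ ha)
      rw [Finset.sum_mul, map_sum] at h2
      rw [← h2]
      refine Finset.sum_congr rfl fun l _ => ?_
      rw [hr, Algebra.smul_def, mul_assoc, hρ]
    have h3 : ∑ l, Ideal.Quotient.mk I (a l * Q l i) =
        ∑ α, (∑ l, Ideal.Quotient.mk I (a l) * Ideal.Quotient.mk I (r l α)) *
          Ideal.Quotient.mk I (V α i) := by
      simp only [Q, Matrix.of_apply, map_mul, map_sum, Finset.mul_sum, Finset.sum_mul]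
      rw [Finset.sum_comm]
      refine Finset.sum_congr rfl fun α _ => Finset.sum_congr rfl fun l _ => ?_
      ring
    rw [h3]
    exact Finset.sum_eq_zero fun α _ => by rw [h1, zero_mul]
  have hfin : ∀ i, Q.det * a i ∈ I := by
    intro i
    have h1 : Matrix.vecMul (Matrix.vecMul a Q) Q.adjugate = Q.det • a := by
      rw [Matrix.vecMul_vecMul, Matrix.mul_adjugate, Matrix.vecMul_smul, Matrix.vecMul_one]
    have h2 := congrFun h1 i
    rw [Pi.smul_apply, smul_eq_mul] at h2
    rw [← h2]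
    simp only [Matrix.vecMul, dotProduct]
    exact Ideal.sum_mem _ fun j _ => Ideal.mul_mem_right _ _ (haQ j)
  obtain ⟨w, hw⟩ := hdet
  have := Ideal.mul_mem_left I (↑w⁻¹ : A) (hfin i)
  rwa [← mul_assoc, ← hw, Units.inv_mul, one_mul] at this

end

section T1

variable {A B : Type*} [CommRing A] [IsLocalRing A] [IsNoetherianRing A] [CharZero A]
  [CommRing B] [IsDomain B] [IsLocalRing B] [IsNoetherianRing B] [Algebra A B]
  [Module.Finite A B]

/-- The residue package. -/
def ResPkg (A B : Type*) [CommRing A] [CommRing B] [Algebra A B] (J : B) : Prop :=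
  ∃ Φ : B →ₗ[A] A, (∀ b, Algebra.trace A B b = Φ (J * b)) ∧
    (∀ l : B →ₗ[A] A, ∃ c, ∀ b, l b = Φ (c * b)) ∧
    (∀ (𝔞 : Ideal A) (b : B), (∀ g, Φ (b * g) ∈ 𝔞) → b ∈ 𝔞.map (algebraMap A B)) ∧ J ≠ 0

theorem basis_of_levels {J : B}
    (hlev : ∀ j : ℕ, 1 ≤ j → LevelSys (algebraMap A B) (IsLocalRing.maximalIdeal A ^ j) J)
    {d : ℕ} {e : Fin d → B} (he : Submodule.span A (Set.range e) = ⊤)
    (he' : ∀ a : Fin d → A, (∑ i, a i • e i ∈
        (IsLocalRing.maximalIdeal A).map (algebraMap A B)) →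
        ∀ i, a i ∈ IsLocalRing.maximalIdeal A) :
    ∃ β : Module.Basis (Fin d) A B, ∀ i, β i = e i := by
  have hli : LinearIndependent A e := by
    rw [Fintype.linearIndependent_iff]
    intro a ha i
    have h1 : a i ∈ ⨅ N : ℕ, (IsLocalRing.maximalIdeal A) ^ N := by
      rw [Ideal.mem_iInf]
      intro N
      have h2 := LevelSys.indep (hlev (N + 1) (by omega))
        (Ideal.pow_le_self (by omega)) he he' a (by rw [ha]; exact Submodule.zero_mem _) i
      exact Ideal.pow_le_pow_right (Nat.le_succ N) h2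
    rw [Ideal.iInf_pow_eq_bot_of_isLocalRing _ (IsLocalRing.maximalIdeal.isMaximal _).ne_top] at h1
    exact h1
  exact ⟨Module.Basis.mk hli he.ge, fun i => Module.Basis.mk_apply _ _ i⟩

theorem resPkg_of_levels {J : B}
    (hloc : (IsLocalRing.maximalIdeal A).map (algebraMap A B) ≤ IsLocalRing.maximalIdeal B)
    (hlev : ∀ j : ℕ, 1 ≤ j → LevelSys (algebraMap A B) (IsLocalRing.maximalIdeal A ^ j) J) :
    Module.Free A B ∧ ResPkg A B J := by
  classical
  obtain ⟨d, e, he, he'⟩ := exists_min_gen (A := A) (B := B)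
  obtain ⟨β, hβ⟩ := basis_of_levels hlev he he'
  have hfree : Module.Free A B := Module.Free.of_basis β
  refine ⟨hfree, ?_⟩
  set 𝔪 := IsLocalRing.maximalIdeal A with h𝔪
  have hexp : ∀ b : B, b = ∑ i, (β.repr b i) • β i := fun b => (β.sum_repr b).symm
  -- `Φ₀`
  obtain ⟨n₁, ρ₁, u₁, v₁, hρ₁, hsys₁, hJ₁⟩ := hlev 1 le_rfl
  choose r₁ hr₁ using fun i => Ideal.Quotient.mk_surjective (ρ₁ (β i))
  let Φ₀ : B →ₗ[A] A := β.constr A r₁
  have hΦ₀ : ∀ b, Ideal.Quotient.mk (𝔪 ^ 1) (Φ₀ b) = ρ₁ b := by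
    intro b
    conv_lhs => rw [hexp b]
    conv_rhs => rw [hexp b]
    rw [map_sum, map_sum, map_sum]
    refine Finset.sum_congr rfl fun i _ => ?_
    rw [map_smul, smul_eq_mul, map_mul, Algebra.smul_def, hρ₁]
    congr 1
    rw [← hr₁ i]
    simp [Φ₀]
  -- level comparison of functionals
  have hcomp : ∀ (I : Ideal A) (n : ℕ) (ρ : B →+ A ⧸ I) (u v : Fin n → B),
      (∀ a b, ρ (algebraMap A B a * b) = Ideal.Quotient.mk I a * ρ b) →
      (∀ (c : B) (a : Fin n → A), (∀ i, Ideal.Quotient.mk I (a i) = ρ (c * u i)) →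
        c - ∑ i, algebraMap A B (a i) * v i ∈ I.map (algebraMap A B)) →
      ∀ (l : B →ₗ[A] A) (c : B), Ideal.Quotient.mk I (l c) =
        ρ (c * ∑ i, algebraMap A B (l (v i)) * u i) := by
    intro I n ρ u v hρ hsys l c
    choose r hr using fun i => Ideal.Quotient.mk_surjective (ρ (c * u i))
    have h1 := hsys c r hr
    have h2 : l (c - ∑ i, algebraMap A B (r i) * v i) ∈ I := lin_mem l h1
    rw [map_sub, ← Ideal.Quotient.eq_zero_iff_mem, map_sub, sub_eq_zero] at h2
    rw [h2, map_sum, map_sum, Finset.mul_sum, map_sum]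
    refine Finset.sum_congr rfl fun i _ => ?_
    rw [← Algebra.smul_def, map_smul, smul_eq_mul, map_mul, hr]
    rw [show c * (algebraMap A B (l (v i)) * u i) = algebraMap A B (l (v i)) * (c * u i) by ring,
      hρ, mul_comm]
  -- surjectivity of `c ↦ Φ₀ (c * ·)`
  let T : B →ₗ[A] (B →ₗ[A] A) :=
    { toFun := fun c => Φ₀ ∘ₗ LinearMap.mulLeft A c
      map_add' := fun x y => by ext b; simp [add_mul]
      map_smul' := fun a x => by ext b; simp }
  have hT : ∀ c b, T c b = Φ₀ (c * b) := fun c b => rfl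
  have hTsurj : LinearMap.range T = ⊤ := by
    rw [eq_top_iff]
    refine Submodule.le_of_le_smul_of_le_jacobson_bot (I := 𝔪) Module.Finite.fg_top
      (IsLocalRing.maximalIdeal_le_jacobson _) ?_
    intro l _
    set w : B := ∑ i, algebraMap A B (l (v₁ i)) * u₁ i with hw
    have h1 : ∀ c, (l - T w) c ∈ 𝔪 := by
      intro c
      have h2 := hcomp _ n₁ ρ₁ u₁ v₁ hρ₁ hsys₁ l c
      rw [← hw, ← hΦ₀, mul_comm, ← hT] at h2
      rw [LinearMap.sub_apply]
      have h3 := Ideal.Quotient.eq.mp h2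
      rwa [pow_one] at h3
    have h2 : l = T w + (l - T w) := by abel
    rw [h2]
    refine Submodule.add_mem _ (Submodule.mem_sup_left ⟨w, rfl⟩) (Submodule.mem_sup_right ?_)
    have h3 : l - T w = ∑ i, ((l - T w) (β i)) • β.coord i := by
      apply β.ext
      intro j
      rw [LinearMap.sum_apply]
      simp [Finsupp.single_apply]
    rw [h3]
    exact Submodule.sum_mem _ fun i _ =>
      Submodule.smul_mem_smul (h1 (β i)) Submodule.mem_top
  have hTs : ∀ l : B →ₗ[A] A, ∃ c, ∀ b, l b = Φ₀ (c * b) := by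
    intro l
    have : l ∈ LinearMap.range T := by rw [hTsurj]; trivial
    obtain ⟨c, rfl⟩ := this
    exact ⟨c, fun b => rfl⟩
  -- perfectness
  have hperf : ∀ (𝔞 : Ideal A) (b : B), (∀ g, Φ₀ (b * g) ∈ 𝔞) → b ∈ 𝔞.map (algebraMap A B) := by
    intro 𝔞 b hb
    rw [hexp b]
    refine Ideal.sum_mem _ fun i _ => ?_
    rw [Algebra.smul_def]
    refine Ideal.mul_mem_right _ _ (Ideal.mem_map_of_mem _ ?_)
    obtain ⟨c, hc⟩ := hTs (β.coord i)
    have := hc b
    rw [Module.Basis.coord_apply] at this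
    rw [this, mul_comm]
    exact hb c
  obtain ⟨ε, hε⟩ := hTs (Algebra.trace A B)
  -- the trace at level `j`
  have htr : ∀ (I : Ideal A) (n : ℕ) (ρ : B →+ A ⧸ I) (u v : Fin n → B),
      (∀ a b, ρ (algebraMap A B a * b) = Ideal.Quotient.mk I a * ρ b) →
      (∀ (c : B) (a : Fin n → A), (∀ i, Ideal.Quotient.mk I (a i) = ρ (c * u i)) →
        c - ∑ i, algebraMap A B (a i) * v i ∈ I.map (algebraMap A B)) →
      J - ∑ i, u i * v i ∈ I.map (algebraMap A B) →
      ∀ c, Ideal.Quotient.mk I (Algebra.trace A B c) = ρ (c * J) := by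
    intro I n ρ u v hρ hsys hJ c
    rw [Algebra.trace_eq_matrix_trace β, Matrix.trace, map_sum]
    have h1 : ∀ i, Ideal.Quotient.mk I ((Algebra.leftMulMatrix β c).diag i) =
        ∑ α, ρ (c * u α * (β.repr (v α) i • β i)) := by
      intro i
      rw [Matrix.diag_apply, Algebra.leftMulMatrix_eq_repr_mul]
      choose r hr using fun α => Ideal.Quotient.mk_surjective (ρ (c * β i * u α))
      have h2 := hsys (c * β i) r hr
      have h3 := lin_mem (β.coord i) h2
      rw [map_sub, ← Ideal.Quotient.eq_zero_iff_mem, map_sub, sub_eq_zero] at h3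
      rw [Module.Basis.coord_apply] at h3
      rw [h3, map_sum, map_sum]
      refine Finset.sum_congr rfl fun α _ => ?_
      rw [← Algebra.smul_def, map_smul, smul_eq_mul, map_mul, hr, Module.Basis.coord_apply,
        Algebra.smul_def, show c * u α * (algebraMap A B (β.repr (v α) i) * β i) =
          algebraMap A B (β.repr (v α) i) * (c * β i * u α) by ring, hρ, mul_comm]
    simp_rw [h1]
    rw [Finset.sum_comm]
    have h4 : ∀ α, ∑ i, ρ (c * u α * (β.repr (v α) i • β i)) = ρ (c * (u α * v α)) := by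
      intro α
      rw [← map_sum, ← Finset.mul_sum, ← hexp (v α), mul_assoc]
    simp_rw [h4]
    rw [← map_sum, ← Finset.mul_sum]
    have h5 := LevelSys.ρ_zero hρ (Ideal.mul_mem_left _ c hJ)
    rw [mul_sub, map_sub, sub_eq_zero] at h5
    exact h5.symm
  have hmap_le : ∀ N : ℕ, (𝔪 ^ N).map (algebraMap A B) ≤ IsLocalRing.maximalIdeal B ^ N := by
    intro N
    rw [Ideal.map_pow]
    exact Ideal.pow_right_mono hloc N
  -- `J ∈ (ε)`
  have hJε : J ∈ Ideal.span {ε} := by
    apply krull_closed'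
    intro N
    obtain ⟨n, ρ, u, v, hρ, hsys, hJ⟩ := hlev (N + 1) (by omega)
    set w : B := ∑ i, algebraMap A B (Φ₀ (v i)) * u i with hw
    have h1 : ∀ c, ρ (c * (J - w * ε)) = 0 := by
      intro c
      have h2 := htr _ n ρ u v hρ hsys hJ c
      have h3 := hcomp _ n ρ u v hρ hsys Φ₀ (ε * c)
      rw [hε, h3, ← hw] at h2
      rw [mul_sub, map_sub, ← h2, sub_eq_zero]
      congr 1
      ring
    have h2 := hsys (J - w * ε) (fun _ => 0) (fun i => by
      rw [map_zero, mul_comm, h1])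
    simp only [map_zero, zero_mul, Finset.sum_const_zero, sub_zero] at h2
    have h3 : J = w * ε + (J - w * ε) := by ring
    rw [h3]
    refine Submodule.add_mem _ (Submodule.mem_sup_left ?_) (Submodule.mem_sup_right ?_)
    · exact Ideal.mem_span_singleton'.mpr ⟨w, rfl⟩
    · exact Ideal.pow_le_pow_right (Nat.le_succ N) (hmap_le (N + 1) h2)
  have hεJ : ε ∈ Ideal.span {J} := by
    apply krull_closed'
    intro N
    obtain ⟨n, ρ, u, v, hρ, hsys, hJ⟩ := hlev (N + 1) (by omega)
    -- lift `ρ`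
    choose r hr using fun i => Ideal.Quotient.mk_surjective (ρ (β i))
    let l : B →ₗ[A] A := β.constr A r
    have hl : ∀ b, Ideal.Quotient.mk (𝔪 ^ (N + 1)) (l b) = ρ b := by
      intro b
      conv_lhs => rw [hexp b]
      conv_rhs => rw [hexp b]
      rw [map_sum, map_sum, map_sum]
      refine Finset.sum_congr rfl fun i _ => ?_
      rw [map_smul, smul_eq_mul, map_mul, Algebra.smul_def, hρ]
      congr 1
      rw [← hr i]
      simp [l]
    obtain ⟨w, hw⟩ := hTs l
    have h1 : ∀ c, Φ₀ ((ε - w * J) * c) ∈ 𝔪 ^ (N + 1) := by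
      intro c
      have h2 := htr _ n ρ u v hρ hsys hJ c
      rw [hε, ← hl, hw] at h2
      have h3 := Ideal.Quotient.eq.mp h2
      rw [← map_sub] at h3
      convert h3 using 2
      ring
    have h2 := hperf _ _ h1
    have h3 : ε = w * J + (ε - w * J) := by ring
    rw [h3]
    refine Submodule.add_mem _ (Submodule.mem_sup_left ?_) (Submodule.mem_sup_right ?_)
    · exact Ideal.mem_span_singleton'.mpr ⟨w, rfl⟩
    · exact Ideal.pow_le_pow_right (Nat.le_succ N) (hmap_le (N + 1) h2)
  obtain ⟨b', hb'⟩ := Ideal.mem_span_singleton'.mp hJε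
  obtain ⟨b, hb⟩ := Ideal.mem_span_singleton'.mp hεJ
  have hd : (d : A) ≠ 0 := by
    intro h
    have hd0 : d = 0 := by exact_mod_cast h
    subst hd0
    have : (1 : B) = 0 := by
      rw [hexp 1]
      simp
    exact one_ne_zero this
  have hε0 : ε ≠ 0 := by
    intro h
    have h1 := hε 1
    rw [h, zero_mul, map_zero, ← map_one (algebraMap A B), Algebra.trace_algebraMap_of_basis β,
      Fintype.card_fin] at h1
    simp at h1
    exact hd (by exact_mod_cast h1)
  have hJ0 : J ≠ 0 := by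
    intro h
    rw [h, mul_zero] at hb
    exact hε0 hb.symm
  have hbb : b' * b = 1 := by
    have h1 : (b' * b - 1) * J = 0 := by
      rw [sub_mul, one_mul, mul_assoc, hb, hb', sub_self]
    rcases mul_eq_zero.mp h1 with h | h
    · exact sub_eq_zero.mp h
    · exact absurd h hJ0
  refine ⟨Φ₀ ∘ₗ LinearMap.mulLeft A b, ?_, ?_, ?_, hJ0⟩
  · intro x
    rw [LinearMap.comp_apply, LinearMap.mulLeft_apply, ← mul_assoc, hb]
    exact hε x
  · intro l
    obtain ⟨c, hc⟩ := hTs l
    refine ⟨b' * c, fun x => ?_⟩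
    rw [LinearMap.comp_apply, LinearMap.mulLeft_apply, hc]
    congr 1
    rw [← mul_assoc, ← mul_assoc, mul_comm b b', hbb, one_mul]
  · intro 𝔞 x hx
    have h1 := hperf 𝔞 (b * x) (fun g => by
      have := hx g
      rwa [LinearMap.comp_apply, LinearMap.mulLeft_apply, ← mul_assoc] at this)
    have h2 := Ideal.mul_mem_left _ b' h1
    rwa [← mul_assoc, hbb, one_mul] at h2

end T1

end Pool.Agent.Lib.MP_af4f85_ag
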