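import Pool.Agent.Lib.MP_af4f85_ag.Chain

set_option autoImplicit false

namespace Pool.Agent.Lib.MP_af4f85_ag

open MvPowerSeries

section Abstract

variable {A B : Type*} [CommRing A] [CommRing B] [Algebra A B] [Module.Free A B]
  [Module.Finite A B]

/-- nilpotence of the trace -/
theorem trace_mem_of_radical (𝔭 : Ideal A) [h𝔭 : 𝔭.IsPrime] {b : B}
    (hb : b ∈ (𝔭.map (algebraMap A B)).radical) : Algebra.trace A B b ∈ 𝔭 := by
  classical
  obtain ⟨n, hn⟩ := hb
  let β := Module.Free.chooseBasis A B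
  have hcoord : ∀ x ∈ 𝔭.map (algebraMap A B), ∀ i, β.repr x i ∈ 𝔭 :=
    fun x hx i => lin_mem (β.coord i) hx
  rw [Algebra.trace_eq_matrix_trace β, ← Ideal.Quotient.eq_zero_iff_mem]
  have h1 : (Ideal.Quotient.mk 𝔭) (Matrix.trace (Algebra.leftMulMatrix β b)) =
      Matrix.trace ((Ideal.Quotient.mk 𝔭).mapMatrix (Algebra.leftMulMatrix β b)) := by
    simp [Matrix.trace]
  rw [h1]
  have h2 : IsNilpotent ((Ideal.Quotient.mk 𝔭).mapMatrix (Algebra.leftMulMatrix β b)) := by
    refine ⟨n, ?_⟩
    rw [← map_pow, ← map_pow]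
    ext i j
    rw [RingHom.mapMatrix_apply, Matrix.map_apply, Matrix.zero_apply,
      Ideal.Quotient.eq_zero_iff_mem, Algebra.leftMulMatrix_eq_repr_mul]
    exact hcoord _ (Ideal.mul_mem_right _ _ hn) i
  exact (Matrix.isNilpotent_trace_of_isNilpotent h2).eq_zero

theorem saturated (𝔭 : Ideal A) [h𝔭 : 𝔭.IsPrime] {a : A} (ha : a ∉ 𝔭) {b : B}
    (hb : algebraMap A B a * b ∈ 𝔭.map (algebraMap A B)) : b ∈ 𝔭.map (algebraMap A B) := by
  let β := Module.Free.chooseBasis A B
  rw [← β.sum_repr b]
  refine Ideal.sum_mem _ fun i _ => ?_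
  rw [Algebra.smul_def]
  refine Ideal.mul_mem_right _ _ (Ideal.mem_map_of_mem _ ?_)
  have h1 := lin_mem (β.coord i) hb
  rw [← Algebra.smul_def, map_smul, smul_eq_mul, Module.Basis.coord_apply] at h1
  exact (h𝔭.mem_or_mem h1).resolve_left ha

end Abstract

variable {σ : Type*} [Fintype σ] [DecidableEq σ] {k : Type*} [Field k]

/-- The package of duality facts for a primary system. -/
structure Pkg (f : σ → MvPowerSeries σ k) (h : ∀ i, constantCoeff (f i) = 0) where
  Φ : MvPowerSeries σ k →+ MvPowerSeries σ k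
  Tr : MvPowerSeries σ k →+ MvPowerSeries σ k
  Φ_mul : ∀ a b, Φ (sh f h a * b) = a * Φ b
  Tr_mul : ∀ a b, Tr (sh f h a * b) = a * Tr b
  Tr_eq : ∀ b, Tr b = Φ (jac f * b)
  perf : ∀ (𝔞 : Ideal (MvPowerSeries σ k)) (b : MvPowerSeries σ k),
    (∀ g, Φ (b * g) ∈ 𝔞) → b ∈ 𝔞.map (sh f h)
  mem : ∀ (𝔞 : Ideal (MvPowerSeries σ k)) (b : MvPowerSeries σ k),
    b ∈ 𝔞.map (sh f h) → Φ b ∈ 𝔞
  jac_ne : jac f ≠ 0
  nilp : ∀ (𝔭 : Ideal (MvPowerSeries σ k)), 𝔭.IsPrime → ∀ b, b ∈ (𝔭.map (sh f h)).radical →
    Tr b ∈ 𝔭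
  deg : ∃ d : ℕ, d ≠ 0 ∧ Tr 1 = d
  sat : ∀ (𝔭 : Ideal (MvPowerSeries σ k)), 𝔭.IsPrime → ∀ a, a ∉ 𝔭 → ∀ b,
    sh f h a * b ∈ 𝔭.map (sh f h) → b ∈ 𝔭.map (sh f h)
  diff : ∀ i b, Φ (jac (Function.update f i b)) = pderiv k i (Tr b)
  gen : ∀ l : MvPowerSeries σ k →+ MvPowerSeries σ k, (∀ a b, l (sh f h a * b) = a * l b) →
    ∃ c, ∀ b, l b = Φ (c * b)
  inj : Function.Injective (sh f h)

theorem exists_pkg [CharZero k] (f : σ → MvPowerSeries σ k) (h : ∀ i, constantCoeff (f i) = 0)
    (hf : Prim f) : Nonempty (Pkg f h) := by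
  classical
  obtain ⟨hfin, hfree, Φ, hΦ1, hΦ2, hΦ3, hΦ4⟩ := T1 f h hf
  let tB := toSub f h
  have hsmul : ∀ (a : (MvPowerSeries σ k)) (b : (MvPowerSeries σ k)), tB (sh f h a * b) = a • tB b := by
    intro a b
    rw [Algebra.smul_def, algebraMap_subA, ← map_mul]
  let Φ' : (MvPowerSeries σ k) →+ (MvPowerSeries σ k) := Φ.toAddMonoidHom.comp tB.toAddMonoidHom
  let Tr' : (MvPowerSeries σ k) →+ (MvPowerSeries σ k) := (Algebra.trace (MvPowerSeries σ k) (SubA f h)).toAddMonoidHom.comp tB.toAddMonoidHom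
  have hΦ' : ∀ b, Φ' b = Φ (tB b) := fun b => rfl
  have hTr' : ∀ b, Tr' b = Algebra.trace (MvPowerSeries σ k) (SubA f h) (tB b) := fun b => rfl
  have hmapmem : ∀ (𝔞 : Ideal (MvPowerSeries σ k)) (b : (MvPowerSeries σ k)), b ∈ 𝔞.map (sh f h) ↔
      tB b ∈ 𝔞.map (algebraMap (MvPowerSeries σ k) (SubA f h)) := fun 𝔞 b => Iff.rfl
  have hnt : Nontrivial (SubA f h) := inferInstance
  have hjac : jac f ≠ 0 := fun h0 => hΦ4 (by rw [h0, map_zero])
  have hinj : Function.Injective (sh f h) := by
    rw [injective_iff_map_eq_zero]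
    intro a ha
    let β := Module.Free.chooseBasis (MvPowerSeries σ k) (SubA f h)
    have h1 : a • (1 : SubA f h) = 0 := by
      rw [Algebra.smul_def, algebraMap_subA, ha, map_zero, zero_mul]
    have hne : β.repr (1 : SubA f h) ≠ 0 := by
      intro h0
      exact one_ne_zero ((LinearEquiv.map_eq_zero_iff β.repr).mp h0)
    obtain ⟨i, hi⟩ := Finsupp.ne_iff.mp hne
    have h2 := congrArg (fun x => β.repr x i) h1
    simp only [map_smul, Finsupp.smul_apply, smul_eq_mul, map_zero, Finsupp.zero_apply] at h2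
    exact (mul_eq_zero.mp h2).resolve_right (by simpa using hi)
  refine ⟨{ Φ := Φ', Tr := Tr', Φ_mul := ?_, Tr_mul := ?_, Tr_eq := ?_, perf := ?_, mem := ?_,
            jac_ne := hjac, nilp := ?_, deg := ?_, sat := ?_, diff := ?_, gen := ?_,
            inj := hinj }⟩
  · intro a b
    rw [hΦ', hΦ', hsmul, map_smul, smul_eq_mul]
  · intro a b
    rw [hTr', hTr', hsmul, map_smul, smul_eq_mul]
  · intro b
    rw [hTr', hΦ', map_mul]
    exact hΦ1 (tB b)
  · intro 𝔞 b hb
    rw [hmapmem]
    refine hΦ3 𝔞 (tB b) fun g => ?_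
    have := hb (tB.symm g)
    rwa [hΦ', map_mul, RingEquiv.apply_symm_apply] at this
  · intro 𝔞 b hb
    rw [hmapmem] at hb
    exact lin_mem Φ hb
  · intro 𝔭 h𝔭 b hb
    exact trace_mem_of_radical 𝔭 (b := tB b) hb
  · refine ⟨Module.finrank (MvPowerSeries σ k) (SubA f h), ?_, ?_⟩
    · exact (Module.finrank_pos (R := (MvPowerSeries σ k)) (M := SubA f h)).ne'
    · rw [hTr', map_one]
      have := Algebra.trace_algebraMap (R := (MvPowerSeries σ k)) (S := SubA f h) 1
      rw [map_one] at this
      rw [this, nsmul_eq_mul, mul_one]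
  · intro 𝔭 h𝔭 a ha b hb
    exact saturated 𝔭 ha (b := tB b) hb
  · -- the derivative formula
    intro i b
    let β := Module.Free.chooseBasis (MvPowerSeries σ k) (SubA f h)
    let δ : (MvPowerSeries σ k) → (MvPowerSeries σ k) := fun x => jac (Function.update f i x)
    have hδadd : ∀ x y, δ (x + y) = δ x + δ y := fun x y => jac_update_add f i x y
    have hδmul : ∀ x y, δ (x * y) = x * δ y + y * δ x := fun x y => jac_update_mul f i x y
    have hδsh : ∀ a, δ (sh f h a) = sh f h (pderiv k i a) * jac f := fun a => jac_update_sh f h i a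
    have hδsum : ∀ (s : Finset (Module.Free.ChooseBasisIndex (MvPowerSeries σ k) (SubA f h))) (g : _ → (MvPowerSeries σ k)),
        δ (∑ x ∈ s, g x) = ∑ x ∈ s, δ (g x) := by
      intro s g
      induction s using Finset.induction_on with
      | empty =>
        have := hδadd 0 0
        rw [add_zero] at this
        simpa using this
      | insert x s hx ih => rw [Finset.sum_insert hx, Finset.sum_insert hx, hδadd, ih]
    let M : (MvPowerSeries σ k) → Matrix _ _ (MvPowerSeries σ k) := fun x => Algebra.leftMulMatrix β (tB x)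
    have hM : ∀ x l j, M x l j = β.repr (tB x * β j) l :=
      fun x l j => Algebra.leftMulMatrix_eq_repr_mul β (tB x) l j
    have hMmul : ∀ x y, M (x * y) = M x * M y := fun x y => by
      simp only [M]; rw [map_mul, map_mul]
    have hTrM : ∀ x, Tr' x = Matrix.trace (M x) := fun x => by
      rw [hTr', Algebra.trace_eq_matrix_trace β]
    let e : Module.Free.ChooseBasisIndex (MvPowerSeries σ k) (SubA f h) → (MvPowerSeries σ k) := fun j => tB.symm (β j)
    have he : ∀ j, tB (e j) = β j := fun j => tB.apply_symm_apply _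
    have hexp : ∀ x : (MvPowerSeries σ k), x = ∑ l, sh f h (β.repr (tB x) l) * e l := by
      intro x
      apply tB.injective
      rw [map_sum]
      simp_rw [hsmul, he]
      exact (β.sum_repr (tB x)).symm
    have hcoord : ∀ (g : Module.Free.ChooseBasisIndex (MvPowerSeries σ k) (SubA f h) → (MvPowerSeries σ k)) l,
        β.repr (tB (∑ j, sh f h (g j) * e j)) l = g l := by
      intro g l
      rw [map_sum]
      simp_rw [hsmul, he]
      rw [β.repr_sum_self]
    let Cm : Matrix (Module.Free.ChooseBasisIndex (MvPowerSeries σ k) (SubA f h))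
        (Module.Free.ChooseBasisIndex (MvPowerSeries σ k) (SubA f h)) (MvPowerSeries σ k) := Matrix.of fun l j => β.repr (tB (δ (e j))) l
    -- the key matrix identity
    have hkey : M (δ b) = Cm * M b - M b * Cm + M (jac f) * (M b).map (pderiv k i) := by
      refine Matrix.ext fun l j => ?_
      have h1 : δ (b * e j) = b * δ (e j) + e j * δ b := hδmul _ _
      have h2 : b * e j = ∑ l, sh f h (M b l j) * e l := by
        conv_lhs => rw [hexp (b * e j)]
        refine Finset.sum_congr rfl fun l _ => ?_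
        rw [map_mul, he, hM]
      have h3 : δ (b * e j) = ∑ m, sh f h (M b m j) * δ (e m) +
          jac f * ∑ m, sh f h (pderiv k i (M b m j)) * e m := by
        conv_lhs => rw [h2]
        rw [hδsum, Finset.mul_sum, ← Finset.sum_add_distrib]
        refine Finset.sum_congr rfl fun m _ => ?_
        rw [hδmul, hδsh]
        ring
      have h4 := congrArg (fun x => β.repr (tB x) l) (h1.symm.trans h3)
      simp only [map_add, Finsupp.add_apply] at h4
      have h5 : β.repr (tB (e j * δ b)) l = M (δ b) l j := by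
        rw [mul_comm, map_mul, he, hM]
      have h6 : β.repr (tB (b * δ (e j))) l = (M b * Cm) l j := by
        rw [Matrix.mul_apply]
        have h7 : b * δ (e j) = ∑ m, sh f h (Cm m j) * (b * e m) := by
          conv_lhs => rw [hexp (δ (e j)), Finset.mul_sum]
          exact Finset.sum_congr rfl fun m _ => by simp only [Cm, Matrix.of_apply]; ring
        rw [h7, map_sum, map_sum, Finsupp.finsetSum_apply]
        refine Finset.sum_congr rfl fun m _ => ?_
        rw [hsmul, map_smul, Finsupp.smul_apply, smul_eq_mul, map_mul, he, hM, mul_comm]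
      have h8 : β.repr (tB (∑ m, sh f h (M b m j) * δ (e m))) l = (Cm * M b) l j := by
        rw [map_sum, map_sum, Finsupp.finsetSum_apply, Matrix.mul_apply]
        refine Finset.sum_congr rfl fun m _ => ?_
        rw [hsmul, map_smul, Finsupp.smul_apply, smul_eq_mul, mul_comm]
        rfl
      have h9 : β.repr (tB (jac f * ∑ m, sh f h (pderiv k i (M b m j)) * e m)) l =
          (M (jac f) * (M b).map (pderiv k i)) l j := by
        rw [Finset.mul_sum, map_sum, map_sum, Finsupp.finsetSum_apply, Matrix.mul_apply]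
        refine Finset.sum_congr rfl fun m _ => ?_
        rw [show jac f * (sh f h (pderiv k i (M b m j)) * e m) =
          sh f h (pderiv k i (M b m j)) * (jac f * e m) by ring, hsmul, map_smul,
          Finsupp.smul_apply, smul_eq_mul, mul_comm, map_mul, he, Matrix.map_apply, hM, hM]
      rw [h5, h6, h8, h9] at h4
      simp only [Matrix.add_apply, Matrix.sub_apply]
      linear_combination h4
    -- the adjugate element
    set ν := (M (jac f)).det with hν
    have hν0 : ν ≠ 0 := by
      intro h0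
      have h1 : Algebra.norm (MvPowerSeries σ k) (tB (jac f)) = 0 := by
        rw [Algebra.norm_eq_matrix_det β]
        exact h0
      rw [Algebra.norm_eq_zero_iff_of_basis β] at h1
      exact hΦ4 h1
    obtain ⟨b', hb'⟩ : ∃ b', jac f * b' = sh f h ν := by
      let w := (M (jac f)).adjugate.mulVec (fun l => β.repr (tB 1) l)
      refine ⟨∑ l, sh f h (w l) * e l, ?_⟩
      have h1 : (M (jac f)).mulVec w = fun l => ν * β.repr (tB 1) l := by
        simp only [w]
        rw [Matrix.mulVec_mulVec, Matrix.mul_adjugate]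
        funext l
        simp [Matrix.smul_mulVec, hν]
      rw [hexp (jac f * ∑ l, sh f h (w l) * e l)]
      have h2 : ∀ l, β.repr (tB (jac f * ∑ l, sh f h (w l) * e l)) l =
          ν * β.repr (tB 1) l := by
        intro l
        rw [← congrFun h1 l, Matrix.mulVec, dotProduct, Finset.mul_sum, map_sum, map_sum,
          Finsupp.finsetSum_apply]
        refine Finset.sum_congr rfl fun m _ => ?_
        rw [show jac f * (sh f h (w m) * e m) = sh f h (w m) * (jac f * e m) by ring, hsmul,
          map_smul, Finsupp.smul_apply, smul_eq_mul, mul_comm, map_mul, he, hM]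
      simp_rw [h2, map_mul, mul_assoc]
      rw [← Finset.mul_sum, ← hexp 1, mul_one]
    have hMsh : ∀ a : (MvPowerSeries σ k), M (sh f h a) = a • (1 : Matrix _ _ (MvPowerSeries σ k)) := by
      intro a
      have : tB (sh f h a) = algebraMap (MvPowerSeries σ k) (SubA f h) a := rfl
      simp only [M]
      rw [this, AlgHom.commutes, Algebra.algebraMap_eq_smul_one]
    have hfinal : ν * Φ' (δ b) = ν * pderiv k i (Tr' b) := by
      have h1 : ν * Φ' (δ b) = Tr' (b' * δ b) := by
        have e1 : ν * Φ' (δ b) = Φ' (sh f h ν * δ b) := by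
          rw [hΦ', hΦ', hsmul, map_smul, smul_eq_mul]
        rw [e1, ← hb']
        have e2 : Tr' (b' * δ b) = Φ' (jac f * (b' * δ b)) := by
          rw [hTr', hΦ', map_mul]
          exact hΦ1 _
        rw [e2, mul_assoc]
      rw [h1, hTrM, hMmul, hkey]
      have h2 : M b' * M (jac f) = ν • (1 : Matrix _ _ (MvPowerSeries σ k)) := by
        rw [← hMmul, mul_comm, hb', hMsh]
      have h3 : M b' * M b = M b * M b' := by rw [← hMmul, ← hMmul, mul_comm]
      rw [mul_add, mul_sub, Matrix.trace_add, Matrix.trace_sub]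
      have h4 : Matrix.trace (M b' * (Cm * M b)) = Matrix.trace (M b' * (M b * Cm)) := by
        rw [← Matrix.mul_assoc, Matrix.trace_mul_comm, ← Matrix.mul_assoc, ← Matrix.mul_assoc, h3]
      rw [h4, sub_self, zero_add, ← Matrix.mul_assoc, h2, Matrix.smul_mul, Matrix.one_mul,
        Matrix.trace_smul, smul_eq_mul, hTrM]
      congr 1
      simp [Matrix.trace]
    exact mul_left_cancel₀ hν0 hfinal
  · intro l hl
    let l' : SubA f h →ₗ[(MvPowerSeries σ k)] (MvPowerSeries σ k) :=
      { toFun := fun b => l (tB.symm b)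
        map_add' := fun x y => by rw [map_add, map_add]
        map_smul' := fun a x => by
          obtain ⟨x, rfl⟩ := tB.surjective x
          rw [← hsmul, RingEquiv.symm_apply_apply, RingEquiv.symm_apply_apply, hl]
          rfl }
    obtain ⟨c, hc⟩ := hΦ2 l'
    refine ⟨tB.symm c, fun b => ?_⟩
    have := hc (tB b)
    rw [hΦ', map_mul, RingEquiv.apply_symm_apply, ← this]
    simp [l']

end Pool.Agent.Lib.MP_af4f85_ag
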