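import Mathlib

set_option autoImplicit false

namespace Pool.Agent.Lib.MP_af4f85_ag

open MvPolynomial

section Deg

variable {σ : Type*} {R : Type*} [CommRing R]

/-- all monomials have degree `< m` -/
def LT (m : ℕ) (p : MvPolynomial σ R) : Prop := ∀ γ : σ →₀ ℕ, m ≤ γ.degree → coeff γ p = 0

theorem LT.zero (m : ℕ) : LT m (0 : MvPolynomial σ R) := fun _ _ => by simp

theorem LT.add {m : ℕ} {p q : MvPolynomial σ R} (hp : LT m p) (hq : LT m q) : LT m (p + q) :=
  fun γ h => by rw [coeff_add, hp γ h, hq γ h, add_zero]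

theorem LT.neg {m : ℕ} {p : MvPolynomial σ R} (hp : LT m p) : LT m (-p) :=
  fun γ h => by rw [coeff_neg, hp γ h, neg_zero]

theorem LT.sub {m : ℕ} {p q : MvPolynomial σ R} (hp : LT m p) (hq : LT m q) : LT m (p - q) :=
  fun γ h => by rw [coeff_sub, hp γ h, hq γ h, sub_zero]

theorem LT.mono {m n : ℕ} (h : m ≤ n) {p : MvPolynomial σ R} (hp : LT m p) : LT n p :=
  fun γ h' => hp γ (h.trans h')

theorem LT.smul {m : ℕ} (c : R) {p : MvPolynomial σ R} (hp : LT m p) : LT m (c • p) :=
  fun γ h => by rw [coeff_smul, hp γ h, smul_zero]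

theorem LT.sum {ι : Type*} {m : ℕ} (s : Finset ι) {p : ι → MvPolynomial σ R}
    (hp : ∀ i ∈ s, LT m (p i)) : LT m (∑ i ∈ s, p i) := by
  intro γ h
  rw [coeff_sum]
  exact Finset.sum_eq_zero fun i hi => hp i hi γ h

theorem LT.mul {a b : ℕ} {p q : MvPolynomial σ R} (hp : LT (a + 1) p) (hq : LT b q) :
    LT (a + b) (p * q) := by
  classical
  intro γ h
  rw [coeff_mul]
  refine Finset.sum_eq_zero fun x hx => ?_
  rw [Finset.HasAntidiagonal.mem_antidiagonal] at hx
  have h1 : x.1.degree + x.2.degree = γ.degree := by rw [← hx, map_add]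
  by_cases h2 : b ≤ x.2.degree
  · rw [hq _ h2, mul_zero]
  · rw [hp _ (by omega), zero_mul]

theorem LT.monomial (γ : σ →₀ ℕ) (c : R) : LT (γ.degree + 1) (monomial γ c) := by
  classical
  intro δ h
  rw [coeff_monomial, if_neg]
  rintro rfl
  omega

theorem LT.C (c : R) {m : ℕ} (hm : 0 < m) : LT m (C c : MvPolynomial σ R) := by
  classical
  intro δ h
  rw [coeff_C, if_neg]
  rintro rfl
  simp at h
  omega

theorem LT.X (i : σ) : LT 2 (X i : MvPolynomial σ R) := by
  have := LT.monomial (R := R) (Finsupp.single i 1) 1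
  rw [Finsupp.degree_single] at this
  exact this

theorem LT.eq_zero {p : MvPolynomial σ R} (hp : LT 0 p) : p = 0 := by
  ext γ
  simpa using hp γ (Nat.zero_le _)

theorem exists_LT (p : MvPolynomial σ R) : ∃ m, LT m p := by
  refine ⟨p.support.sup (fun γ => γ.degree) + 1, fun γ h => ?_⟩
  by_contra hne
  have : γ ∈ p.support := mem_support_iff.mpr hne
  have := Finset.le_sup (f := fun γ : σ →₀ ℕ => γ.degree) this
  omega

/-- `p` has leading part `p'` of degree `a` -/
def Lead (a : ℕ) (p p' : MvPolynomial σ R) : Prop := LT (a + 1) p ∧ LT a (p - p')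

theorem Lead.mul {a b : ℕ} {p p' q q' : MvPolynomial σ R} (hp : Lead a p p') (hq : Lead b q q')
    : Lead (a + b) (p * q) (p' * q') := by
  have hp' : LT (a + 1) p' := by
    have := hp.1.sub (hp.2.mono (Nat.le_succ a))
    simpa using this
  refine ⟨?_, ?_⟩
  · have := hp.1.mul hq.1
    exact this
  · have h1 : LT (a + b) (p' * (q - q')) := hp'.mul hq.2
    have h2 : LT (b + a) (q * (p - p')) := hq.1.mul hp.2
    rw [add_comm b a] at h2
    have := h1.add h2
    convert this using 1
    ring

theorem Lead.one : Lead 0 (1 : MvPolynomial σ R) 1 :=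
  ⟨by simpa using LT.C (σ := σ) (1 : R) (Nat.zero_lt_succ 0), by simpa using LT.zero 0⟩

theorem Lead.pow {a : ℕ} {p p' : MvPolynomial σ R} (hp : Lead a p p') (n : ℕ) :
    Lead (n * a) (p ^ n) (p' ^ n) := by
  induction n with
  | zero => simpa using Lead.one
  | succ n ih =>
    rw [pow_succ, pow_succ, add_mul, one_mul]
    exact ih.mul hp

theorem Lead.prod {ι : Type*} (s : Finset ι) {a : ι → ℕ} {p p' : ι → MvPolynomial σ R}
    (h : ∀ i ∈ s, Lead (a i) (p i) (p' i)) :
    Lead (∑ i ∈ s, a i) (∏ i ∈ s, p i) (∏ i ∈ s, p' i) := by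
  classical
  induction s using Finset.induction_on with
  | empty => simpa using Lead.one
  | insert i s hi ih =>
    rw [Finset.sum_insert hi, Finset.prod_insert hi, Finset.prod_insert hi]
    exact (h i (Finset.mem_insert_self i s)).mul
      (ih fun j hj => h j (Finset.mem_insert_of_mem hj))

theorem Lead.X (i : σ) : Lead 1 (X i : MvPolynomial σ R) (X i) :=
  ⟨LT.X i, by simpa using LT.zero 1⟩

theorem Lead.of_LT {a : ℕ} {p q : MvPolynomial σ R} (hq : LT (a + 1) q) (h : LT a (p - q)) :
    Lead a p q := by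
  refine ⟨?_, h⟩
  have := hq.add (h.mono (Nat.le_succ a))
  simpa using this

theorem X_pow_LT (i : σ) (D : ℕ) : LT (D + 1) ((MvPolynomial.X i : MvPolynomial σ R) ^ D) := by
  have := ((Lead.X (R := R) i).pow D).1
  simpa using this

end Deg

section M

variable {σ : Type*} [Fintype σ] {R : Type*} [CommRing R] (D : ℕ) (t : σ → MvPolynomial σ R)

/-- the base `D` expansion map -/
noncomputable def expand' : MvPolynomial σ R →ₗ[R] MvPolynomial σ R :=
  (basisMonomials σ R).constr R fun γ => ∏ i, (t i ^ (γ i / D) * X i ^ (γ i % D))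

theorem expand'_monomial (γ : σ →₀ ℕ) (c : R) :
    expand' D t (monomial γ c) = c • ∏ i, (t i ^ (γ i / D) * X i ^ (γ i % D)) := by
  have h : monomial γ c = c • (basisMonomials σ R) γ := by
    rw [coe_basisMonomials, smul_monomial, smul_eq_mul, mul_one]
  rw [h, map_smul, expand', Module.Basis.constr_basis]

theorem expand'_monomial_lead (hD : 0 < D) (ht : ∀ i, LT D (t i - X i ^ D)) (γ : σ →₀ ℕ) :
    Lead γ.degree (expand' D t (monomial γ 1)) (monomial γ 1) := by
  rw [expand'_monomial, one_smul]
  have h1 : ∀ i, Lead (γ i) (t i ^ (γ i / D) * X i ^ (γ i % D)) (X i ^ γ i) := by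
    intro i
    have e1 : Lead D (t i) (X i ^ D) := Lead.of_LT (X_pow_LT i D) (ht i)
    have := (e1.pow (γ i / D)).mul ((Lead.X (R := R) i).pow (γ i % D))
    rw [← pow_mul, ← pow_add, mul_one] at this
    have e2 : γ i / D * D + γ i % D = γ i := Nat.div_add_mod' _ _
    have e3 : D * (γ i / D) + γ i % D = γ i := Nat.div_add_mod _ _
    rw [e2, e3] at this
    exact this
  have := Lead.prod Finset.univ (fun i _ => h1 i)
  rw [← Finsupp.degree_eq_sum] at this
  convert this using 1
  rw [monomial_eq, C_1, one_mul, Finsupp.prod_fintype _ _ (fun i => pow_zero _)]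

theorem expand'_sub_LT (hD : 0 < D) (ht : ∀ i, LT D (t i - X i ^ D)) {m : ℕ}
    {p : MvPolynomial σ R} (hp : LT (m + 1) p) : LT m (expand' D t p - p) := by
  conv => arg 2; rw [p.as_sum]
  rw [map_sum, ← Finset.sum_sub_distrib]
  refine LT.sum _ fun γ hγ => ?_
  have hγm : γ.degree ≤ m := by
    by_contra h
    exact (mem_support_iff.mp hγ) (hp γ (by omega))
  have h1 : monomial γ (coeff γ p) = (coeff γ p) • (monomial γ (1 : R)) := by
    rw [smul_monomial, smul_eq_mul, mul_one]
  rw [h1, map_smul, ← smul_sub]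
  exact (((expand'_monomial_lead D t hD ht γ).2).mono hγm).smul _

theorem expand'_injective (hD : 0 < D) (ht : ∀ i, LT D (t i - X i ^ D)) :
    Function.Injective (expand' D t) := by
  rw [injective_iff_map_eq_zero]
  intro p hp
  have key : ∀ m, LT m p → p = 0 := by
    intro m
    induction m with
    | zero => exact fun h => h.eq_zero
    | succ m ih =>
      intro h
      apply ih
      have := expand'_sub_LT D t hD ht h
      rw [hp, zero_sub] at this
      simpa using this.neg
  obtain ⟨m, hm⟩ := exists_LT p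
  exact key m hm

theorem expand'_surjective_aux (hD : 0 < D) (ht : ∀ i, LT D (t i - X i ^ D)) (m : ℕ) :
    ∀ p : MvPolynomial σ R, LT m p → ∃ q, LT m q ∧ LT (m - 1) (q - p) ∧ expand' D t q = p := by
  induction m with
  | zero =>
    intro p hp
    exact ⟨0, LT.zero 0, by rw [hp.eq_zero, sub_zero]; exact LT.zero _, by
      rw [map_zero, hp.eq_zero]⟩
  | succ m ih =>
    intro p hp
    have h1 := expand'_sub_LT D t hD ht hp
    obtain ⟨q, hq1, hq2, hq3⟩ := ih _ h1
    refine ⟨p - q, hp.sub (hq1.mono (Nat.le_succ m)), ?_, ?_⟩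
    · have e : p - q - p = -q := by abel
      rw [e, Nat.add_sub_cancel]
      exact hq1.neg
    · rw [map_sub, hq3]
      ring

/-- the expansion equivalence -/
noncomputable def expandEquiv (hD : 0 < D) (ht : ∀ i, LT D (t i - X i ^ D)) :
    MvPolynomial σ R ≃ₗ[R] MvPolynomial σ R :=
  LinearEquiv.ofBijective (expand' D t) ⟨expand'_injective D t hD ht, fun p => by
    obtain ⟨m, hm⟩ := exists_LT p
    obtain ⟨q, _, _, hq⟩ := expand'_surjective_aux D t hD ht m p hm
    exact ⟨q, hq⟩⟩

theorem expandEquiv_apply (hD : 0 < D) (ht : ∀ i, LT D (t i - X i ^ D)) (p) :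
    expandEquiv D t hD ht p = expand' D t p := rfl

theorem expandEquiv_symm_LT (hD : 0 < D) (ht : ∀ i, LT D (t i - X i ^ D)) {m : ℕ}
    {p : MvPolynomial σ R} (hp : LT (m + 1) p) : LT m ((expandEquiv D t hD ht).symm p - p) := by
  obtain ⟨q, hq1, hq2, hq3⟩ := expand'_surjective_aux D t hD ht (m + 1) p hp
  have : (expandEquiv D t hD ht).symm p = q := by
    rw [LinearEquiv.symm_apply_eq, expandEquiv_apply, hq3]
  rw [this]
  exact hq2

/-- exponent `(D-1,…,D-1)` -/
noncomputable def top' : σ →₀ ℕ := Finsupp.equivFunOnFinite.symm fun _ => D - 1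

/-- the residue functional -/
noncomputable def res (hD : 0 < D) (ht : ∀ i, LT D (t i - X i ^ D)) : MvPolynomial σ R →ₗ[R] R :=
  (lcoeff R (top' D)) ∘ₗ (expandEquiv D t hD ht).symm.toLinearMap

theorem res_apply (hD : 0 < D) (ht : ∀ i, LT D (t i - X i ^ D)) (p) :
    res D t hD ht p = coeff (top' D) ((expandEquiv D t hD ht).symm p) := rfl

theorem expand'_X_pow_mul (hD : 0 < D) (i : σ) (p : MvPolynomial σ R) :
    expand' D t (X i ^ D * p) = t i * expand' D t p := by
  classical
  induction p using MvPolynomial.induction_on' with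
  | add p q hp hq => rw [mul_add, map_add, map_add, mul_add, hp, hq]
  | monomial γ c =>
    have h1 : (X i ^ D * monomial γ c : MvPolynomial σ R) =
        monomial (Finsupp.single i D + γ) c := by
      rw [X_pow_eq_monomial, monomial_mul, one_mul]
    rw [h1, expand'_monomial, expand'_monomial, mul_smul_comm]
    congr 1
    rw [← Finset.mul_prod_erase _ _ (Finset.mem_univ i),
      ← Finset.mul_prod_erase Finset.univ (fun i => t i ^ (γ i / D) * X i ^ (γ i % D))
        (Finset.mem_univ i)]
    have h2 : (Finsupp.single i D + γ) i = D + γ i := by simp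
    rw [h2, Nat.add_div_left _ hD, Nat.add_mod_left, pow_succ]
    have h3 : ∏ x ∈ Finset.univ.erase i, t x ^ ((Finsupp.single i D + γ) x / D) *
        X x ^ ((Finsupp.single i D + γ) x % D) =
        ∏ x ∈ Finset.univ.erase i, t x ^ (γ x / D) * X x ^ (γ x % D) := by
      refine Finset.prod_congr rfl fun x hx => ?_
      have hx' : x ≠ i := Finset.ne_of_mem_erase hx
      have : (Finsupp.single i D + γ) x = γ x := by
        simp [Finsupp.single_apply, hx'.symm]
      rw [this]
    rw [h3]
    ring

theorem res_mul_eq_zero (hD : 0 < D) (ht : ∀ i, LT D (t i - X i ^ D)) (i : σ)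
    (p : MvPolynomial σ R) : res D t hD ht (t i * p) = 0 := by
  classical
  rw [res_apply]
  have h1 : (expandEquiv D t hD ht).symm (t i * p) =
      X i ^ D * (expandEquiv D t hD ht).symm p := by
    rw [LinearEquiv.symm_apply_eq, expandEquiv_apply, expand'_X_pow_mul D t hD]
    rw [← expandEquiv_apply D t hD ht, LinearEquiv.apply_symm_apply]
  rw [h1, X_pow_eq_monomial, coeff_monomial_mul', if_neg]
  intro h
  have := h i
  simp [top'] at this
  omega

theorem res_of_mem_span (hD : 0 < D) (ht : ∀ i, LT D (t i - X i ^ D))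
    {p : MvPolynomial σ R} (hp : p ∈ Ideal.span (Set.range t)) : res D t hD ht p = 0 := by
  induction hp using Submodule.span_induction with
  | mem x hx =>
    obtain ⟨i, rfl⟩ := hx
    simpa using res_mul_eq_zero D t hD ht i 1
  | zero => exact map_zero _
  | add x y _ _ hx hy => rw [map_add, hx, hy, add_zero]
  | smul a x _ hx =>
    rename_i hmem
    -- need a * x
    clear hx
    rw [smul_eq_mul]
    obtain ⟨c, hc⟩ := (Ideal.mem_span_range_iff_exists_fun).mp hmem
    rw [← hc, Finset.mul_sum, map_sum]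
    refine Finset.sum_eq_zero fun i _ => ?_
    rw [show a * (c i * t i) = t i * (a * c i) by ring]
    exact res_mul_eq_zero D t hD ht i _

theorem top'_degree : (top' D : σ →₀ ℕ).degree = Fintype.card σ * (D - 1) := by
  rw [Finsupp.degree_eq_sum]
  simp [top']

/-- the residue of a polynomial of low degree with prescribed leading part -/
theorem res_of_LT (hD : 0 < D) (ht : ∀ i, LT D (t i - X i ^ D))
    {p : MvPolynomial σ R} (hp : LT (Fintype.card σ * (D - 1) + 1) p) :
    res D t hD ht p = coeff (top' D) p := by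
  rw [res_apply]
  have := expandEquiv_symm_LT D t hD ht hp (top' D) (top'_degree D).ge
  rw [coeff_sub, sub_eq_zero] at this
  exact this

end M

section Nat

variable {σ : Type*} [Fintype σ] {R : Type*} [CommRing R] {S : Type*} [CommRing S]
  (D : ℕ) (t : σ → MvPolynomial σ R) (φ : R →+* S)

theorem expand'_map (p : MvPolynomial σ R) :
    expand' D (fun i => map φ (t i)) (map φ p) = map φ (expand' D t p) := by
  induction p using MvPolynomial.induction_on' with
  | add p q hp hq => simp only [map_add, hp, hq]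
  | monomial γ c =>
    rw [map_monomial, expand'_monomial, expand'_monomial, smul_eq_C_mul, smul_eq_C_mul, map_mul,
      map_C, map_prod]
    simp

theorem LT.map {m : ℕ} {p : MvPolynomial σ R} (hp : LT m p) : LT m (map φ p) := by
  intro γ h
  rw [coeff_map, hp γ h, map_zero]

theorem res_map (hD : 0 < D) (ht : ∀ i, LT D (t i - X i ^ D))
    (ht' : ∀ i, LT D (map φ (t i) - X i ^ D)) (p : MvPolynomial σ R) :
    res D (fun i => map φ (t i)) hD ht' (map φ p) = φ (res D t hD ht p) := by
  rw [res_apply, res_apply, ← coeff_map]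
  congr 1
  rw [LinearEquiv.symm_apply_eq, expandEquiv_apply, expand'_map, ← expandEquiv_apply D t hD ht,
    LinearEquiv.apply_symm_apply]

end Nat

end Pool.Agent.Lib.MP_af4f85_ag
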