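import Pool.Agent.Lib.MP_af4f85_ag.Pkg

set_option autoImplicit false

namespace Pool.Agent.Lib.MP_af4f85_ag

open MvPowerSeries

section

variable {τ : Type*} [Finite τ] {k : Type*} [Field k]

/-- primary in terms of primes -/
def PI (I : Ideal (MvPowerSeries τ k)) : Prop :=
  ∀ 𝔮 : Ideal (MvPowerSeries τ k), 𝔮.IsPrime → I ≤ 𝔮 → mm τ k ≤ 𝔮

theorem mm_fg : (mm τ k).FG := Submodule.fg_span (Set.finite_range X)

theorem prim_iff_PI (I : Ideal (MvPowerSeries τ k)) : (∃ K : ℕ, mm τ k ^ K ≤ I) ↔ PI I := by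
  constructor
  · rintro ⟨K, hK⟩ 𝔮 h𝔮 hI
    exact h𝔮.le_of_pow_le (hK.trans hI)
  · intro h
    have h1 : mm τ k ≤ I.radical := by
      rw [Ideal.radical_eq_sInf]
      refine le_sInf ?_
      rintro J ⟨hJ1, hJ2⟩
      exact h J hJ2 hJ1
    exact Ideal.exists_pow_le_of_le_radical_of_fg h1 mm_fg

theorem prim_iff {σ : Type*} (f : σ → MvPowerSeries τ k) :
    Prim f ↔ PI (Ideal.span (Set.range f)) := prim_iff_PI _

theorem PI.mono {I J : Ideal (MvPowerSeries τ k)} (h : PI I) (hIJ : I ≤ J) : PI J :=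
  fun 𝔮 h𝔮 hJ => h 𝔮 h𝔮 (hIJ.trans hJ)

theorem le_mm (𝔮 : Ideal (MvPowerSeries τ k)) (h : 𝔮 ≠ ⊤) : 𝔮 ≤ mm τ k := by
  rw [mm_eq_maximalIdeal]
  exact IsLocalRing.le_maximalIdeal h

/-- replacement lemma: finitely many bad values -/
theorem repl_finite (I0 : Ideal (MvPowerSeries τ k)) (z v : MvPowerSeries τ k)
    (hv : v ∈ mm τ k) (h : PI (I0 ⊔ Ideal.span {z})) :
    {ε : k | ¬ PI (I0 ⊔ Ideal.span {z + C ε * v})}.Finite := by
  classical
  have key : ∀ ε : k, ¬ PI (I0 ⊔ Ideal.span {z + C ε * v}) →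
      ∃ 𝔭 ∈ I0.minimalPrimes, z + C ε * v ∈ 𝔭 ∧ ¬ (mm τ k ≤ 𝔭) := by
    intro ε hε
    unfold PI at hε
    push Not at hε
    obtain ⟨𝔮, h𝔮, hle, hmm⟩ := hε
    have hz𝔮 : z + C ε * v ∈ 𝔮 :=
      hle (Submodule.mem_sup_right (Ideal.mem_span_singleton_self _))
    have h𝔮mm : 𝔮 ≤ mm τ k := le_mm 𝔮 h𝔮.ne_top
    have hz : z ∈ mm τ k := by
      have h1 := Ideal.sub_mem _ (h𝔮mm hz𝔮) (Ideal.mul_mem_left _ (C ε) hv)
      simpa using h1
    obtain ⟨𝔭, h𝔭, h𝔭𝔮⟩ := Ideal.exists_minimalPrimes_le (le_sup_left.trans hle)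
    refine ⟨𝔭, h𝔭, ?_, fun hc => hmm (hc.trans h𝔭𝔮)⟩
    by_contra hne
    have h𝔭p : 𝔭.IsPrime := h𝔭.1.1
    -- `mm` is minimal over `𝔭 + (z)`
    have hmin : mm τ k ∈ (𝔭 ⊔ Ideal.span {z}).minimalPrimes := by
      refine ⟨⟨inferInstance, ?_⟩, ?_⟩
      · refine sup_le (h𝔭𝔮.trans h𝔮mm) ?_
        rw [Ideal.span_singleton_le_iff_mem]
        exact hz
      · rintro 𝔯 ⟨h𝔯, h𝔯le⟩ _
        refine h 𝔯 h𝔯 (sup_le (h𝔭.1.2.trans (le_sup_left.trans h𝔯le)) (le_sup_right.trans h𝔯le))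
    have hht := Ideal.map_height_le_one_of_mem_minimalPrimes hmin
    -- chain
    have hker : RingHom.ker (Ideal.Quotient.mk 𝔭) ≤ 𝔮 := by rw [Ideal.mk_ker]; exact h𝔭𝔮
    have hker' : RingHom.ker (Ideal.Quotient.mk 𝔭) ≤ mm τ k := by
      rw [Ideal.mk_ker]; exact h𝔭𝔮.trans h𝔮mm
    have hp1 : (𝔮.map (Ideal.Quotient.mk 𝔭)).IsPrime :=
      Ideal.map_isPrime_of_surjective Ideal.Quotient.mk_surjective hker
    have hp2 : ((mm τ k).map (Ideal.Quotient.mk 𝔭)).IsPrime :=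
      Ideal.map_isPrime_of_surjective Ideal.Quotient.mk_surjective hker'
    have hlt2 : 𝔮.map (Ideal.Quotient.mk 𝔭) < (mm τ k).map (Ideal.Quotient.mk 𝔭) := by
      refine lt_of_le_of_ne (Ideal.map_mono h𝔮mm) fun heq => hmm ?_
      have h2 := congrArg (Ideal.comap (Ideal.Quotient.mk 𝔭)) heq
      rw [Ideal.comap_map_of_surjective _ Ideal.Quotient.mk_surjective,
        Ideal.comap_map_of_surjective _ Ideal.Quotient.mk_surjective,
        ← RingHom.ker_eq_comap_bot, sup_eq_left.mpr hker, sup_eq_left.mpr hker'] at h2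
      exact h2.ge
    have hlt1 : (⊥ : Ideal (MvPowerSeries τ k ⧸ 𝔭)) < 𝔮.map (Ideal.Quotient.mk 𝔭) := by
      rw [bot_lt_iff_ne_bot]
      intro h0
      have h3 := Ideal.mem_map_of_mem (Ideal.Quotient.mk 𝔭) hz𝔮
      rw [h0, Ideal.mem_bot, Ideal.Quotient.eq_zero_iff_mem] at h3
      exact hne h3
    have : (⊥ : Ideal (MvPowerSeries τ k ⧸ 𝔭)).IsPrime := Ideal.isPrime_bot
    have e1 := Ideal.height_add_one_le_of_lt_of_isPrime hlt1
    have e2 := Ideal.height_add_one_le_of_lt_of_isPrime hlt2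
    have e3 : (1 : ℕ∞) ≤ (𝔮.map (Ideal.Quotient.mk 𝔭)).height :=
      le_trans le_add_self e1
    have e4 : (2 : ℕ∞) ≤ 1 := by
      calc (2 : ℕ∞) = 1 + 1 := by norm_num
        _ ≤ (𝔮.map (Ideal.Quotient.mk 𝔭)).height + 1 := by gcongr
        _ ≤ _ := e2
        _ ≤ 1 := hht
    exact absurd e4 (by norm_num)
  -- injectivity on bad values
  have hfin : (I0.minimalPrimes).Finite :=
    Ideal.finite_minimalPrimes_of_isNoetherianRing _ I0
  let g : k → Ideal (MvPowerSeries τ k) := fun ε =>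
    if hε : ¬ PI (I0 ⊔ Ideal.span {z + C ε * v}) then (key ε hε).choose else ⊥
  have hg : ∀ ε (hε : ¬ PI (I0 ⊔ Ideal.span {z + C ε * v})),
      g ε ∈ I0.minimalPrimes ∧ z + C ε * v ∈ g ε ∧ ¬ (mm τ k ≤ g ε) := by
    intro ε hε
    have h1 := (key ε hε).choose_spec
    simp only [g, dif_pos hε]
    exact ⟨h1.1, h1.2.1, h1.2.2⟩
  refine Set.Finite.of_finite_image (f := g) (hfin.subset ?_) ?_
  · rintro _ ⟨ε, hε, rfl⟩
    exact (hg ε hε).1
  · intro ε hε ε' hε' heq
    by_contra hne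
    obtain ⟨h1, h2, h3⟩ := hg ε hε
    obtain ⟨h1', h2', h3'⟩ := hg ε' hε'
    rw [← heq] at h2'
    have h4 : C (ε - ε') * v ∈ g ε := by
      have := Ideal.sub_mem _ h2 h2'
      convert this using 1
      rw [map_sub]
      ring
    have h5 : v ∈ g ε := by
      have h6 : v = C ((ε - ε')⁻¹) * (C (ε - ε') * v) := by
        rw [← mul_assoc, ← map_mul, inv_mul_cancel₀ (sub_ne_zero.mpr hne), map_one, one_mul]
      rw [h6]
      exact Ideal.mul_mem_left _ _ h4
    have h6 : z ∈ g ε := by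
      have := Ideal.sub_mem _ h2 (Ideal.mul_mem_left _ (C ε) h5)
      simpa using this
    refine h3 (h (g ε) h1.1.1 (sup_le h1.1.2 ?_))
    rw [Ideal.span_singleton_le_iff_mem]
    exact h6

variable [Infinite k]

/-- replacement in a system -/
theorem repl {σ : Type*} [DecidableEq σ] (f : σ → MvPowerSeries τ k) (hf : Prim f) (i : σ)
    (v : MvPowerSeries τ k) (hv : v ∈ mm τ k) :
    ∃ ε : k, ε ≠ 0 ∧ Prim (Function.update f i (f i + C ε * v)) := by
  set I0 : Ideal (MvPowerSeries τ k) := Ideal.span (f '' {j | j ≠ i}) with hI0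
  have hspan : ∀ w, Ideal.span (Set.range (Function.update f i w)) =
      I0 ⊔ Ideal.span {w} := by
    intro w
    rw [hI0, ← Ideal.span_union]
    congr 1
    ext x
    constructor
    · rintro ⟨j, rfl⟩
      by_cases hj : j = i
      · subst hj
        simp
      · left
        rw [Function.update_of_ne hj]
        exact ⟨j, hj, rfl⟩
    · rintro (⟨j, hj, rfl⟩ | hx)
      · exact ⟨j, Function.update_of_ne hj _ _⟩
      · rw [Set.mem_singleton_iff] at hx
        exact ⟨i, by rw [hx, Function.update_self]⟩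
  have h1 : PI (I0 ⊔ Ideal.span {f i}) := by
    rw [← hspan, Function.update_eq_self]
    exact (prim_iff f).mp hf
  have h2 := repl_finite I0 (f i) v hv h1
  obtain ⟨ε, hε⟩ := (h2.union (Set.finite_singleton (0 : k))).exists_notMem
  rw [Set.mem_union, not_or] at hε
  refine ⟨ε, by simpa using hε.2, ?_⟩
  rw [prim_iff, hspan]
  simpa using hε.1

end

section Good

variable {ι σ : Type*} [Fintype ι] [Fintype σ] {k : Type*} [Field k] [Infinite k]

theorem height_mm_le : (mm ι k).height ≤ (Fintype.card ι : ℕ∞) := by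
  classical
  have h1 : mm ι k ∈ (Ideal.span ((Finset.univ.image (X : ι → MvPowerSeries ι k) :
      Finset (MvPowerSeries ι k)) : Set (MvPowerSeries ι k))).minimalPrimes := by
    have h2 : Ideal.span ((Finset.univ.image (X : ι → MvPowerSeries ι k) :
      Finset (MvPowerSeries ι k)) : Set (MvPowerSeries ι k)) = mm ι k := by
      unfold mm
      congr 1
      simp
    rw [h2]
    refine ⟨⟨inferInstance, le_rfl⟩, fun _ h _ => h.2⟩
  refine (Ideal.height_le_card_of_mem_minimalPrimes_span_finset h1).trans ?_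
  exact_mod_cast Finset.card_image_le.trans (by rw [Finset.card_univ])

/-- existence of a good system of linear combinations -/
theorem exists_good_forms (g : σ → MvPowerSeries ι k) (hg0 : ∀ j, g j ∈ mm ι k) (hg : Prim g) :
    ∃ c : ι → σ → k, Prim (fun i => ∑ j, C (c i j) * g j) := by
  classical
  have hstep : ∀ n : ℕ, ∃ c : Fin n → σ → k, ∀ 𝔮 : Ideal (MvPowerSeries ι k), 𝔮.IsPrime →
      (Ideal.span (Set.range fun i => ∑ j, C (c i j) * g j) ≤ 𝔮) →
      mm ι k ≤ 𝔮 ∨ (n : ℕ∞) ≤ 𝔮.height := by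
    intro n
    induction n with
    | zero => exact ⟨fun i => i.elim0, fun 𝔮 _ _ => Or.inr (by simp)⟩
    | succ n ih =>
      obtain ⟨c, hc⟩ := ih
      set I := Ideal.span (Set.range fun i => ∑ j, C (c i j) * g j) with hI
      have hfin : (I.minimalPrimes).Finite :=
        Ideal.finite_minimalPrimes_of_isNoetherianRing _ I
      -- the linear map `d ↦ ∑ d_j g_j`
      let L : (σ → k) →ₗ[k] MvPowerSeries ι k :=
        { toFun := fun d => ∑ j, C (d j) * g j
          map_add' := fun a b => by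
            rw [← Finset.sum_add_distrib]
            exact Finset.sum_congr rfl fun j _ => by rw [Pi.add_apply, map_add, add_mul]
          map_smul' := fun a b => by
            rw [RingHom.id_apply, smul_eq_C_mul, Finset.mul_sum]
            exact Finset.sum_congr rfl fun j _ => by
              rw [Pi.smul_apply, smul_eq_mul, map_mul, mul_assoc] }
      let W : Ideal (MvPowerSeries ι k) → Subspace k (σ → k) := fun 𝔭 =>
        (𝔭.restrictScalars k).comap L
      let s : Finset (Subspace k (σ → k)) :=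
        (hfin.toFinset.filter (fun 𝔭 => ¬ (mm ι k ≤ 𝔭))).image W
      have hs : ⊤ ∉ s := by
        intro htop
        obtain ⟨𝔭, h𝔭, h𝔭'⟩ := Finset.mem_image.mp htop
        rw [Finset.mem_filter, Set.Finite.mem_toFinset] at h𝔭
        refine h𝔭.2 ((prim_iff g).mp hg 𝔭 h𝔭.1.1.1 ?_)
        rw [Ideal.span_le]
        rintro _ ⟨j, rfl⟩
        have h1 : (Pi.single j 1 : σ → k) ∈ W 𝔭 := by rw [h𝔭']; trivial
        have h2 : L (Pi.single j 1) = g j := by
          change ∑ i, C ((Pi.single j 1 : σ → k) i) * g i = g j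
          rw [Finset.sum_eq_single j]
          · simp
          · intro b _ hb
            simp [hb]
          · intro h
            exact absurd (Finset.mem_univ j) h
        rw [← h2]
        exact h1
      have hne := Subspace.biUnion_ne_univ_of_top_notMem hs
      obtain ⟨d, hd⟩ := (Set.ne_univ_iff_exists_notMem _).mp hne
      simp only [Set.mem_iUnion, not_exists] at hd
      refine ⟨Fin.snoc c d, fun 𝔮 h𝔮 hle => ?_⟩
      by_cases hmm : mm ι k ≤ 𝔮
      · exact Or.inl hmm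
      right
      have hI𝔮 : I ≤ 𝔮 := by
        refine le_trans (Ideal.span_mono ?_) hle
        rintro _ ⟨i, rfl⟩
        exact ⟨Fin.castSucc i, by simp⟩
      have hd𝔮 : L d ∈ 𝔮 := by
        refine hle (Ideal.subset_span ⟨Fin.last n, ?_⟩)
        simp [L]
      obtain ⟨𝔭, h𝔭, h𝔭𝔮⟩ := Ideal.exists_minimalPrimes_le hI𝔮
      have h𝔭p : 𝔭.IsPrime := h𝔭.1.1
      have hmm𝔭 : ¬ (mm ι k ≤ 𝔭) := fun h => hmm (h.trans h𝔭𝔮)
      have h1 : (n : ℕ∞) ≤ 𝔭.height := (hc 𝔭 h𝔭p h𝔭.1.2).resolve_left hmm𝔭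
      have hd𝔭 : L d ∉ 𝔭 := by
        have h2 : W 𝔭 ∈ s := Finset.mem_image.mpr ⟨𝔭, by
          rw [Finset.mem_filter, Set.Finite.mem_toFinset]
          exact ⟨h𝔭, hmm𝔭⟩, rfl⟩
        exact hd (W 𝔭) h2
      have hlt : 𝔭 < 𝔮 := lt_of_le_of_ne h𝔭𝔮 fun h => hd𝔭 (h ▸ hd𝔮)
      have h3 := Ideal.height_add_one_le_of_lt_of_isPrime hlt
      calc ((n + 1 : ℕ) : ℕ∞) = (n : ℕ∞) + 1 := by push_cast; rfl
        _ ≤ 𝔭.height + 1 := by gcongr
        _ ≤ 𝔮.height := h3
  obtain ⟨c, hc⟩ := hstep (Fintype.card ι)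
  let e := Fintype.equivFin ι
  refine ⟨fun i => c (e i), ?_⟩
  rw [prim_iff]
  intro 𝔮 h𝔮 hle
  have hle' : Ideal.span (Set.range fun i => ∑ j, C (c i j) * g j) ≤ 𝔮 := by
    refine le_trans (Ideal.span_mono ?_) hle
    rintro _ ⟨i, rfl⟩
    exact ⟨e.symm i, by simp⟩
  rcases hc 𝔮 h𝔮 hle' with h | h
  · exact h
  · by_contra hmm
    have hlt : 𝔮 < mm ι k := lt_of_le_of_ne (le_mm 𝔮 h𝔮.ne_top) fun h' => hmm h'.ge
    have h1 := Ideal.height_add_one_le_of_lt_of_isPrime hlt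
    have h2 : ((Fintype.card ι : ℕ) : ℕ∞) + 1 ≤ (Fintype.card ι : ℕ) :=
      calc ((Fintype.card ι : ℕ) : ℕ∞) + 1 ≤ 𝔮.height + 1 := by gcongr
        _ ≤ _ := h1
        _ ≤ _ := height_mm_le
    have h3 : Fintype.card ι + 1 ≤ Fintype.card ι := by exact_mod_cast h2
    omega

end Good

end Pool.Agent.Lib.MP_af4f85_ag
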