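import Pool.Agent.Lib.MP_af4f85_ag.FConstr

set_option autoImplicit false

namespace Pool.Agent.Lib.MP_af4f85_ag

open MvPowerSeries

variable {ι κ : Type*} [Fintype ι] [DecidableEq ι] [Fintype κ] [DecidableEq κ]
  {k : Type*} [Field k] [CharZero k]

theorem exists_monic_mem (F : κ → MvPowerSeries (ι ⊕ κ) k)
    (hF : ∀ l, F l ∈ mm (ι ⊕ κ) k) (hprim : Prim (Sum.elim (fun i => X (Sum.inl i)) F))
    (a : MvPowerSeries (ι ⊕ κ) k) :
    ∃ p : Polynomial (MvPowerSeries ι k), p.Monic ∧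
      p.eval₂ emb a ∈ Ideal.span (Set.range F) := by
  have h0 : ∀ b, constantCoeff (Sum.elim (fun i => (X (Sum.inl i) : MvPowerSeries (ι ⊕ κ) k)) F b)
      = 0 := by
    rintro (b | b)
    · exact constantCoeff_X _
    · exact mem_mm_iff.mp (hF b)
  have hfin := finite_of_prim _ h0 hprim
  have hint : IsIntegral (MvPowerSeries (ι ⊕ κ) k) (toSub _ h0 a) := IsIntegral.of_finite _ _
  obtain ⟨q, hq, hq'⟩ := hint
  refine ⟨q.map rst, hq.map _, ?_⟩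
  have h1 : q.eval₂ (sh _ h0) a = 0 := hq'
  have hcoef : ∀ c : MvPowerSeries (ι ⊕ κ) k,
      sh _ h0 c - emb (rst c) ∈ Ideal.span (Set.range F) := by
    intro c
    have h2 : sh _ h0 (emb (κ := κ) (rst c)) = emb (rst c) := by
      rw [emb, sh_sh _ _ _ _ (fun i => by rw [sh_X]; exact constantCoeff_X _)]
      congr 1
      congr 1
      funext i
      simp
    have h3 := Ideal.mem_map_of_mem (sh _ h0) (sub_emb_rst c)
    rw [map_NN _ _ h0, map_sub, h2] at h3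
    exact h3
  rw [Polynomial.eval₂_map]
  have h4 : q.eval₂ (emb.comp rst) a = q.eval₂ (sh _ h0) a -
      (q.eval₂ (sh _ h0) a - q.eval₂ (emb.comp rst) a) := by ring
  rw [h4, h1]
  refine Ideal.sub_mem _ (Submodule.zero_mem _) ?_
  rw [← h1, Polynomial.eval₂_eq_sum_range, Polynomial.eval₂_eq_sum_range,
    ← Finset.sum_sub_distrib]
  refine Ideal.sum_mem _ fun i _ => ?_
  rw [← sub_mul]
  exact Ideal.mul_mem_right _ _ (hcoef _)

theorem exists_r (ψ : ι → MvPowerSeries ι k) (h : ∀ i, constantCoeff (ψ i) = 0) (hψ : Prim ψ)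
    (g : κ → MvPowerSeries ι k) (h' : ∀ a, constantCoeff (Sum.elim ψ g a) = 0)
    (F : κ → MvPowerSeries (ι ⊕ κ) k) (hF : ∀ l, F l ∈ mm (ι ⊕ κ) k)
    (hF0 : ∀ l, sh (Sum.elim ψ g) h' (F l) = 0)
    (hprim : Prim (Sum.elim (fun i => X (Sum.inl i)) F)) :
    ∃ r : MvPowerSeries (ι ⊕ κ) k, sh (Sum.elim ψ g) h' r ≠ 0 ∧
      ∀ 𝔮 : Ideal (MvPowerSeries (ι ⊕ κ) k), 𝔮.IsPrime → Ideal.span (Set.range F) ≤ 𝔮 →
        r ∈ 𝔮 ∨ RingHom.ker (sh (Sum.elim ψ g) h') ≤ 𝔮 := by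
  classical
  set P : Ideal (MvPowerSeries (ι ⊕ κ) k) := RingHom.ker (sh (Sum.elim ψ g) h') with hP
  have hPprime : P.IsPrime := RingHom.ker_isPrime _
  set I := Ideal.span (Set.range F) with hI
  have hIP : I ≤ P := by
    rw [hI, Ideal.span_le]
    rintro _ ⟨l, rfl⟩
    exact hF0 l
  obtain ⟨pk⟩ := exists_pkg ψ h hψ
  have hcomap : Ideal.comap (emb (κ := κ)) P = ⊥ := by
    rw [eq_bot_iff]
    intro a ha
    rw [Ideal.mem_comap, hP, RingHom.mem_ker, sh_emb ψ g h h'] at ha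
    exact pk.inj (by rw [ha, map_zero])
  have hmin : ∀ 𝔮 : Ideal (MvPowerSeries (ι ⊕ κ) k), 𝔮.IsPrime → I ≤ 𝔮 → 𝔮 ≤ P → 𝔮 = P := by
    intro 𝔮 h𝔮 hI𝔮 h𝔮P
    refine le_antisymm h𝔮P fun a ha => ?_
    by_contra hna
    obtain ⟨p, hp, hp'⟩ := exists_monic_mem F hF hprim a
    have hcp : (Ideal.comap (emb (κ := κ)) 𝔮).IsPrime := Ideal.comap_isPrime _ 𝔮
    have h1 := Ideal.comap_lt_comap_of_root_mem_sdiff (f := emb (κ := κ)) h𝔮P
      (r := a) ⟨ha, hna⟩ (p := p) (hp.map _).ne_zero (hI𝔮 hp')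
    rw [hcomap] at h1
    exact not_lt_bot h1
  have hfin : (I.minimalPrimes).Finite := Ideal.finite_minimalPrimes_of_isNoetherianRing _ I
  let s := (hfin.toFinset).erase P
  have hs : ¬ (s.inf id ≤ P) := by
    intro hle
    obtain ⟨𝔭, h𝔭, h𝔭P⟩ := (Ideal.IsPrime.inf_le' (f := id) hPprime).mp hle
    rw [Finset.mem_erase, Set.Finite.mem_toFinset] at h𝔭
    exact h𝔭.1 (hmin 𝔭 h𝔭.2.1.1 h𝔭.2.1.2 h𝔭P)
  obtain ⟨r, hr, hr'⟩ := SetLike.not_le_iff_exists.mp hs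
  refine ⟨r, hr', fun 𝔮 h𝔮 hI𝔮 => ?_⟩
  obtain ⟨𝔭, h𝔭, h𝔭𝔮⟩ := Ideal.exists_minimalPrimes_le hI𝔮
  by_cases hc : 𝔭 = P
  · right
    rw [← hc]
    exact h𝔭𝔮
  · left
    have h1 : 𝔭 ∈ s := Finset.mem_erase.mpr ⟨hc, by rwa [Set.Finite.mem_toFinset]⟩
    have h2 : s.inf id ≤ 𝔭 := Finset.inf_le h1
    exact h𝔭𝔮 (h2 hr)

end Pool.Agent.Lib.MP_af4f85_ag
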