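import Pool.Agent.Lib.MP_af4f85_ag.PrimL

set_option autoImplicit false

namespace Pool.Agent.Lib.MP_af4f85_ag

open MvPowerSeries

section

variable {ι κ : Type*} [Finite ι] [Finite κ] {k : Type*} [Field k]

/-- restriction to `x'' = 0` -/
noncomputable def rst : MvPowerSeries (ι ⊕ κ) k →+* MvPowerSeries ι k :=
  sh (Sum.elim X (fun _ => 0)) (by
    rintro (i | l)
    · exact constantCoeff_X i
    · exact map_zero _)

/-- power series in `x'` as power series in `x` -/
noncomputable def emb : MvPowerSeries ι k →+* MvPowerSeries (ι ⊕ κ) k :=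
  sh (fun i => X (Sum.inl i)) (fun i => constantCoeff_X _)

variable (ι κ k) in
/-- the ideal of `x'' = 0` -/
noncomputable def NN : Ideal (MvPowerSeries (ι ⊕ κ) k) :=
  Ideal.span (Set.range fun l : κ => X (Sum.inr l))

@[simp] theorem rst_X_inl (i : ι) : rst (X (Sum.inl i) : MvPowerSeries (ι ⊕ κ) k) = X i := by
  rw [rst, sh_X]; rfl

@[simp] theorem rst_X_inr (l : κ) : rst (X (Sum.inr l) : MvPowerSeries (ι ⊕ κ) k) = 0 := by
  rw [rst, sh_X]; rfl

@[simp] theorem rst_C (c : k) : rst (C c : MvPowerSeries (ι ⊕ κ) k) = C c := by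
  rw [rst, sh_C]

@[simp] theorem emb_X (i : ι) : emb (κ := κ) (X i : MvPowerSeries ι k) = X (Sum.inl i) := by
  rw [emb, sh_X]

@[simp] theorem emb_C (c : k) : emb (κ := κ) (C c : MvPowerSeries ι k) = C c := by
  rw [emb, sh_C]

theorem rst_emb (a : MvPowerSeries ι k) : rst (emb (κ := κ) a) = a := by
  rw [rst, emb, sh_sh _ _ _ _ (fun i => by rw [sh_X]; exact constantCoeff_X i)]
  have : (fun i : ι => sh (Sum.elim X (fun _ => 0)) (by
    rintro (i | l)
    · exact constantCoeff_X i
    · exact map_zero _) (X (Sum.inl i) : MvPowerSeries (ι ⊕ κ) k)) =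
      fun i => (X i : MvPowerSeries ι k) := by
    funext i
    rw [sh_X]
    rfl
  simp only [this]
  exact sh_X_self a

theorem X_inr_mem (l : κ) : (X (Sum.inr l) : MvPowerSeries (ι ⊕ κ) k) ∈ NN ι κ k :=
  Ideal.subset_span ⟨l, rfl⟩

theorem sub_emb_rst (b : MvPowerSeries (ι ⊕ κ) k) : b - emb (rst b) ∈ NN ι κ k := by
  have hpoly : ∀ p : MvPolynomial (ι ⊕ κ) k,
      (p : MvPowerSeries (ι ⊕ κ) k) - emb (rst (p : MvPowerSeries (ι ⊕ κ) k)) ∈ NN ι κ k := by
    intro p
    induction p using MvPolynomial.induction_on with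
    | C a => simp
    | add p q hp hq =>
      rw [MvPolynomial.coe_add, map_add, map_add]
      convert Ideal.add_mem _ hp hq using 1
      ring
    | mul_X p i hp =>
      rw [MvPolynomial.coe_mul, MvPolynomial.coe_X, map_mul, map_mul]
      rcases i with i | l
      · rw [rst_X_inl, emb_X, ← sub_mul]
        exact Ideal.mul_mem_right _ _ hp
      · rw [rst_X_inr, map_zero, mul_zero, sub_zero]
        exact Ideal.mul_mem_left _ _ (X_inr_mem l)
  apply krull_closed
  intro N
  have h1 := sub_truncTotal_mem N b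
  set p : MvPolynomial (ι ⊕ κ) k := truncTotal N b
  have h2 : b - emb (rst b) = ((p : MvPowerSeries (ι ⊕ κ) k) - emb (rst (p : MvPowerSeries (ι ⊕ κ) k))) +
      ((b - (p : MvPowerSeries (ι ⊕ κ) k)) - emb (rst (b - (p : MvPowerSeries (ι ⊕ κ) k)))) := by
    rw [map_sub, map_sub]
    ring
  rw [h2]
  refine Submodule.add_mem _ (Submodule.mem_sup_left (hpoly p)) (Submodule.mem_sup_right ?_)
  exact Ideal.sub_mem _ h1 (sh_mem_pow _ _ (sh_mem_pow _ _ h1))

theorem rst_eq_zero_iff (b : MvPowerSeries (ι ⊕ κ) k) : rst b = 0 ↔ b ∈ NN ι κ k := by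
  constructor
  · intro h
    have := sub_emb_rst b
    rwa [h, map_zero, sub_zero] at this
  · intro h
    have h1 : NN ι κ k ≤ RingHom.ker (rst (ι := ι) (κ := κ) (k := k)) := by
      unfold NN
      rw [Ideal.span_le]
      rintro _ ⟨l, rfl⟩
      exact rst_X_inr l
    exact h1 h

theorem NN_eq_ker : NN ι κ k = RingHom.ker (rst (ι := ι) (κ := κ) (k := k)) := by
  ext b
  exact (rst_eq_zero_iff b).symm

instance NN_isPrime : (NN ι κ k).IsPrime := by
  rw [NN_eq_ker]
  exact RingHom.ker_isPrime _

theorem rst_mem_mm {b : MvPowerSeries (ι ⊕ κ) k} (hb : b ∈ mm (ι ⊕ κ) k) : rst b ∈ mm ι k := by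
  have := sh_mem_pow (N := 1) (Sum.elim X (fun _ => 0)) (by
    rintro (i | l)
    · exact constantCoeff_X i
    · exact map_zero _) (by rwa [pow_one] : b ∈ mm (ι ⊕ κ) k ^ 1)
  rwa [pow_one] at this

theorem rst_surjective : Function.Surjective (rst (ι := ι) (κ := κ) (k := k)) :=
  fun a => ⟨emb a, rst_emb a⟩

theorem constantCoeff_rst (b : MvPowerSeries (ι ⊕ κ) k) :
    constantCoeff (rst b) = constantCoeff b := constantCoeff_sh _ _ b

theorem constantCoeff_emb (b : MvPowerSeries ι k) :
    constantCoeff (emb (κ := κ) b) = constantCoeff b := constantCoeff_sh _ _ b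

theorem pderiv_inl_mem_NN (i : ι) {b : MvPowerSeries (ι ⊕ κ) k} (hb : b ∈ NN ι κ k) :
    pderiv k (Sum.inl i) b ∈ NN ι κ k := by
  unfold NN at hb
  induction hb using Submodule.span_induction with
  | mem x hx =>
    obtain ⟨l, rfl⟩ := hx
    have : pderiv k (Sum.inl i) (X (Sum.inr l) : MvPowerSeries (ι ⊕ κ) k) = 0 :=
      pderiv_X_of_ne (by simp)
    rw [this]
    exact Submodule.zero_mem _
  | zero => rw [map_zero]; exact Submodule.zero_mem _
  | add x y _ _ hx hy => rw [map_add]; exact Submodule.add_mem _ hx hy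
  | smul a x hx0 hx =>
    rw [smul_eq_mul, Derivation.leibniz]
    refine Submodule.add_mem _ ?_ ?_
    · rw [smul_eq_mul]
      exact Ideal.mul_mem_left _ _ hx
    · rw [smul_eq_mul]
      exact Ideal.mul_mem_right _ _ hx0

end

section Deriv

variable {ι κ : Type*} [Fintype ι] [Fintype κ] {k : Type*} [Field k]

/-- derivative of the restriction -/
theorem pderiv_rst (i : ι) (b : MvPowerSeries (ι ⊕ κ) k) :
    pderiv k i (rst b) = rst (pderiv k (Sum.inl i) b) := by
  classical
  rw [rst, pderiv_sh]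
  rw [Fintype.sum_sum_type]
  simp only [Sum.elim_inl, Sum.elim_inr, map_zero, mul_zero, Finset.sum_const_zero, add_zero]
  rw [Finset.sum_eq_single i]
  · simp
  · intro j _ hj
    rw [pderiv_X_of_ne hj, mul_zero]
  · intro h
    exact absurd (Finset.mem_univ i) h

theorem pderiv_emb_inl (i : ι) (b : MvPowerSeries ι k) :
    pderiv k (Sum.inl i) (emb (κ := κ) b) = emb (pderiv k i b) := by
  classical
  rw [emb, pderiv_sh, Finset.sum_eq_single i]
  · simp
  · intro j _ hj
    rw [pderiv_X_of_ne (by simpa using hj), mul_zero]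
  · intro h
    exact absurd (Finset.mem_univ i) h

theorem pderiv_emb_inr (l : κ) (b : MvPowerSeries ι k) :
    pderiv k (Sum.inr l) (emb (κ := κ) b) = 0 := by
  classical
  rw [emb, pderiv_sh]
  refine Finset.sum_eq_zero fun j _ => ?_
  rw [pderiv_X_of_ne (by simp), mul_zero]

end Deriv

/-- The abstract row induction. -/
theorem row_induction {k V M ι : Type*} [Field k] [AddCommGroup V] [Module k V] [AddCommGroup M]
    [Module k M] [DecidableEq ι] (Good : (ι → V) → Prop) (G : (ι → V) → M) (𝔟 : Submodule k M)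
    (V₀ : Set V) (T₀ : Finset ι)
    (hrepl : ∀ z, Good z → ∀ i ∈ T₀, ∀ v ∈ V₀, ∃ ε : k, ε ≠ 0 ∧
      Good (Function.update z i (z i + ε • v)))
    (hadd : ∀ z, ∀ i ∈ T₀, ∀ a b, G (Function.update z i (a + b)) =
      G (Function.update z i a) + G (Function.update z i b))
    (hsmul : ∀ z, ∀ i ∈ T₀, ∀ (ε : k) a, G (Function.update z i (ε • a)) =
      ε • G (Function.update z i a))
    (hgood : ∀ z, Good z → G z ∈ 𝔟) :
    ∀ T : Finset ι, T ⊆ T₀ → ∀ z, Good z → ∀ v : ι → V, (∀ i ∈ T, v i ∈ V₀) →
      G (T.piecewise v z) ∈ 𝔟 := by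
  intro T
  induction T using Finset.induction_on with
  | empty =>
    intro _ z hz v _
    rw [Finset.piecewise_empty]
    exact hgood z hz
  | insert i T hi ih =>
    intro hT z hz v hv
    have hT' : T ⊆ T₀ := fun x hx => hT (Finset.mem_insert_of_mem hx)
    have hi0 : i ∈ T₀ := hT (Finset.mem_insert_self i T)
    have hv' : ∀ j ∈ T, v j ∈ V₀ := fun j hj => hv j (Finset.mem_insert_of_mem hj)
    obtain ⟨ε, hε, hgood'⟩ := hrepl z hz i hi0 (v i) (hv i (Finset.mem_insert_self i T))
    have h1 := ih hT' _ hgood' v hv'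
    have h2 := ih hT' z hz v hv'
    set w := T.piecewise v z with hw
    have h3 : T.piecewise v (Function.update z i (z i + ε • v i)) =
        Function.update w i (z i + ε • v i) := by
      funext j
      by_cases hj : j = i
      · subst hj
        rw [Function.update_self, Finset.piecewise_eq_of_notMem _ _ _ hi, Function.update_self]
      · rw [Function.update_of_ne hj, hw]
        by_cases hjT : j ∈ T
        · rw [Finset.piecewise_eq_of_mem _ _ _ hjT, Finset.piecewise_eq_of_mem _ _ _ hjT]
        · rw [Finset.piecewise_eq_of_notMem _ _ _ hjT, Finset.piecewise_eq_of_notMem _ _ _ hjT,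
            Function.update_of_ne hj]
    have h4 : Function.update w i (z i) = w := by
      funext j
      by_cases hj : j = i
      · subst hj
        rw [Function.update_self, hw, Finset.piecewise_eq_of_notMem _ _ _ hi]
      · rw [Function.update_of_ne hj]
    rw [h3, hadd w i hi0, hsmul w i hi0, h4] at h1
    have h5 : ε • G (Function.update w i (v i)) ∈ 𝔟 := by
      have := Submodule.sub_mem _ h1 h2
      simpa using this
    have h6 : G (Function.update w i (v i)) ∈ 𝔟 := by
      have := Submodule.smul_mem _ ε⁻¹ h5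
      rwa [smul_smul, inv_mul_cancel₀ hε, one_smul] at this
    have h7 : (insert i T).piecewise v z = Function.update w i (v i) := by
      rw [Finset.piecewise_insert]
    rw [h7]
    exact h6

end Pool.Agent.Lib.MP_af4f85_ag
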