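import Pool.Agent.Lib.MP_af4f85_ag.Core2

set_option autoImplicit false

namespace Pool.Agent.Lib.MP_af4f85_ag

open MvPowerSeries

namespace FTData

variable {ι κ : Type*} [Fintype ι] [DecidableEq ι] [Fintype κ] [DecidableEq κ]
  {k : Type*} [Field k] [CharZero k] (D : FTData ι κ k)

/-- the matrix `[N' | e_τ]` over `S` -/
noncomputable def nMat (τ : κ → ι ⊕ κ) : Matrix (ι ⊕ κ) (ι ⊕ κ) (MvPowerSeries ι k) :=
  Matrix.of fun a => Sum.elim (fun i => pderiv k i (D.fH a)) (fun j => if a = τ j then 1 else 0)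

/-- `n_τ` -/
noncomputable def nn (τ : κ → ι ⊕ κ) : MvPowerSeries ι k := (D.nMat τ).det

/-- the matrix of the Jacobian of `(q, F)` mapped to `S` -/
noncomputable def qMat (q : ι → MvPowerSeries (ι ⊕ κ) k) (F : κ → MvPowerSeries (ι ⊕ κ) k) :
    Matrix (ι ⊕ κ) (ι ⊕ κ) (MvPowerSeries ι k) :=
  Matrix.of fun a b => D.φH (pderiv k b (Sum.elim q F a))

theorem qMat_det (q : ι → MvPowerSeries (ι ⊕ κ) k) (F : κ → MvPowerSeries (ι ⊕ κ) k) :
    (D.qMat q F).det = D.φH (jac (Sum.elim q F)) := by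
  rw [jac, RingHom.map_det]
  rfl

theorem pderiv_φH (i : ι) (a : MvPowerSeries (ι ⊕ κ) k) :
    pderiv k i (D.φH a) = ∑ b, D.φH (pderiv k b a) * pderiv k i (D.fH b) := pderiv_sh _ _ _ _

/-- product of the two matrices -/
theorem qMat_mul_nMat (q : ι → MvPowerSeries (ι ⊕ κ) k) (F : κ → MvPowerSeries (ι ⊕ κ) k)
    (hF : ∀ l, D.φH (F l) = 0) (τ : κ → ι ⊕ κ) :
    (D.qMat q F * D.nMat τ).det = D.mq q *
      (Matrix.of fun j j' => D.φH (pderiv k (τ j') (F j))).det := by
  have h1 : D.qMat q F * D.nMat τ =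
      Matrix.fromBlocks (Matrix.of fun i i' => pderiv k i' (D.φH (q i)))
        (Matrix.of fun i j' => D.φH (pderiv k (τ j') (q i))) 0
        (Matrix.of fun j j' => D.φH (pderiv k (τ j') (F j))) := by
    refine Matrix.ext fun a b => ?_
    rw [Matrix.mul_apply]
    rcases a with i | j
    · rcases b with i' | j'
      · simp only [qMat, nMat, Matrix.of_apply, Sum.elim_inl, Matrix.fromBlocks_apply₁₁]
        rw [pderiv_φH]
      · simp only [qMat, nMat, Matrix.of_apply, Sum.elim_inl, Sum.elim_inr,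
          Matrix.fromBlocks_apply₁₂, mul_ite, mul_one, mul_zero, Finset.sum_ite_eq',
          Finset.mem_univ, if_true]
    · rcases b with i' | j'
      · simp only [qMat, nMat, Matrix.of_apply, Sum.elim_inl, Sum.elim_inr,
          Matrix.fromBlocks_apply₂₁, Matrix.zero_apply]
        rw [← pderiv_φH, hF, map_zero]
      · simp only [qMat, nMat, Matrix.of_apply, Sum.elim_inr,
          Matrix.fromBlocks_apply₂₂, mul_ite, mul_one, mul_zero, Finset.sum_ite_eq',
          Finset.mem_univ, if_true]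
  rw [h1, Matrix.det_fromBlocks_zero₂₁]
  rfl

/-- `φ(γ_τ) m_q = φ(Δ_q) n_τ` -/
theorem gamma_rel (q : ι → MvPowerSeries (ι ⊕ κ) k) (F : κ → MvPowerSeries (ι ⊕ κ) k)
    (hF : ∀ l, D.φH (F l) = 0) (τ : κ → ι ⊕ κ) :
    D.mq q * D.φH (Matrix.of fun j j' => pderiv k (τ j') (F j)).det =
      D.φH (jac (Sum.elim q F)) * D.nn τ := by
  rw [nn, ← qMat_det, ← Matrix.det_mul, D.qMat_mul_nMat q F hF τ, RingHom.map_det]
  rfl

theorem nn_inr : D.nn Sum.inr = D.mq q0 := by
  have h1 : D.nMat Sum.inr = Matrix.fromBlocks (Matrix.of fun i i' => pderiv k i' (D.φH (q0 i))) 0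
      (Matrix.of fun j i' => pderiv k i' (D.fH (Sum.inr j))) 1 := by
    refine Matrix.ext fun a b => ?_
    rcases a with i | j
    · rcases b with i' | j'
      · simp [nMat, q0]
      · simp [nMat]
    · rcases b with i' | j'
      · simp [nMat]
      · simp only [nMat, Matrix.of_apply, Sum.elim_inr, Matrix.fromBlocks_apply₂₂,
          Matrix.one_apply, Sum.inr.injEq]
  rw [nn, h1, Matrix.det_fromBlocks_zero₁₂, Matrix.det_one, mul_one]
  rfl

/-- `m_q Δ_0 = Δ_q m_0` -/
theorem mq_rel (q : ι → MvPowerSeries (ι ⊕ κ) k) (F : κ → MvPowerSeries (ι ⊕ κ) k)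
    (hF : ∀ l, D.φH (F l) = 0) :
    D.mq q * D.φH (jac (Sum.elim q0 F)) = D.φH (jac (Sum.elim q F)) * D.mq q0 := by
  have h1 := D.gamma_rel q F hF Sum.inr
  have h2 := D.gamma_rel q0 F hF Sum.inr
  rw [nn_inr] at h1 h2
  have h3 : D.φH (Matrix.of fun j j' => pderiv k (Sum.inr j') (F j)).det =
      D.φH (jac (Sum.elim q0 F)) := by
    apply mul_left_cancel₀ D.mq0_ne
    rw [h2, mul_comm]
  rw [h3] at h1
  exact h1

/-- `n_τ` is zero or `± m_q` for a coordinate `q` -/
theorem nn_mem (𝔟 : AddSubgroup (MvPowerSeries ι k))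
    (h𝔟 : ∀ π : ι → ι ⊕ κ, D.mq (fun i => X (π i)) ∈ 𝔟) (τ : κ → ι ⊕ κ) : D.nn τ ∈ 𝔟 := by
  by_cases hτ : Function.Injective τ
  · -- extend to a permutation
    obtain ⟨π, hπ⟩ : ∃ π : Equiv.Perm (ι ⊕ κ), ∀ j, π (Sum.inr j) = τ j := by
      let e1 : κ ≃ {a : ι ⊕ κ // ∃ j, a = Sum.inr j} :=
        { toFun := fun j => ⟨Sum.inr j, j, rfl⟩
          invFun := fun a => a.2.choose
          left_inv := fun j => by
            have := (⟨Sum.inr j, j, rfl⟩ : {a : ι ⊕ κ // ∃ j, a = Sum.inr j}).2.choose_spec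
            exact (Sum.inr_injective this).symm
          right_inv := fun a => Subtype.ext a.2.choose_spec.symm }
      let e2 : κ ≃ {a : ι ⊕ κ // ∃ j, a = τ j} :=
        { toFun := fun j => ⟨τ j, j, rfl⟩
          invFun := fun a => a.2.choose
          left_inv := fun j => by
            have := (⟨τ j, j, rfl⟩ : {a : ι ⊕ κ // ∃ j, a = τ j}).2.choose_spec
            exact (hτ this).symm
          right_inv := fun a => Subtype.ext a.2.choose_spec.symm }
      classical
      let e := e1.symm.trans e2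
      refine ⟨e.extendSubtype, fun j => ?_⟩
      rw [Equiv.extendSubtype_apply_of_mem e (Sum.inr j) ⟨j, rfl⟩]
      have : e1.symm ⟨Sum.inr j, j, rfl⟩ = j := e1.symm_apply_apply j
      simp only [e, Equiv.trans_apply, this]
      rfl
    have h1 : ((D.nMat τ).submatrix π id).det = ((Equiv.Perm.sign π : ℤ) : MvPowerSeries ι k) *
        D.nn τ := Matrix.det_permute π (D.nMat τ)
    have h2 : (D.nMat τ).submatrix π id = Matrix.fromBlocks
        (Matrix.of fun i i' => pderiv k i' (D.φH (X (π (Sum.inl i))))) 0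
        (Matrix.of fun j i' => pderiv k i' (D.fH (π (Sum.inr j)))) 1 := by
      refine Matrix.ext fun a b => ?_
      rcases a with i | j
      · rcases b with i' | j'
        · simp [nMat]
        · simp only [nMat, Matrix.submatrix_apply, id_eq, Matrix.of_apply, Sum.elim_inr,
            Matrix.fromBlocks_apply₁₂, Matrix.zero_apply]
          rw [← hπ j', if_neg]
          intro h
          exact Sum.inl_ne_inr (π.injective h)
      · rcases b with i' | j'
        · simp [nMat]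
        · simp only [nMat, Matrix.submatrix_apply, id_eq, Matrix.of_apply, Sum.elim_inr,
            Matrix.fromBlocks_apply₂₂, Matrix.one_apply]
          rw [← hπ j']
          by_cases h : j = j'
          · subst h
            simp
          · rw [if_neg h, if_neg]
            intro h'
            exact h (Sum.inr_injective (π.injective h'))
    rw [h2, Matrix.det_fromBlocks_zero₁₂, Matrix.det_one, mul_one] at h1
    have h3 : (Matrix.of fun i i' => pderiv k i' (D.φH (X (π (Sum.inl i))))).det =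
        D.mq (fun i => X (π (Sum.inl i))) := rfl
    rw [h3] at h1
    have h4 := h𝔟 (fun i => π (Sum.inl i))
    rw [h1] at h4
    rcases Int.units_eq_one_or (Equiv.Perm.sign π) with h | h
    · rw [h] at h4
      simpa using h4
    · rw [h] at h4
      simpa using h4
  · -- two equal columns
    have : ∃ j j', τ j = τ j' ∧ j ≠ j' := by
      unfold Function.Injective at hτ
      push Not at hτ
      obtain ⟨j, j', h1, h2⟩ := hτ
      exact ⟨j, j', h1, h2⟩
    obtain ⟨j, j', h1, h2⟩ := this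
    have h3 : D.nn τ = 0 := by
      rw [nn]
      refine Matrix.det_zero_of_column_eq (i := Sum.inr j) (j := Sum.inr j')
        (by simpa using h2) fun a => ?_
      simp [nMat, h1]
    rw [h3]
    exact 𝔟.zero_mem

/-- the block determinant -/
theorem EE_q0 (t : κ → MvPowerSeries (ι ⊕ κ) k) :
    EE t q0 = (Matrix.of fun j l => pderiv k (Sum.inr l : ι ⊕ κ) (t j)).det := by
  rw [EE, jac]
  have h1 : (Matrix.of fun a b => pderiv k b
      (Sum.elim (q0 : ι → MvPowerSeries (ι ⊕ κ) k) t a)) =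
      Matrix.fromBlocks 1 0 (Matrix.of fun j i => pderiv k (Sum.inl i : ι ⊕ κ) (t j))
        (Matrix.of fun j l => pderiv k (Sum.inr l : ι ⊕ κ) (t j)) := by
    refine Matrix.ext fun a b => ?_
    rcases a with i | j
    · rcases b with i' | j'
      · simp only [Matrix.of_apply, Sum.elim_inl, Matrix.fromBlocks_apply₁₁, q0]
        by_cases h : i = i'
        · subst h
          simp
        · rw [Matrix.one_apply_ne h, pderiv_X_of_ne (by simpa using h)]
      · simp only [Matrix.of_apply, Sum.elim_inl, Matrix.fromBlocks_apply₁₂, q0,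
          Matrix.zero_apply]
        exact pderiv_X_of_ne (by simp)
    · rcases b with i' | j'
      · simp
      · simp
  rw [h1, Matrix.det_fromBlocks_zero₁₂, Matrix.det_one, one_mul]

/-- the key identity -/
theorem star : ∃ (d : ℕ), d ≠ 0 ∧ ∃ Φ : MvPowerSeries (ι ⊕ κ) k → MvPowerSeries (ι ⊕ κ) k,
    ∀ (c : MvPowerSeries ι k) (h ρ : MvPowerSeries (ι ⊕ κ) k), D.φH h ≠ 0 →
      D.φH h * c = D.φH ρ * D.mq q0 →
      (d : MvPowerSeries ι k) * c = ∑ τ : κ → ι ⊕ κ, D.φH (Φ (emb c *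
        (Matrix.of fun j l => pderiv k (Sum.inr l : ι ⊕ κ) (D.f (τ j))).det)) * D.nn τ := by
  obtain ⟨F, hF1, hF2, hF3, hF4⟩ := D.ddagger
  obtain ⟨pf⟩ := exists_pkg D.f D.h0 D.hf
  obtain ⟨d, hd, hd'⟩ := pf.deg
  refine ⟨(Fintype.card κ).factorial * d, Nat.mul_ne_zero (Nat.factorial_ne_zero _) hd, pf.Φ, ?_⟩
  intro c h ρ hh hc
  set E := EE (fun l => D.φ (F l)) q0 with hE
  -- congruence
  have h1 : (D.φ h * emb c - D.φ ρ * emb (D.mq q0)) * E ∈ D.PB := by
    apply hF3
    rw [← rst_eq_zero_iff, map_sub, map_mul, map_mul, rst_emb, rst_emb, ← φH_eq, ← φH_eq, hc,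
      sub_self]
  have h2 := hF4 q0
  have h3 : D.φ h * (emb c * E) - D.φ (ρ * jac (Sum.elim q0 F)) * jac D.f ∈ D.PB := by
    have h4 := Ideal.sub_mem _ h1 (Ideal.mul_mem_left _ (D.φ ρ) h2)
    convert h4 using 1
    rw [map_mul]
    ring
  have h5 : pf.Φ (D.φ h * (emb c * E) - D.φ (ρ * jac (Sum.elim q0 F)) * jac D.f) ∈ D.P :=
    pf.mem _ _ h3
  have h6 : D.φH h * D.φH (pf.Φ (emb c * E)) =
      D.φH ρ * D.φH (jac (Sum.elim q0 F)) * d := by
    have h7 : pf.Φ (jac D.f) = d := by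
      rw [← hd', pf.Tr_eq, mul_one]
    have h8 : pf.Φ (D.φ h * (emb c * E) - D.φ (ρ * jac (Sum.elim q0 F)) * jac D.f) =
        h * pf.Φ (emb c * E) - ρ * jac (Sum.elim q0 F) * d := by
      rw [map_sub]
      have e1 : pf.Φ (D.φ h * (emb c * E)) = h * pf.Φ (emb c * E) := pf.Φ_mul _ _
      have e2 : pf.Φ (D.φ (ρ * jac (Sum.elim q0 F)) * jac D.f) =
          ρ * jac (Sum.elim q0 F) * pf.Φ (jac D.f) := pf.Φ_mul _ _
      rw [e1, e2, h7]
    rw [h8, mem_P, map_sub, sub_eq_zero, map_mul D.φH, map_mul D.φH, map_mul D.φH,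
      map_natCast] at h5
    exact h5
  -- Cauchy-Binet
  have hEdet : E = ((Matrix.of fun (j : κ) (a : ι ⊕ κ) => D.φ (pderiv k a (F j))) *
      (Matrix.of fun (a : ι ⊕ κ) (l : κ) => pderiv k (Sum.inr l : ι ⊕ κ) (D.f a))).det := by
    rw [hE, EE_q0]
    congr 1
    refine Matrix.ext fun j l => ?_
    rw [Matrix.of_apply, Matrix.mul_apply]
    exact pderiv_sh _ _ _ _
  have hCB := cauchy_binet (Matrix.of fun (j : κ) (a : ι ⊕ κ) => D.φ (pderiv k a (F j)))
      (Matrix.of fun (a : ι ⊕ κ) (l : κ) => pderiv k (Sum.inr l : ι ⊕ κ) (D.f a))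
  rw [← hEdet] at hCB
  have hγ : ∀ τ : κ → ι ⊕ κ, (Matrix.of fun j j' => (Matrix.of fun (j : κ) (a : ι ⊕ κ) =>
      D.φ (pderiv k a (F j))) j (τ j')).det =
      D.φ (Matrix.of fun j j' => pderiv k (τ j') (F j)).det := by
    intro τ
    rw [RingHom.map_det]
    rfl
  simp_rw [hγ] at hCB
  have h9 : ((Fintype.card κ).factorial : MvPowerSeries (ι ⊕ κ) k) * pf.Φ (emb c * E) =
      ∑ τ : κ → ι ⊕ κ, (Matrix.of fun j j' => pderiv k (τ j') (F j)).det *
        pf.Φ (emb c * (Matrix.of fun j l => pderiv k (Sum.inr l : ι ⊕ κ) (D.f (τ j))).det) := by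
    have e1 : ((Fintype.card κ).factorial : MvPowerSeries (ι ⊕ κ) k) * pf.Φ (emb c * E) =
        pf.Φ (D.φ ((Fintype.card κ).factorial : MvPowerSeries (ι ⊕ κ) k) * (emb c * E)) :=
      (pf.Φ_mul _ _).symm
    rw [e1, map_natCast, show ((Fintype.card κ).factorial : MvPowerSeries (ι ⊕ κ) k) *
      (emb c * E) = emb c * (((Fintype.card κ).factorial : MvPowerSeries (ι ⊕ κ) k) * E) by ring,
      hCB, Finset.mul_sum, map_sum]
    refine Finset.sum_congr rfl fun τ _ => ?_
    rw [← pf.Φ_mul]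
    congr 1
    change _ = D.φ _ * _
    rw [show ∀ x y z : MvPowerSeries (ι ⊕ κ) k, x * (y * z) = y * (x * z) from
      fun x y z => by ring]
    rfl
  have h10 := congrArg D.φH h9
  rw [map_mul, map_natCast, map_sum] at h10
  simp_rw [map_mul D.φH] at h10
  -- conclusion
  have h11 : D.φH h * D.φH (jac (Sum.elim q0 F)) *
      (∑ τ : κ → ι ⊕ κ, D.φH (pf.Φ (emb c *
        (Matrix.of fun j l => pderiv k (Sum.inr l : ι ⊕ κ) (D.f (τ j))).det)) * D.nn τ) =
      D.φH h * D.φH (jac (Sum.elim q0 F)) * ((((Fintype.card κ).factorial * d : ℕ) :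
        MvPowerSeries ι k) * c) := by
    have e1 : D.φH (jac (Sum.elim q0 F)) *
      (∑ τ : κ → ι ⊕ κ, D.φH (pf.Φ (emb c *
        (Matrix.of fun j l => pderiv k (Sum.inr l : ι ⊕ κ) (D.f (τ j))).det)) * D.nn τ) =
        D.mq q0 * (((Fintype.card κ).factorial : MvPowerSeries ι k) *
          D.φH (pf.Φ (emb c * E))) := by
      rw [h10, Finset.mul_sum, Finset.mul_sum]
      refine Finset.sum_congr rfl fun τ _ => ?_
      have := D.gamma_rel q0 F hF1 τ
      calc _ = (D.φH (jac (Sum.elim q0 F)) * D.nn τ) * D.φH (pf.Φ (emb c *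
            (Matrix.of fun j l => pderiv k (Sum.inr l : ι ⊕ κ) (D.f (τ j))).det)) := by ring
        _ = _ := by rw [← this]; ring
    rw [mul_assoc, e1]
    push_cast
    linear_combination ((Fintype.card κ).factorial : MvPowerSeries ι k) * D.mq q0 * h6 -
      ((Fintype.card κ).factorial : MvPowerSeries ι k) * d * D.φH (jac (Sum.elim q0 F)) * hc
  exact (mul_left_cancel₀ (mul_ne_zero hh hF2) h11).symm

end FTData

end Pool.Agent.Lib.MP_af4f85_ag
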