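import Pool.Agent.Lib.MP_af4f85_ag.T1

set_option autoImplicit false

namespace Pool.Agent.Lib.MP_af4f85_ag

open MvPowerSeries

variable {σ : Type*} [Fintype σ] [DecidableEq σ] {k : Type*} [Field k] [CharZero k]

/-- Elements inducing a `k`-basis of `k[[x]]/(f)` are a basis of `k[[x]]` over `k[[y]]`. -/
theorem basis_of_residue (f : σ → MvPowerSeries σ k) (h : ∀ i, constantCoeff (f i) = 0)
    (hf : Prim f) {d : ℕ} (e : Fin d → MvPowerSeries σ k)
    (hgen : ∀ b : MvPowerSeries σ k, ∃ c : Fin d → k,
      b - ∑ i, C (c i) * e i ∈ Ideal.span (Set.range f))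
    (hind : ∀ c : Fin d → k, ∑ i, C (c i) * e i ∈ Ideal.span (Set.range f) → c = 0) :
    ∃ β : Module.Basis (Fin d) (MvPowerSeries σ k) (SubA f h), ∀ i, β i = toSub f h (e i) := by
  classical
  have hfin := finite_of_prim f h hf
  obtain ⟨K, hK⟩ := hf
  have hmap : (IsLocalRing.maximalIdeal (MvPowerSeries σ k)).map
      (algebraMap (MvPowerSeries σ k) (SubA f h)) = Ideal.span (Set.range f) := by
    rw [← mm_eq_maximalIdeal, map_algebraMap_subA, map_sh_mm]
  have hsmul : ∀ (a : MvPowerSeries σ k) (b : MvPowerSeries σ k),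
      a • toSub f h b = toSub f h (sh f h a * b) := by
    intro a b
    rw [Algebra.smul_def, algebraMap_subA, ← map_mul]
  refine basis_of_levels (J := toSub f h (jac f)) ?_ ?_ ?_
  · intro j hj
    rw [← mm_eq_maximalIdeal]
    refine level f h j (K * j) ?_
    rw [pow_mul]
    exact Ideal.pow_right_mono hK j
  · -- spanning
    rw [eq_top_iff]
    refine Submodule.le_of_le_smul_of_le_jacobson_bot (I := IsLocalRing.maximalIdeal _)
      hfin.fg_top (IsLocalRing.maximalIdeal_le_jacobson _) ?_
    intro b _
    obtain ⟨b, rfl⟩ := (toSub f h).surjective b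
    obtain ⟨c, hc⟩ := hgen b
    have e1 : toSub f h b = ∑ i, (C (c i) : MvPowerSeries σ k) • toSub f h (e i) +
        toSub f h (b - ∑ i, C (c i) * e i) := by
      simp_rw [hsmul, sh_C]
      rw [← map_sum, ← map_add]
      congr 1
      ring
    rw [e1]
    refine Submodule.add_mem _ (Submodule.mem_sup_left ?_) (Submodule.mem_sup_right ?_)
    · exact Submodule.sum_mem _ fun i _ =>
        Submodule.smul_mem _ _ (Submodule.subset_span ⟨i, rfl⟩)
    · rw [Ideal.smul_top_eq_map, hmap]
      exact hc
  · intro a ha i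
    rw [hmap] at ha
    rw [← mm_eq_maximalIdeal, mem_mm_iff]
    have h1 : ∑ i, C (constantCoeff (a i)) * e i ∈ Ideal.span (Set.range f) := by
      have h2 : ∑ i, C (constantCoeff (a i)) * e i =
          ∑ i, sh f h (a i) * e i - ∑ i, sh f h (a i - C (constantCoeff (a i))) * e i := by
        rw [← Finset.sum_sub_distrib]
        refine Finset.sum_congr rfl fun i _ => ?_
        rw [map_sub, sh_C]
        ring
      rw [h2]
      refine Ideal.sub_mem _ ?_ ?_
      · have h3 : ∑ i, a i • toSub f h (e i) = toSub f h (∑ i, sh f h (a i) * e i) := by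
          simp_rw [hsmul]
          rw [← map_sum]
        rw [h3] at ha
        exact ha
      · refine Ideal.sum_mem _ fun i _ => Ideal.mul_mem_right _ _ ?_
        rw [← map_sh_mm f h]
        refine Ideal.mem_map_of_mem _ ?_
        rw [mem_mm_iff]
        simp
    exact congrFun (hind _ h1) i

end Pool.Agent.Lib.MP_af4f85_ag
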